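import Mathlib

/-!
# LGO/SG: Siegel's lower bound for class numbers: definitions

Elementary proof of Siegel's theorem and of `h(Δ) ≥ c |Δ| ^ (1/4)` for negative discriminants (notes 3079 on
MP_d83ecd_ag).
-/

namespace Pool.Agent.LGO.SG

open Filter Topology

/-- the weighted partial sums `∑_{n ≤ x} f(n) n ^ (-b)` -/
noncomputable def Sm (f : ArithmeticFunction ℝ) (b x : ℝ) : ℝ :=
  ∑ n ∈ Finset.Icc 1 ⌊x⌋₊, f n * (n : ℝ) ^ (-b)

/-- the same for the absolute values of `f` -/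
noncomputable def SmA (f : ArithmeticFunction ℝ) (b x : ℝ) : ℝ :=
  ∑ n ∈ Finset.Icc 1 ⌊x⌋₊, |f n| * (n : ℝ) ^ (-b)

/-- a real nonprincipal character: completely multiplicative, values `0, 1, -1`, partial sums bounded by `q` -/
structure Chr (χ : ArithmeticFunction ℝ) (q : ℝ) : Prop where
  one_le : 1 ≤ q
  map_one : χ 1 = 1
  map_mul : ∀ m n, χ (m * n) = χ m * χ n
  val : ∀ n, χ n = 0 ∨ χ n = 1 ∨ χ n = -1
  sum : ∀ N : ℕ, |∑ n ∈ Finset.Icc 1 N, χ n| ≤ q

/-- the value of the L-function: the limit of the partial sums -/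
noncomputable def Lv (χ : ArithmeticFunction ℝ) (b : ℝ) : ℝ :=
  limUnder atTop (fun N : ℕ => Sm χ b N)

/-- asymptotics of the weighted partial sums of `f`: main term, constant term, error term; and a bound for the sums of
the absolute values -/
structure Asy (f : ArithmeticFunction ℝ) (b lam c Q δ : ℝ) : Prop where
  asy : ∀ x : ℝ, 1 ≤ x → |Sm f b x - lam * x ^ (1 - b) / (1 - b) - c| ≤ Q * x ^ (-δ)
  bd : ∀ x : ℝ, 1 ≤ x → SmA f b x ≤ Q * x ^ (1 - b + 1 / 100)

/-- the indicator function of the integers prime to `M` -/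
noncomputable def cop (M : ℕ) : ArithmeticFunction ℝ :=
  ⟨fun n => if n ≠ 0 ∧ n.Coprime M then 1 else 0, by simp⟩

/-- `∏_{p | M} (1 - 1/p)` -/
noncomputable def kap (M : ℕ) : ℝ := ∏ p ∈ M.primeFactors, (1 - (p : ℝ)⁻¹)

/-- the Jacobi symbol `n ↦ (m / n)` for odd `n`, and `0` for even `n` -/
noncomputable def jc (m : ℤ) : ArithmeticFunction ℝ :=
  ⟨fun n => if Odd n then (jacobiSym m n : ℝ) else 0, by simp⟩

/-- the number of `b` modulo `2 n` with `b² ≡ Δ` modulo `4 n` -/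
def rho (Δ : ℤ) (n : ℕ) : ℕ := ((Finset.range (2 * n)).filter fun b : ℕ => (4 * (n : ℤ)) ∣ ((b : ℤ) ^ 2 - Δ)).card

end Pool.Agent.LGO.SG
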