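import Mathlib

/-!
# LGO/SG: lattice points in ellipses

`|b| ≤ a ≤ c`: `a x² + b x y + c y² ≥ (a x² + c y²) / 2`, so `a x² ≤ 2 X`, `c y² ≤ 2 X`: at most
`(2 √(2 X / a) + 1) (2 √(2 X / c) + 1) = 8 X / √(a c) + 2 √(2 X) (1 / √a + 1 / √c) + 1` points, and `4 a c ≥ |Δ|`,
`a, c ≥ 1`.
-/

namespace Pool.Agent.LGO.SG

/-- the number of integers of absolute value at most `A` -/
theorem Lat_int {A : ℝ} (hA : 0 ≤ A) : ((Finset.Icc (-(⌊A⌋)) ⌊A⌋).card : ℝ) ≤ 2 * A + 1 := by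
  have h0 : 0 ≤ ⌊A⌋ := Int.floor_nonneg.mpr hA
  rw [Int.card_Icc]
  have h1 : (((⌊A⌋ + 1 - -⌊A⌋).toNat : ℤ) : ℝ) = ((⌊A⌋ + 1 - -⌊A⌋ : ℤ) : ℝ) := by
    rw [Int.toNat_of_nonneg (by omega)]
  have h2 : (((⌊A⌋ + 1 - -⌊A⌋).toNat : ℕ) : ℝ) = (((⌊A⌋ + 1 - -⌊A⌋).toNat : ℤ) : ℝ) := by
    rw [Int.cast_natCast]
  rw [h2, h1]
  push_cast
  have := Int.floor_le A
  linarith

/-- bound for one coordinate -/
theorem Lat_mem {a : ℤ} (ha : 0 < a) {X : ℝ} {x : ℤ} (h : (a : ℝ) * x ^ 2 ≤ 2 * X) :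
    x ∈ Finset.Icc (-(⌊Real.sqrt (2 * X / a)⌋)) ⌊Real.sqrt (2 * X / a)⌋ := by
  have ha' : (0 : ℝ) < a := by exact_mod_cast ha
  have h1 : |(x : ℝ)| ≤ Real.sqrt (2 * X / a) := by
    apply Real.abs_le_sqrt
    rw [le_div_iff₀ ha']
    linarith
  obtain ⟨h2, h3⟩ := abs_le.mp h1
  rw [Finset.mem_Icc]
  constructor
  · have h4 : (-x : ℤ) ≤ ⌊Real.sqrt (2 * X / a)⌋ := by
      rw [Int.le_floor]
      push_cast
      linarith
    linarith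
  · rw [Int.le_floor]
    exact h3

theorem lat {a b c : ℤ} (ha : 0 < a) (hb : |b| ≤ a) (hc : a ≤ c) {X : ℝ} (hX : 0 ≤ X)
    (S : Finset (ℤ × ℤ))
    (hS : ∀ v ∈ S, ((a * v.1 ^ 2 + b * v.1 * v.2 + c * v.2 ^ 2 : ℤ) : ℝ) ≤ X) :
    (S.card : ℝ) ≤ 16 * X / Real.sqrt ((4 * a * c - b ^ 2 : ℤ) : ℝ) + 6 * Real.sqrt X + 1 := by
  classical
  have ha' : (1 : ℝ) ≤ a := by exact_mod_cast ha
  have hc' : (a : ℝ) ≤ c := by exact_mod_cast hc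
  have hc1 : (1 : ℝ) ≤ c := ha'.trans hc'
  have hb' : |(b : ℝ)| ≤ a := by exact_mod_cast hb
  set A := Real.sqrt (2 * X / a) with hA
  set B := Real.sqrt (2 * X / c) with hB
  have hA0 : 0 ≤ A := Real.sqrt_nonneg _
  have hB0 : 0 ≤ B := Real.sqrt_nonneg _
  have hsub : S ⊆ Finset.Icc (-(⌊A⌋)) ⌊A⌋ ×ˢ Finset.Icc (-(⌊B⌋)) ⌊B⌋ := by
    intro v hv
    have h1 := hS v hv
    push_cast at h1
    have h2 : -((a : ℝ) * v.1 ^ 2 + c * v.2 ^ 2) ≤ 2 * (b * v.1 * v.2) := by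
      have h3 : -(|(b : ℝ)| * |(v.1 : ℝ) * v.2|) ≤ b * (v.1 * v.2) := by
        rw [← abs_mul]
        exact neg_abs_le _
      have h4 : |(b : ℝ)| * |(v.1 : ℝ) * v.2| ≤ a * |(v.1 : ℝ) * v.2| :=
        mul_le_mul_of_nonneg_right hb' (abs_nonneg _)
      have h5 : 2 * |(v.1 : ℝ) * v.2| ≤ (v.1 : ℝ) ^ 2 + (v.2 : ℝ) ^ 2 := by
        rw [abs_mul]
        have := sq_nonneg (|(v.1 : ℝ)| - |(v.2 : ℝ)|)
        rw [← sq_abs (v.1 : ℝ), ← sq_abs (v.2 : ℝ)]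
        linarith
      have h6 : (a : ℝ) * (2 * |(v.1 : ℝ) * v.2|) ≤ a * ((v.1 : ℝ) ^ 2 + (v.2 : ℝ) ^ 2) :=
        mul_le_mul_of_nonneg_left h5 (by linarith)
      have h7 : (a : ℝ) * (v.2 : ℝ) ^ 2 ≤ c * (v.2 : ℝ) ^ 2 := mul_le_mul_of_nonneg_right hc' (sq_nonneg _)
      linarith
    have h8 : 0 ≤ (a : ℝ) * v.1 ^ 2 := mul_nonneg (by linarith) (sq_nonneg _)
    have h9 : 0 ≤ (c : ℝ) * v.2 ^ 2 := mul_nonneg (by linarith) (sq_nonneg _)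
    rw [Finset.mem_product]
    exact ⟨Lat_mem ha (by linarith), Lat_mem (ha.trans_le hc) (by linarith)⟩
  have hcard : (S.card : ℝ) ≤ (2 * A + 1) * (2 * B + 1) := by
    have h1 : (S.card : ℝ) ≤ ((Finset.Icc (-(⌊A⌋)) ⌊A⌋ ×ˢ Finset.Icc (-(⌊B⌋)) ⌊B⌋).card : ℝ) := by
      exact_mod_cast Finset.card_le_card hsub
    rw [Finset.card_product] at h1
    push_cast at h1
    exact h1.trans (mul_le_mul (Lat_int hA0) (Lat_int hB0) (by positivity) (by positivity))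
  -- the bounds for A, B
  have hs2 : Real.sqrt (2 * X) ≤ 3 / 2 * Real.sqrt X := by
    rw [Real.sqrt_mul (by norm_num)]
    refine mul_le_mul_of_nonneg_right ?_ (Real.sqrt_nonneg _)
    rw [Real.sqrt_le_left (by norm_num)]
    norm_num
  have hAX : A ≤ 3 / 2 * Real.sqrt X := by
    refine le_trans (Real.sqrt_le_sqrt ?_) hs2
    exact div_le_self (by linarith) ha'
  have hBX : B ≤ 3 / 2 * Real.sqrt X := by
    refine le_trans (Real.sqrt_le_sqrt ?_) hs2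
    exact div_le_self (by linarith) hc1
  -- the product
  have hD : (0 : ℝ) < 4 * a * c - b ^ 2 := by
    have h1 : (b : ℝ) ^ 2 ≤ a ^ 2 := sq_le_sq' (by linarith [(abs_le.mp hb').1]) (abs_le.mp hb').2
    nlinarith
  have hAB : 4 * (A * B) ≤ 16 * X / Real.sqrt ((4 * a * c - b ^ 2 : ℤ) : ℝ) := by
    have h1 : A * B = 2 * X / Real.sqrt (a * c) := by
      rw [hA, hB, ← Real.sqrt_mul (div_nonneg (by linarith) (by linarith)), div_mul_div_comm,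
        Real.sqrt_div (by positivity), Real.sqrt_mul_self (by linarith)]
    rw [h1]
    push_cast
    have h2 : Real.sqrt (4 * a * c - b ^ 2) ≤ 2 * Real.sqrt (a * c) := by
      have h3 : 2 * Real.sqrt ((a : ℝ) * c) = Real.sqrt (4 * (a * c)) := by
        rw [show (4 : ℝ) * (a * c) = 2 ^ 2 * (a * c) by norm_num,
          Real.sqrt_mul (by norm_num : (0 : ℝ) ≤ 2 ^ 2), Real.sqrt_sq (by norm_num : (0 : ℝ) ≤ 2)]
      rw [h3]
      apply Real.sqrt_le_sqrt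
      nlinarith [sq_nonneg (b : ℝ)]
    have h4 : 0 < Real.sqrt (4 * (a : ℝ) * c - b ^ 2) := Real.sqrt_pos.mpr hD
    have h5 : 0 < Real.sqrt ((a : ℝ) * c) := Real.sqrt_pos.mpr (by positivity)
    rw [← mul_div_assoc, div_le_div_iff₀ h5 h4]
    nlinarith
  calc (S.card : ℝ) ≤ (2 * A + 1) * (2 * B + 1) := hcard
    _ = 4 * (A * B) + 2 * A + 2 * B + 1 := by ring
    _ ≤ _ := by linarith

end Pool.Agent.LGO.SG
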