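import Mathlib
import Pool.Agent.LGO.SG.Defs
import Pool.Agent.LGO.SG.Lat
import Pool.Agent.LGO.CK.Form
import Pool.Agent.LGO.Gal.Basic

/-!
# LGO/SG: representations of integers by the forms of discriminant `Δ`

`jset Δ` = the set of the `j(τ)`, `τ` with a primitive form of discriminant `Δ`; finite (`finite_disc`).
For `n` prime to `2 Δ` and `b` counted by `rho Δ n` let `τ_(n,b)` be the root of `n X² + b X + (b² - Δ) / 4 n` in the upper half
plane; the form is primitive (a common divisor `g` satisfies `g² | Δ`, `g | n`).  Every `x ∈ jset Δ` is `j(τ_x)` with a reduced form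
`(a, b, c)`, `|b| ≤ a ≤ c` (`exists_red`, see the proof of `finite_disc`).  If `j(τ_(n,b)) = x` then `τ_(n,b) = γ τ_x`
(`LGO/Gal/JInj.lean`: `j_inj`), and by `HasForm.smul_form` (explicit form of `γ τ`) `n = Q_x(v)` for the vector `v` given by the
lower row of `γ` (up to signs); `v` determines `γ` up to left multiplication by `(1, k; 0, 1)`, which changes `b` by a multiple of `2 n`: so
`(n, b) ↦ v` is injective for given `x` (`0 ≤ b < 2 n`).  So the number of the pairs `(n, b)` with `n ≤ X` and `j(τ_(n,b)) = x` is at most the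
number of the `v` with `Q_x(v) ≤ X` (`lat`).  Sum over `x ∈ jset Δ`.
-/

namespace Pool.Agent.LGO.SG

open UpperHalfPlane Pool.Agent.Hhelper14.ZP Pool.Agent.LGO.CK

/-- the singular moduli of discriminant `Δ` -/
def jset (Δ : ℤ) : Set ℂ := {x : ℂ | ∃ (τ : ℍ) (a b c : ℤ), HasForm τ a b c ∧
  b ^ 2 - 4 * a * c = Δ ∧ x = jInv τ}

private theorem Reps_point {Δ : ℤ} (hΔ : Δ < 0) {n b : ℕ} (hn : 0 < n)
    (hc : n.Coprime (2 * Δ.natAbs)) (hb : (4 * (n : ℤ)) ∣ ((b : ℤ) ^ 2 - Δ)) :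
    ∃ (τ : ℍ) (c : ℤ), HasForm τ n b c ∧ (b : ℤ) ^ 2 - 4 * n * c = Δ := by
  obtain ⟨c, hcc⟩ := hb
  have hd : (b : ℤ) ^ 2 - 4 * n * c = Δ := by linarith
  have hnr : (0 : ℝ) < n := by exact_mod_cast hn
  have hpos : 0 < Real.sqrt (-(Δ : ℝ)) := by
    apply Real.sqrt_pos.2
    have : (Δ : ℝ) < 0 := by exact_mod_cast hΔ
    linarith
  have him : 0 < (⟨-(b : ℝ) / (2 * n), Real.sqrt (-(Δ : ℝ)) / (2 * n)⟩ : ℂ).im := by
    show 0 < Real.sqrt (-(Δ : ℝ)) / (2 * n)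
    positivity
  refine ⟨⟨⟨-(b : ℝ) / (2 * n), Real.sqrt (-(Δ : ℝ)) / (2 * n)⟩, him⟩, c, ⟨?_, ?_, ?_⟩, hd⟩
  · exact_mod_cast hn
  · intro d h1 h2 h3
    have h4 : d ∣ Δ := by
      rw [← hd]
      exact dvd_sub (Dvd.dvd.pow h2 two_ne_zero) (Dvd.dvd.mul_left h3 _)
    have h5 : d.natAbs ∣ n := by
      have := Int.natAbs_dvd_natAbs.2 h1
      simpa using this
    have h6 : d.natAbs ∣ 2 * Δ.natAbs := Dvd.dvd.mul_left (Int.natAbs_dvd_natAbs.2 h4) _
    have h7 : d.natAbs ∣ 1 := by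
      rw [← hc.gcd_eq_one]
      exact Nat.dvd_gcd h5 h6
    exact Int.isUnit_iff_natAbs_eq.2 (Nat.dvd_one.1 h7)
  · have hΔ' : (Δ : ℝ) = (b : ℝ) ^ 2 - 4 * n * c := by exact_mod_cast hd.symm
    have hs : Real.sqrt (-(Δ : ℝ)) ^ 2 = -(Δ : ℝ) := by
      apply Real.sq_sqrt
      have : (Δ : ℝ) < 0 := by exact_mod_cast hΔ
      linarith
    set w := Real.sqrt (-(Δ : ℝ)) with hw
    apply Complex.ext
    · simp only [Complex.add_re, Complex.mul_re, Complex.intCast_re, pow_two,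
        Complex.zero_re, Complex.mul_im, Int.cast_natCast, Complex.natCast_re, Complex.natCast_im]
      rw [hΔ'] at hs
      field_simp
      nlinarith [hs]
    · simp only [Complex.add_im, Complex.mul_re, Complex.intCast_im, pow_two,
        Complex.zero_im, Complex.mul_im, Int.cast_natCast, Complex.natCast_re, Complex.natCast_im]
      field_simp
      ring

private theorem Reps_red {Δ : ℤ} {x : ℂ} (hx : x ∈ jset Δ) :
    ∃ (τ : ℍ) (a b c : ℤ), HasForm τ a b c ∧ |b| ≤ a ∧ a ≤ c ∧ b ^ 2 - 4 * a * c = Δ ∧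
      x = jInv τ := by
  obtain ⟨τ, a, b, c, h1, h2, rfl⟩ := hx
  obtain ⟨γ, hγ⟩ := ModularGroup.exists_smul_mem_fd τ
  obtain ⟨a', b', c', h3, h4⟩ := h1.smul γ
  rw [h2] at h4
  have ha := h3.apos
  have hre := h3.core.1
  have him := h3.core.2
  have hfr : |((γ • τ : ℍ) : ℂ).re| ≤ 1 / 2 := hγ.2
  have hfn : 1 ≤ Complex.normSq ((γ • τ : ℍ) : ℂ) := hγ.1
  rw [Complex.normSq_apply] at hfn
  refine ⟨γ • τ, a', b', c', h3, ?_, ?_, h4, (jInv_smul γ τ).symm⟩
  · set u := ((γ • τ : ℍ) : ℂ).re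
    have hb1 : |(b' : ℝ)| ≤ a' := by
      have e : (b' : ℝ) = -(2 * a' * u) := by linarith
      rw [e, abs_neg, abs_mul, abs_of_pos (by positivity : (0 : ℝ) < 2 * a')]
      nlinarith
    exact_mod_cast hb1
  · set u := ((γ • τ : ℍ) : ℂ).re
    set v := ((γ • τ : ℍ) : ℂ).im
    have e1 : (c' : ℝ) = a' * (u * u + v * v) := by
      apply mul_left_cancel₀ (show (4 * (a' : ℝ)) ≠ 0 by positivity)
      have e : (b' : ℝ) = -(2 * a' * u) := by linarith
      rw [e] at him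
      linear_combination him
    have e2 : (a' : ℝ) ≤ c' := by
      rw [e1]
      nlinarith
    exact_mod_cast e2

private theorem Reps_inj {a b c p q r s p' q' : ℤ} (h : p * s - q * r = 1) (h' : p' * s - q' * r = 1)
    {n : ℕ} {β β' : ℕ} (hβ : β < 2 * n) (hβ' : β' < 2 * n)
    (hn : (n : ℤ) = a * s ^ 2 - b * s * r + c * r ^ 2)
    (hb : (β : ℤ) = -2 * a * s * q + b * (s * p + q * r) - 2 * c * p * r)
    (hb' : (β' : ℤ) = -2 * a * s * q' + b * (s * p' + q' * r) - 2 * c * p' * r) : β = β' := by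
  have h1 : p' = p + (p * q' - q * p') * r := by linear_combination (-p') * h + p * h'
  have h2 : q' = q + (p * q' - q * p') * s := by linear_combination (-q') * h + q * h'
  set k := p * q' - q * p' with hk
  have h3 : (β' : ℤ) = β - 2 * k * n := by
    rw [hb', hb, hn, h1, h2]
    ring
  have hk0 : k = 0 := by
    by_contra hne
    rcases lt_or_gt_of_ne hne with h4 | h4
    · nlinarith
    · nlinarith
  rw [hk0] at h3
  omega

private theorem Reps_fib {Δ : ℤ} {X : ℝ} (hX : 0 ≤ X) {x : ℂ} (hx : x ∈ jset Δ)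
    (P : Finset (Σ _ : ℕ, ℕ)) (t : (Σ _ : ℕ, ℕ) → ℍ) (c : (Σ _ : ℕ, ℕ) → ℤ)
    (hP : ∀ u ∈ P, HasForm (t u) u.1 u.2 (c u)) (hb : ∀ u ∈ P, u.2 < 2 * u.1)
    (hPX : ∀ u ∈ P, (u.1 : ℝ) ≤ X) (hj : ∀ u ∈ P, jInv (t u) = x) :
    (P.card : ℝ) ≤ 16 * X / Real.sqrt |(Δ : ℝ)| + 6 * Real.sqrt X + 1 := by
  classical
  obtain ⟨τ, a, b, c₀, hf, hba, hac, hd, hxj⟩ := Reps_red hx
  have hex : ∀ u ∈ P, ∃ γ : Matrix.SpecialLinearGroup (Fin 2) ℤ, t u = γ • τ := by
    intro u hu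
    exact Gal.j_inj ((hj u hu).trans hxj)
  choose! g hg using hex
  set v : (Σ _ : ℕ, ℕ) → ℤ × ℤ := fun u => ((g u).1 1 1, -(g u).1 1 0) with hv
  have hform : ∀ u ∈ P,
      (u.1 : ℤ) = a * (g u).1 1 1 ^ 2 - b * (g u).1 1 1 * (g u).1 1 0 + c₀ * (g u).1 1 0 ^ 2 ∧
      (u.2 : ℤ) = -2 * a * (g u).1 1 1 * (g u).1 0 1 +
        b * ((g u).1 1 1 * (g u).1 0 0 + (g u).1 0 1 * (g u).1 1 0) -
          2 * c₀ * (g u).1 0 0 * (g u).1 1 0 := by
    intro u hu
    have h1 := hP u hu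
    have h2 := hf.smul_form (g u)
    rw [← hg u hu] at h2
    have h3 := h1.unique h2
    exact ⟨h3.1, h3.2.1⟩
  have hdet : ∀ γ : Matrix.SpecialLinearGroup (Fin 2) ℤ, γ.1 0 0 * γ.1 1 1 - γ.1 0 1 * γ.1 1 0 = 1 := by
    intro γ
    have := γ.2
    rwa [Matrix.det_fin_two] at this
  have hinj : Set.InjOn v P := by
    intro u hu u' hu' he
    have e1 : (g u).1 1 1 = (g u').1 1 1 := congrArg Prod.fst he
    have e2 : (g u).1 1 0 = (g u').1 1 0 := by
      have := congrArg Prod.snd he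
      simpa [hv] using this
    obtain ⟨a1, a2⟩ := hform u hu
    obtain ⟨b1, b2⟩ := hform u' hu'
    have d1 := hdet (g u)
    have d2 := hdet (g u')
    rw [← e1, ← e2] at b1 b2 d2
    have n1 : u.1 = u'.1 := by
      have : (u.1 : ℤ) = u'.1 := by rw [a1, b1]
      exact_mod_cast this
    have n2 : u.2 = u'.2 := by
      have h1 := hb u hu
      have h2 := hb u' hu'
      rw [← n1] at h2
      exact Reps_inj d1 d2 h1 h2 a1 a2 b2
    exact Sigma.ext n1 (heq_of_eq n2)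
  have hcard : (P.image v).card = P.card := Finset.card_image_of_injOn hinj
  have key := lat hf.pos hba hac hX (P.image v) (by
    intro w hw
    obtain ⟨u, hu, rfl⟩ := Finset.mem_image.1 hw
    have h1 := (hform u hu).1
    have h2 : a * (v u).1 ^ 2 + b * (v u).1 * (v u).2 + c₀ * (v u).2 ^ 2 = (u.1 : ℤ) := by
      rw [h1]
      simp only [hv]
      ring
    rw [h2, Int.cast_natCast]
    exact hPX u hu)
  rw [hcard] at key
  have e : |(Δ : ℝ)| = ((4 * a * c₀ - b ^ 2 : ℤ) : ℝ) := by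
    have h1 : 4 * a * c₀ - b ^ 2 = -Δ := by linarith
    have h2 : Δ < 0 := by rw [← hd]; exact hf.disc_neg
    rw [h1, Int.cast_neg, abs_of_neg]
    exact_mod_cast h2
  rw [e]
  exact key

theorem reps {Δ : ℤ} (hΔ : Δ < 0) {X : ℝ} (hX : 1 ≤ X) :
    ∑ n ∈ (Finset.Icc 1 ⌊X⌋₊).filter (fun n => n.Coprime (2 * Δ.natAbs)), (rho Δ n : ℝ) ≤
      (jset Δ).ncard * (16 * X / Real.sqrt |(Δ : ℝ)| + 6 * Real.sqrt X + 1) := by
  classical
  set A := (Finset.Icc 1 ⌊X⌋₊).filter (fun n => n.Coprime (2 * Δ.natAbs)) with hA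
  set P : Finset (Σ _ : ℕ, ℕ) := A.sigma fun n =>
    (Finset.range (2 * n)).filter fun b : ℕ => (4 * (n : ℤ)) ∣ ((b : ℤ) ^ 2 - Δ) with hP
  have hsum : ∑ n ∈ A, (rho Δ n : ℝ) = (P.card : ℝ) := by
    rw [hP, Finset.card_sigma]
    push_cast
    rfl
  have hex : ∀ u ∈ P, ∃ (τ : ℍ) (c : ℤ), HasForm τ u.1 u.2 c ∧ (u.2 : ℤ) ^ 2 - 4 * u.1 * c = Δ := by
    intro u hu
    rw [hP, Finset.mem_sigma, hA, Finset.mem_filter, Finset.mem_Icc, Finset.mem_filter] at hu
    exact Reps_point hΔ (by omega) hu.1.2 hu.2.2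
  choose! t c hform hdisc using hex
  have hfin : (jset Δ).Finite := finite_disc Δ
  have hmaps : ∀ u ∈ P, jInv (t u) ∈ hfin.toFinset := by
    intro u hu
    rw [Set.Finite.mem_toFinset]
    exact ⟨t u, u.1, u.2, c u, hform u hu, hdisc u hu, rfl⟩
  rw [hsum, Finset.card_eq_sum_card_fiberwise hmaps, Set.ncard_eq_toFinset_card _ hfin]
  push_cast
  rw [← nsmul_eq_mul, ← Finset.sum_const]
  refine Finset.sum_le_sum fun x hx => ?_
  rw [Set.Finite.mem_toFinset] at hx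
  refine Reps_fib (by linarith) hx _ t c (fun u hu => hform u (Finset.mem_filter.1 hu).1)
    (fun u hu => ?_) (fun u hu => ?_) (fun u hu => (Finset.mem_filter.1 hu).2)
  · have h1 := (Finset.mem_filter.1 hu).1
    rw [hP, Finset.mem_sigma] at h1
    exact Finset.mem_range.1 (Finset.mem_filter.1 h1.2).1
  · have h1 := (Finset.mem_filter.1 hu).1
    rw [hP, Finset.mem_sigma, hA, Finset.mem_filter, Finset.mem_Icc] at h1
    exact (Nat.le_floor_iff (by linarith)).1 h1.1.1.2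

end Pool.Agent.LGO.SG
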