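import Mathlib
import Pool.Agent.LGO.SG.Defs

/-!
# LGO/SG: the Jacobi symbol as a character in the lower argument

`jc m` has period `4 |m|` (`jacobiSym.mod_right`; parity), it is completely multiplicative (`jacobiSym.mul_right`), its values
are `0, 1, -1`.  `exists_neg`: for an integer `m` which is not a square there is an odd `n`, prime to `m`, with
`(m / n) = -1`: if `m < 0` and `-m` is a square take `n ≡ 3 mod 4` prime to `m` (`n = 4 |m| - 1`); otherwise let `p` be a prime with odd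
multiplicity in `|m|`; Chinese remainder theorem: `n ≡ 1` modulo `8` and modulo all other odd primes of `m`, `n` a
nonresidue modulo `p` (if `p` is odd), or `n ≡ 5 mod 8` and `≡ 1` modulo the odd primes (if `p = 2`); quadratic
reciprocity (`jacobiSym.quadratic_reciprocity_one_mod_four`, `jacobiSym.at_two`, `at_neg_one`).
The sum over a period is `0`: multiplication by `n` permutes the residues modulo `4 |m|` and changes the sign.
-/

namespace Pool.Agent.LGO.SG

open ArithmeticFunction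

open scoped NumberTheorySymbols

private theorem Jac_odd {d n : ℕ} (hd : Odd d) (h4 : n % 4 = 1) (h1 : n ≡ 1 [MOD d]) :
    jacobiSym (d : ℤ) n = 1 := by
  rw [jacobiSym.quadratic_reciprocity_one_mod_four' hd h4]
  have h2 : ((n : ℤ) % (d : ℤ)) = (1 : ℤ) % (d : ℤ) := by
    have h3 : n % d = 1 % d := h1
    exact_mod_cast h3
  rw [jacobiSym.mod_left' h2, jacobiSym.one_left]

private theorem Jac_negone {n : ℕ} (h4 : n % 4 = 1) : jacobiSym (-1) n = 1 := by
  have hn : Odd n := Nat.odd_iff.2 (by omega)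
  rw [jacobiSym.at_neg_one hn, ZMod.χ₄_nat_one_mod_four h4]

private theorem Jac_sign {m : ℤ} {n : ℕ} (h4 : n % 4 = 1) :
    jacobiSym m n = jacobiSym (m.natAbs : ℤ) n := by
  rcases Int.natAbs_eq m with h | h
  · rw [← h]
  · have h2 : m = (-1) * (m.natAbs : ℤ) := by omega
    conv_lhs => rw [h2]
    rw [jacobiSym.mul_left, Jac_negone h4, one_mul]

private theorem Jac_two_one {n : ℕ} (h8 : n % 8 = 1) : jacobiSym 2 n = 1 := by
  have hn : Odd n := Nat.odd_iff.2 (by omega)
  rw [jacobiSym.at_two hn, ZMod.χ₈_nat_eq_if_mod_eight]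
  have h2 : n % 2 = 1 := by omega
  simp [h8, h2]

private theorem Jac_two_five {n : ℕ} (h8 : n % 8 = 5) : jacobiSym 2 n = -1 := by
  have hn : Odd n := Nat.odd_iff.2 (by omega)
  rw [jacobiSym.at_two hn, ZMod.χ₈_nat_eq_if_mod_eight]
  have h2 : n % 2 = 1 := by omega
  simp [h8, h2]

private theorem Jac_decomp {k : ℕ} (hk0 : k ≠ 0) (hk : ¬ IsSquare k) :
    ∃ p e c : ℕ, p.Prime ∧ k = p ^ (2 * e + 1) * c ∧ ¬ p ∣ c := by
  obtain ⟨a, b, hab, hsq⟩ := Nat.sq_mul_squarefree k
  have ha1 : a ≠ 1 := by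
    rintro rfl
    exact hk ⟨b, by rw [← hab]; ring⟩
  obtain ⟨p, hp, hpa⟩ := Nat.exists_prime_and_dvd ha1
  obtain ⟨a', rfl⟩ := hpa
  have hb0 : b ≠ 0 := by
    rintro rfl
    apply hk0
    rw [← hab]
    simp
  have hpa' : ¬ p ∣ a' := by
    intro h
    obtain ⟨a2, rfl⟩ := h
    have h2 : p * p ∣ p * (p * a2) := ⟨a2, by ring⟩
    exact hp.one_lt.ne' (Nat.isUnit_iff.1 (hsq p h2))
  obtain ⟨e, b1, hb1, hbe⟩ := Nat.exists_eq_pow_mul_and_not_dvd hb0 p hp.one_lt.ne'
  refine ⟨p, e, b1 ^ 2 * a', hp, ?_, ?_⟩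
  · rw [← hab, hbe]
    ring
  · intro h
    rcases hp.dvd_mul.1 h with h | h
    · exact hb1 (hp.dvd_of_dvd_pow h)
    · exact hpa' h

theorem exists_neg {m : ℤ} (hm : ¬ IsSquare m) : ∃ n : ℕ, Odd n ∧ jacobiSym m n = -1 := by
  have hm0 : m.natAbs ≠ 0 := by
    intro h
    rw [Int.natAbs_eq_zero] at h
    exact hm ⟨0, by rw [h]; ring⟩
  by_cases hk : IsSquare m.natAbs
  · obtain ⟨b, hb⟩ := hk
    have hneg : m = (-1) * ((b : ℤ) ^ 2) := by
      rcases Int.natAbs_eq m with h | h
      · exact absurd ⟨(b : ℤ), by rw [h, hb]; push_cast; ring⟩ hm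
      · rw [h, hb]; push_cast; ring
    have hb0 : b ≠ 0 := by
      rintro rfl
      exact hm0 (by rw [hb])
    refine ⟨4 * b - 1, Nat.odd_iff.2 (by omega), ?_⟩
    have h4 : (4 * b - 1) % 4 = 3 := by omega
    have hodd : Odd (4 * b - 1) := Nat.odd_iff.2 (by omega)
    have hcop : (b : ℤ).gcd ((4 * b - 1 : ℕ) : ℤ) = 1 := by
      rw [Int.gcd_natCast_natCast]
      have h5 : Nat.Coprime b (4 * b - 1) := by
        have h6 : Nat.gcd b (4 * b - 1) ∣ 1 := by
          have h7 : Nat.gcd b (4 * b - 1) ∣ 4 * b := (Nat.gcd_dvd_left _ _).mul_left 4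
          have h8 : Nat.gcd b (4 * b - 1) ∣ 4 * b - 1 := Nat.gcd_dvd_right _ _
          have h9 := Nat.dvd_sub h7 h8
          rwa [show 4 * b - (4 * b - 1) = 1 by omega] at h9
        exact Nat.dvd_one.1 h6
      exact h5
    rw [hneg, jacobiSym.mul_left, jacobiSym.sq_one' hcop, mul_one, jacobiSym.at_neg_one hodd,
      ZMod.χ₄_nat_three_mod_four h4]
  · obtain ⟨p, e, c, hp, hkc, hpc⟩ := Jac_decomp hm0 hk
    have hc0 : c ≠ 0 := by
      rintro rfl
      exact hpc (dvd_zero p)
    rcases hp.eq_two_or_odd' with rfl | hodd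
    · have hcodd : Odd c := by
        rw [← Nat.not_even_iff_odd, even_iff_two_dvd]
        exact hpc
      have hco : Nat.Coprime 8 c := by
        have : Nat.Coprime (2 ^ 3) c := Nat.Coprime.pow_left 3 (Nat.coprime_two_left.2 hcodd)
        exact this
      obtain ⟨n, hn1, hn2⟩ := Nat.chineseRemainder hco 5 1
      have h8 : n % 8 = 5 := hn1
      have h4 : n % 4 = 1 := by omega
      refine ⟨n, Nat.odd_iff.2 (by omega), ?_⟩
      rw [Jac_sign h4, hkc]
      push_cast
      rw [jacobiSym.mul_left, jacobiSym.pow_left, Jac_two_five h8, Jac_odd hcodd h4 hn2, mul_one]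
      exact Odd.neg_one_pow ⟨e, rfl⟩
    · obtain ⟨f, d, hd2, hcf⟩ := Nat.exists_eq_pow_mul_and_not_dvd hc0 2 (by norm_num)
      have hdodd : Odd d := by
        rw [← Nat.not_even_iff_odd, even_iff_two_dvd]
        exact hd2
      have hpd : ¬ p ∣ d := fun h => hpc (by rw [hcf]; exact h.mul_left _)
      have hp2 : p ≠ 2 := by
        rintro rfl
        exact absurd hodd (by decide)
      have hco : Nat.Coprime (8 * d) p := by
        refine Nat.Coprime.mul_left ?_ ((Nat.Prime.coprime_iff_not_dvd hp).2 hpd).symm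
        have : Nat.Coprime (2 ^ 3) p := Nat.Coprime.pow_left 3
          ((Nat.coprime_primes Nat.prime_two hp).2 (Ne.symm hp2))
        exact this
      have : Fact p.Prime := ⟨hp⟩
      obtain ⟨r, hr⟩ := FiniteField.exists_nonsquare (F := ZMod p)
        (by rw [ZMod.ringChar_zmod_n]; exact hp2)
      obtain ⟨n, hn1, hn2⟩ := Nat.chineseRemainder hco 1 r.val
      have h8 : n % 8 = 1 := by
        have h9 : n ≡ 1 [MOD 8] := hn1.of_mul_right d
        exact h9
      have hnd : n ≡ 1 [MOD d] := hn1.of_mul_left 8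
      have h4 : n % 4 = 1 := by omega
      have hpn : jacobiSym (p : ℤ) n = -1 := by
        rw [jacobiSym.quadratic_reciprocity_one_mod_four' hodd h4, ← jacobiSym.legendreSym.to_jacobiSym,
          legendreSym.eq_neg_one_iff]
        have h10 : ((n : ℤ) : ZMod p) = r := by
          have h11 : ((n : ℕ) : ZMod p) = ((r.val : ℕ) : ZMod p) := (ZMod.natCast_eq_natCast_iff _ _ _).2 hn2
          rw [ZMod.natCast_zmod_val] at h11
          exact_mod_cast h11
        rw [h10]
        exact hr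
      refine ⟨n, Nat.odd_iff.2 (by omega), ?_⟩
      rw [Jac_sign h4, hkc, hcf]
      push_cast
      rw [jacobiSym.mul_left, jacobiSym.mul_left, jacobiSym.pow_left, jacobiSym.pow_left, Jac_two_one h8,
        Jac_odd hdodd h4 hnd, hpn, one_pow, mul_one, mul_one]
      exact Odd.neg_one_pow ⟨e, rfl⟩

private theorem Jac_apply (m : ℤ) (n : ℕ) : jc m n = if Odd n then (jacobiSym m n : ℝ) else 0 := rfl

private theorem Jac_mul (m : ℤ) (a b : ℕ) : jc m (a * b) = jc m a * jc m b := by
  rw [Jac_apply, Jac_apply, Jac_apply]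
  by_cases ha : Odd a
  · by_cases hb : Odd b
    · rw [if_pos (ha.mul hb), if_pos ha, if_pos hb, jacobiSym.mul_right' m ha.pos.ne' hb.pos.ne']
      push_cast
      ring
    · rw [if_neg hb, if_neg (fun h => hb (Nat.odd_mul.1 h).2), mul_zero]
  · rw [if_neg ha, if_neg (fun h => ha (Nat.odd_mul.1 h).1), zero_mul]

private theorem Jac_per {m : ℤ} (n : ℕ) : jc m n = jc m (n % (4 * m.natAbs)) := by
  rw [Jac_apply, Jac_apply]
  have hpar : Odd n ↔ Odd (n % (4 * m.natAbs)) := by
    rw [Nat.odd_iff, Nat.odd_iff, Nat.mod_mod_of_dvd n (by exact ⟨2 * m.natAbs, by ring⟩ : 2 ∣ 4 * m.natAbs)]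
  by_cases hn : Odd n
  · rw [if_pos hn, if_pos (hpar.1 hn), jacobiSym.mod_right m hn]
  · rw [if_neg hn, if_neg (fun h => hn (hpar.2 h))]

private theorem Jac_val (m : ℤ) (n : ℕ) : jc m n = 0 ∨ jc m n = 1 ∨ jc m n = -1 := by
  rw [Jac_apply]
  split_ifs
  · rcases jacobiSym.trichotomy m n with h | h | h <;> rw [h] <;> simp
  · simp

private theorem Jac_zero_sum {m : ℤ} (hm : ¬ IsSquare m) :
    ∑ n ∈ Finset.range (4 * m.natAbs), jc m n = 0 := by
  have hm0 : m.natAbs ≠ 0 := by
    intro h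
    rw [Int.natAbs_eq_zero] at h
    exact hm ⟨0, by rw [h]; ring⟩
  obtain ⟨n0, hodd, hneg⟩ := exists_neg hm
  set P : ℕ := 4 * m.natAbs with hP
  have hP0 : 0 < P := by omega
  have hcop : Nat.Coprime n0 P := by
    have h1 : m.gcd n0 = 1 := by
      by_contra h
      have : NeZero n0 := ⟨hodd.pos.ne'⟩
      rw [← ne_eq, ← jacobiSym.eq_zero_iff_not_coprime, hneg] at h
      norm_num at h
    have h2 : Nat.Coprime n0 m.natAbs := by
      rw [Nat.coprime_comm]
      have h3 : Nat.gcd m.natAbs n0 = 1 := by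
        simpa [Int.gcd] using h1
      exact h3
    have h4 : Nat.Coprime n0 4 := by
      have : Nat.Coprime n0 (2 ^ 2) := Nat.Coprime.pow_right 2 (Nat.coprime_two_right.2 hodd)
      exact this
    exact Nat.Coprime.mul_right h4 h2
  have hval0 : jc m n0 = -1 := by
    rw [Jac_apply, if_pos hodd, hneg]
    norm_num
  have hmaps : Set.MapsTo (fun n => n0 * n % P) (Finset.range P : Set ℕ) (Finset.range P : Set ℕ) := by
    intro n _
    exact Finset.mem_coe.2 (Finset.mem_range.2 (Nat.mod_lt _ hP0))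
  have hinj : Set.InjOn (fun n => n0 * n % P) (Finset.range P : Set ℕ) := by
    intro a ha b hb hab
    rw [Finset.mem_coe, Finset.mem_range] at ha hb
    have h5 : n0 * a ≡ n0 * b [MOD P] := hab
    have h6 : a ≡ b [MOD P] := Nat.ModEq.cancel_left_of_coprime (by rw [Nat.gcd_comm]; exact hcop) h5
    have h7 : a % P = b % P := h6
    rwa [Nat.mod_eq_of_lt ha, Nat.mod_eq_of_lt hb] at h7
  have hperm : ∑ n ∈ Finset.range P, jc m n = ∑ n ∈ Finset.range P, jc m (n0 * n % P) := by
    symm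
    exact Finset.sum_nbij (fun n => n0 * n % P) hmaps hinj
      (Finset.surjOn_of_injOn_of_card_le _ hmaps hinj le_rfl) (fun n _ => rfl)
  have hneg2 : ∑ n ∈ Finset.range P, jc m (n0 * n % P) = - ∑ n ∈ Finset.range P, jc m n := by
    rw [← Finset.sum_neg_distrib]
    refine Finset.sum_congr rfl fun n _ => ?_
    rw [hP, ← Jac_per, Jac_mul, hval0]
    ring
  rw [hneg2] at hperm
  linarith

private theorem Jac_partial {m : ℤ} (hm : ¬ IsSquare m) (k r : ℕ) :
    ∑ n ∈ Finset.range (4 * m.natAbs * k + r), jc m n = ∑ n ∈ Finset.range r, jc m n := by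
  have hshift : ∀ (n x : ℕ), jc m (4 * m.natAbs * n + x) = jc m x := by
    intro n x
    rw [Jac_per (4 * m.natAbs * n + x), Jac_per x, Nat.mul_add_mod]
  induction k with
  | zero => simp
  | succ k ih =>
    have e1 : 4 * m.natAbs * (k + 1) + r = 4 * m.natAbs + (4 * m.natAbs * k + r) := by ring
    rw [e1, Finset.sum_range_add, Jac_zero_sum hm, zero_add, ← ih]
    refine Finset.sum_congr rfl fun x _ => ?_
    have := hshift 1 x
    rwa [mul_one] at this

theorem chr_jc {m : ℤ} (hm : ¬ IsSquare m) : Chr (jc m) (4 * |(m : ℝ)|) := by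
  have hm0 : m.natAbs ≠ 0 := by
    intro h
    rw [Int.natAbs_eq_zero] at h
    exact hm ⟨0, by rw [h]; ring⟩
  have habs : |(m : ℝ)| = (m.natAbs : ℝ) := by
    rw [Nat.cast_natAbs, Int.cast_abs]
  have h1 : (1 : ℝ) ≤ (m.natAbs : ℝ) := by exact_mod_cast Nat.one_le_iff_ne_zero.2 hm0
  refine ⟨by rw [habs]; linarith, ?_, Jac_mul m, Jac_val m, ?_⟩
  · rw [Jac_apply, if_pos odd_one, jacobiSym.one_right, Int.cast_one]
  · intro N
    have hP0 : 0 < 4 * m.natAbs := by omega
    have e1 : ∑ n ∈ Finset.Icc 1 N, jc m n = ∑ n ∈ Finset.range (N + 1), jc m n := by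
      rw [Finset.range_eq_Ico, Finset.sum_eq_sum_Ico_succ_bot (by omega : 0 < N + 1)]
      rw [ArithmeticFunction.map_zero, zero_add]
      rfl
    rw [e1, ← Nat.div_add_mod (N + 1) (4 * m.natAbs), Jac_partial hm]
    refine (Finset.abs_sum_le_sum_abs _ _).trans ?_
    have h2 : ∀ n ∈ Finset.range ((N + 1) % (4 * m.natAbs)), |jc m n| ≤ 1 := by
      intro n _
      rcases Jac_val m n with h | h | h <;> rw [h] <;> norm_num
    refine (Finset.sum_le_sum h2).trans ?_
    rw [Finset.sum_const, Finset.card_range, nsmul_eq_mul, mul_one, habs]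
    have h3 : (N + 1) % (4 * m.natAbs) ≤ 4 * m.natAbs := (Nat.mod_lt _ hP0).le
    exact_mod_cast h3

theorem jc_mul (m m' : ℤ) : pmul (jc m) (jc m') = jc (m * m') := by
  ext n
  rw [pmul_apply, Jac_apply, Jac_apply, Jac_apply]
  by_cases hn : Odd n
  · rw [if_pos hn, if_pos hn, if_pos hn, jacobiSym.mul_left]
    push_cast
    ring
  · rw [if_neg hn, if_neg hn, if_neg hn, zero_mul]

/-- `jc m n = 0` if `n` is not prime to `2 m` -/
theorem jc_eq_zero {m : ℤ} {n : ℕ} (h : ¬ n.Coprime (2 * m.natAbs)) : jc m n = 0 := by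
  rw [Jac_apply]
  by_cases hn : Odd n
  · rw [if_pos hn]
    have : NeZero n := ⟨hn.pos.ne'⟩
    have h1 : jacobiSym m n = 0 := by
      rw [jacobiSym.eq_zero_iff_not_coprime]
      intro h2
      apply h
      refine Nat.Coprime.mul_right (Nat.coprime_two_right.2 hn) ?_
      rw [Nat.coprime_comm]
      have h3 : Nat.gcd m.natAbs n = 1 := by
        simpa [Int.gcd] using h2
      exact h3
    rw [h1, Int.cast_zero]
  · rw [if_neg hn]

end Pool.Agent.LGO.SG
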