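import Mathlib
import Pool.Agent.LGO.SG.Defs
import Pool.Agent.LGO.SG.Jac

/-!
# LGO/SG: solutions of `b² ≡ Δ mod 4 n`

Let `Δ ≡ 0, 1 mod 4`, `n` odd and prime to `Δ`.  `rho Δ n` is the number of the solutions `b` modulo `n` of `b² ≡ Δ mod n` (Chinese
remainder theorem: `b` modulo `2` is determined by `Δ`, then `b² ≡ Δ mod 4`).  It is multiplicative; for a prime power `p ^ k`, `k ≥ 1`, with
`(Δ / p) = 1` there are at least two solutions (Hensel's lemma, `b` and `-b`).  `(cop (2 |Δ|) * jc Δ)(n) = ∑_{d | n} (Δ / d)` is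
multiplicative, and for `p ^ k`: `k + 1` if `(Δ / p) = 1`, and `1` or `0` (`k` even or odd) if `(Δ / p) = -1`.  The function
`g(n) = ∑_{k² | n} rho Δ (n / k²)` is multiplicative too (on the `n` prime to `2 Δ`), and at `p ^ k` it is
`≥ 2 ((k + 1) / 2) = k + 1` (`k` odd), `≥ 2 (k / 2) + 1` (`k` even) if `(Δ / p) = 1`, and `≥ 1` for `k` even.
(One may also prove the inequality by induction on `n`, splitting off the full power of a prime.)
-/

namespace Pool.Agent.LGO.SG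

open ArithmeticFunction

/-- an element of the set counted by `rho` from a solution modulo `n` with the right parity -/
private theorem Rho_four {Δ : ℤ} (h4 : Δ % 4 = 0 ∨ Δ % 4 = 1) {b : ℤ} (hb : (2 : ℤ) ∣ b - Δ) :
    (4 : ℤ) ∣ b ^ 2 - Δ := by
  obtain ⟨k, hk⟩ := hb
  have hb' : b = Δ + 2 * k := by linarith
  rcases h4 with h | h
  · obtain ⟨d, hd⟩ : (4 : ℤ) ∣ Δ := Int.dvd_of_emod_eq_zero h
    rw [hb', hd]
    exact ⟨(4 * d + 2 * k) ^ 2 / 4 - d, by
      have : (4 * d + 2 * k) ^ 2 = 4 * (2 * d + k) ^ 2 := by ring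
      rw [this, Int.mul_ediv_cancel_left _ (by norm_num)]; ring⟩
  · have hd : Δ = 4 * (Δ / 4) + 1 := by omega
    rw [hb']
    generalize Δ / 4 = d at hd
    rw [hd]
    refine ⟨4 * d ^ 2 + 2 * d + k ^ 2 + (4 * d + 1) * k - d, ?_⟩
    ring

private theorem Rho_one {Δ : ℤ} (h4 : Δ % 4 = 0 ∨ Δ % 4 = 1) : 1 ≤ rho Δ 1 := by
  rw [rho, Nat.one_le_iff_ne_zero, ← Nat.pos_iff_ne_zero, Finset.card_pos]
  refine ⟨(Δ % 2).toNat, ?_⟩
  have h2 : 0 ≤ Δ % 2 := Int.emod_nonneg _ (by norm_num)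
  have h3 : Δ % 2 < 2 := Int.emod_lt_of_pos _ (by norm_num)
  rw [Finset.mem_filter, Finset.mem_range]
  refine ⟨by omega, ?_⟩
  have h5 : (((Δ % 2).toNat : ℕ) : ℤ) = Δ % 2 := Int.toNat_of_nonneg h2
  rw [h5]
  simp only [Nat.cast_one, mul_one]
  exact Rho_four h4 (by omega)

/-- solutions modulo powers of a prime -/
private theorem Rho_hensel {Δ : ℤ} {p : ℕ} (hp : p.Prime) (hp2 : p ≠ 2) (hpΔ : ¬ (p : ℤ) ∣ Δ)
    (h1 : ∃ b : ℤ, (p : ℤ) ∣ b ^ 2 - Δ) (k : ℕ) :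
    ∃ b : ℤ, (p : ℤ) ^ (k + 1) ∣ b ^ 2 - Δ := by
  induction k with
  | zero => simpa using h1
  | succ k ih =>
    obtain ⟨b, m, hm⟩ := ih
    have hpz : Prime (p : ℤ) := Nat.prime_iff_prime_int.1 hp
    have hpb : ¬ (p : ℤ) ∣ b := by
      intro h
      apply hpΔ
      have h2 : (p : ℤ) ∣ b ^ 2 - Δ := by
        rw [hm, pow_succ]
        exact Dvd.dvd.mul_right (Dvd.intro_left _ rfl) _
      have h3 : (p : ℤ) ∣ b ^ 2 := dvd_pow h (by norm_num)
      have h4 := dvd_sub h3 h2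
      rwa [sub_sub_cancel] at h4
    have h2b : IsCoprime (p : ℤ) (2 * b) := by
      refine IsCoprime.mul_right ?_ ?_
      · have : Nat.Coprime p 2 := (Nat.coprime_primes hp Nat.prime_two).2 hp2
        exact_mod_cast this.isCoprime
      · exact (Prime.coprime_iff_not_dvd hpz).2 hpb
    obtain ⟨u, v, huv⟩ := h2b
    refine ⟨b - (p : ℤ) ^ (k + 1) * (m * v), ?_⟩
    have e1 : (b - (p : ℤ) ^ (k + 1) * (m * v)) ^ 2 - Δ =
        (p : ℤ) ^ (k + 1) * (m * (1 - v * (2 * b))) + ((p : ℤ) ^ (k + 1)) ^ 2 * (m * v) ^ 2 := by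
      have : b ^ 2 = Δ + (p : ℤ) ^ (k + 1) * m := by linarith
      ring_nf
      ring_nf at this
      rw [this]
      ring
    rw [e1]
    have e2 : 1 - v * (2 * b) = u * p := by linarith
    rw [e2]
    refine dvd_add ?_ ?_
    · rw [pow_succ (p : ℤ) (k + 1)]
      exact mul_dvd_mul_left _ ⟨m * u, by ring⟩
    · rw [← pow_mul]
      exact Dvd.dvd.mul_right (pow_dvd_pow _ (by omega)) _

private theorem Rho_pow {Δ : ℤ} (h4 : Δ % 4 = 0 ∨ Δ % 4 = 1) {p : ℕ} (hp : p.Prime) (hp2 : p ≠ 2)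
    (hpΔ : ¬ (p : ℤ) ∣ Δ) (h1 : ∃ b : ℤ, (p : ℤ) ∣ b ^ 2 - Δ) (k : ℕ) :
    2 ≤ rho Δ (p ^ (k + 1)) := by
  obtain ⟨b, hb⟩ := Rho_hensel hp hp2 hpΔ h1 k
  set q : ℕ := p ^ (k + 1) with hq
  have hqc : ((q : ℕ) : ℤ) = (p : ℤ) ^ (k + 1) := by rw [hq]; push_cast; ring
  have hq0 : 0 < q := pow_pos hp.pos _
  have hqodd : Odd q := (hp.odd_of_ne_two hp2).pow
  rw [← hqc] at hb
  -- the parity
  obtain ⟨c, hc, hc2⟩ : ∃ c : ℤ, (q : ℤ) ∣ c ^ 2 - Δ ∧ (2 : ℤ) ∣ c - Δ := by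
    by_cases h : (2 : ℤ) ∣ b - Δ
    · exact ⟨b, hb, h⟩
    · refine ⟨b + q, ?_, ?_⟩
      · have : (b + (q : ℤ)) ^ 2 - Δ = (b ^ 2 - Δ) + q * (2 * b + q) := by ring
        rw [this]
        exact dvd_add hb (dvd_mul_right _ _)
      · obtain ⟨r, hr⟩ := hqodd
        have : (q : ℤ) = 2 * r + 1 := by exact_mod_cast hr
        omega
  have hpc : ¬ (q : ℤ) ∣ c := by
    intro h
    apply hpΔ
    have h2 : (p : ℤ) ∣ (q : ℤ) := by rw [hqc, pow_succ]; exact dvd_mul_left _ _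
    have h3 : (p : ℤ) ∣ c ^ 2 := dvd_pow (h2.trans h) (by norm_num)
    have h5 := dvd_sub h3 (h2.trans hc)
    rwa [sub_sub_cancel] at h5
  have hq4 : IsCoprime (4 : ℤ) (q : ℤ) := by
    have : Nat.Coprime 4 q := by
      have : Nat.Coprime (2 ^ 2) q := Nat.Coprime.pow_left 2 (Nat.coprime_two_left.2 hqodd)
      exact this
    exact_mod_cast this.isCoprime
  have hmem : ∀ e : ℤ, (q : ℤ) ∣ e ^ 2 - Δ → (2 : ℤ) ∣ e - Δ →
      (e % ((2 * q : ℕ) : ℤ)).toNat ∈ (Finset.range (2 * q)).filter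
        fun b : ℕ => (4 * (q : ℤ)) ∣ ((b : ℤ) ^ 2 - Δ) := by
    intro e he he2
    have h2q : (0 : ℤ) < ((2 * q : ℕ) : ℤ) := by exact_mod_cast (by omega : 0 < 2 * q)
    have h5 := Int.emod_nonneg e h2q.ne'
    have h6 := Int.emod_lt_of_pos e h2q
    rw [Finset.mem_filter, Finset.mem_range]
    refine ⟨by omega, ?_⟩
    rw [Int.toNat_of_nonneg h5]
    have h7 : e = e % ((2 * q : ℕ) : ℤ) + ((2 * q : ℕ) : ℤ) * (e / ((2 * q : ℕ) : ℤ)) :=
      (Int.emod_add_mul_ediv e _).symm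
    set f := e % ((2 * q : ℕ) : ℤ)
    set g := e / ((2 * q : ℕ) : ℤ)
    have hf : f = e - 2 * q * g := by rw [h7]; push_cast; ring
    refine IsCoprime.mul_dvd hq4 ?_ ?_
    · refine Rho_four h4 ?_
      rw [hf]
      obtain ⟨r, hr⟩ := he2
      exact ⟨r - q * g, by linarith⟩
    · rw [hf]
      have : (e - 2 * (q : ℤ) * g) ^ 2 - Δ = (e ^ 2 - Δ) + q * (4 * q * g ^ 2 - 4 * e * g) := by ring
      rw [this]
      exact dvd_add he (dvd_mul_right _ _)
  rw [rho]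
  have h8 := hmem c hc hc2
  have h9 := hmem (-c) (by rw [neg_sq]; exact hc) (by obtain ⟨r, hr⟩ := hc2; exact ⟨-r - Δ, by linarith⟩)
  refine Finset.one_lt_card.2 ⟨_, h8, _, h9, ?_⟩
  intro heq
  have h2q : (0 : ℤ) < ((2 * q : ℕ) : ℤ) := by exact_mod_cast (by omega : 0 < 2 * q)
  have h10 : c % ((2 * q : ℕ) : ℤ) = (-c) % ((2 * q : ℕ) : ℤ) := by
    have h11 := Int.emod_nonneg c h2q.ne'
    have h12 := Int.emod_nonneg (-c) h2q.ne'
    omega
  have h13 := Int.emod_emod_of_dvd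
  have h14 : ((2 * q : ℕ) : ℤ) ∣ c - (-c) := Int.ModEq.dvd (Int.ModEq.symm h10)
  apply hpc
  obtain ⟨r, hr⟩ := h14
  refine ⟨r, ?_⟩
  push_cast at hr
  linarith

/-- supermultiplicativity -/
private theorem Rho_mul_le {Δ : ℤ} {m n : ℕ} (hm : Odd m) (hn : Odd n) (h : m.Coprime n) :
    rho Δ m * rho Δ n ≤ rho Δ (m * n) := by
  classical
  have hm0 : 0 < m := hm.pos
  have hn0 : 0 < n := hn.pos
  have hco : Nat.Coprime (2 * m) n := Nat.Coprime.mul_left (Nat.coprime_two_left.2 hn) h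
  let f : ℕ × ℕ → ℕ := fun x => (Nat.chineseRemainder hco x.1 x.2 : ℕ)
  have hf1 : ∀ x, f x ≡ x.1 [MOD 2 * m] := fun x => (Nat.chineseRemainder hco x.1 x.2).2.1
  have hf2 : ∀ x, f x ≡ x.2 [MOD n] := fun x => (Nat.chineseRemainder hco x.1 x.2).2.2
  have hf3 : ∀ x, f x < 2 * m * n := fun x =>
    Nat.chineseRemainder_lt_mul hco x.1 x.2 (by omega) hn0.ne'
  rw [rho, rho, rho, ← Finset.card_product]
  refine Finset.card_le_card_of_injOn f ?_ ?_
  · rintro x hx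
    rw [Finset.mem_coe, Finset.mem_product, Finset.mem_filter, Finset.mem_filter] at hx
    obtain ⟨⟨-, hx1⟩, -, hx2⟩ := hx
    rw [Finset.mem_coe, Finset.mem_filter, Finset.mem_range]
    refine ⟨by rw [← mul_assoc]; exact hf3 x, ?_⟩
    obtain ⟨j, hj⟩ := (Nat.modEq_iff_dvd.1 (hf1 x).symm)
    obtain ⟨k, hk⟩ := (Nat.modEq_iff_dvd.1 (hf2 x).symm)
    have h4n : IsCoprime (4 * (m : ℤ)) (n : ℤ) := by
      have h1 : Nat.Coprime (2 ^ 2) n := Nat.Coprime.pow_left 2 (Nat.coprime_two_left.2 hn)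
      have h2 : Nat.Coprime (4 * m) n := Nat.Coprime.mul_left h1 h
      exact_mod_cast h2.isCoprime
    have e0 : 4 * (((m * n : ℕ)) : ℤ) = 4 * (m : ℤ) * (n : ℤ) := by push_cast; ring
    rw [e0]
    refine IsCoprime.mul_dvd h4n ?_ ?_
    · push_cast at hj
      have e1 : ((f x : ℕ) : ℤ) = x.1 + 2 * m * j := by linarith
      rw [e1]
      have e2 : ((x.1 : ℤ) + 2 * m * j) ^ 2 - Δ = ((x.1 : ℤ) ^ 2 - Δ) + 4 * m * (x.1 * j + m * j ^ 2) := by
        ring
      rw [e2]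
      exact dvd_add hx1 (dvd_mul_right _ _)
    · have e1 : ((f x : ℕ) : ℤ) = x.2 + n * k := by linarith
      rw [e1]
      have e2 : ((x.2 : ℤ) + n * k) ^ 2 - Δ = ((x.2 : ℤ) ^ 2 - Δ) + n * (2 * x.2 * k + n * k ^ 2) := by
        ring
      rw [e2]
      exact dvd_add ((dvd_mul_left _ _).trans hx2) (dvd_mul_right _ _)
  · rintro ⟨a, b⟩ hx ⟨a', b'⟩ hx' heq
    rw [Finset.mem_coe, Finset.mem_product, Finset.mem_filter, Finset.mem_filter, Finset.mem_range,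
      Finset.mem_range] at hx hx'
    obtain ⟨⟨ha, -⟩, hb, hb4⟩ := hx
    obtain ⟨⟨ha', -⟩, hb', hb4'⟩ := hx'
    simp only at ha hb hb4 ha' hb' hb4'
    have h1 : a ≡ a' [MOD 2 * m] := by
      have h2 := hf1 (a, b)
      have h3 := hf1 (a', b')
      rw [← heq] at h3
      exact h2.symm.trans h3
    have h1' : b ≡ b' [MOD n] := by
      have h2 := hf2 (a, b)
      have h3 := hf2 (a', b')
      rw [← heq] at h3
      exact h2.symm.trans h3
    have ea : a = a' := by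
      have h2 : a % (2 * m) = a' % (2 * m) := h1
      rwa [Nat.mod_eq_of_lt ha, Nat.mod_eq_of_lt ha'] at h2
    have h2b : b ≡ b' [MOD 2] := by
      obtain ⟨u, hu⟩ := hb4
      obtain ⟨v, hv⟩ := hb4'
      have h3 : (b : ℤ) ^ 2 - (b' : ℤ) ^ 2 = 4 * (n * (u - v)) := by
        have : (b : ℤ) ^ 2 - (b' : ℤ) ^ 2 = ((b : ℤ) ^ 2 - Δ) - ((b' : ℤ) ^ 2 - Δ) := by ring
        rw [this, hu, hv]
        ring
      have h4 : b % 2 = b' % 2 := by
        rcases Nat.even_or_odd b with hb1 | hb1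
        · rcases Nat.even_or_odd b' with hb2 | hb2
          · rw [Nat.even_iff.1 hb1, Nat.even_iff.1 hb2]
          · exfalso
            obtain ⟨r, hr⟩ := hb1
            obtain ⟨s, hs⟩ := hb2
            rw [hr, hs] at h3
            push_cast at h3
            have : (4 : ℤ) * (n * (u - v)) = 4 * (r ^ 2 - s ^ 2 - s) - 1 := by rw [← h3]; ring
            omega
        · rcases Nat.even_or_odd b' with hb2 | hb2
          · exfalso
            obtain ⟨r, hr⟩ := hb1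
            obtain ⟨s, hs⟩ := hb2
            rw [hr, hs] at h3
            push_cast at h3
            have : (4 : ℤ) * (n * (u - v)) = 4 * (r ^ 2 + r - s ^ 2) + 1 := by rw [← h3]; ring
            omega
          · rw [Nat.odd_iff.1 hb1, Nat.odd_iff.1 hb2]
      exact h4
    have hbb : b ≡ b' [MOD 2 * n] :=
      (Nat.modEq_and_modEq_iff_modEq_mul (Nat.coprime_two_left.2 hn)).1 ⟨h2b, h1'⟩
    have eb : b = b' := by
      have h2 : b % (2 * n) = b' % (2 * n) := hbb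
      rwa [Nat.mod_eq_of_lt hb, Nat.mod_eq_of_lt hb'] at h2
    rw [ea, eb]

private theorem Rho_cop_apply (M n : ℕ) : cop M n = if n ≠ 0 ∧ n.Coprime M then 1 else 0 := rfl

private theorem Rho_cop_mult (M : ℕ) : (cop M).IsMultiplicative := by
  refine ⟨?_, ?_⟩
  · rw [Rho_cop_apply, if_pos ⟨one_ne_zero, Nat.coprime_one_left M⟩]
  · intro m n _
    rw [Rho_cop_apply, Rho_cop_apply, Rho_cop_apply]
    by_cases h1 : m ≠ 0 ∧ m.Coprime M
    · by_cases h2 : n ≠ 0 ∧ n.Coprime M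
      · rw [if_pos h1, if_pos h2, if_pos ⟨mul_ne_zero h1.1 h2.1, Nat.Coprime.mul_left h1.2 h2.2⟩, mul_one]
      · rw [if_pos h1, if_neg h2, if_neg, mul_zero]
        rintro ⟨h3, h4⟩
        exact h2 ⟨right_ne_zero_of_mul h3, Nat.Coprime.coprime_mul_left h4⟩
    · rw [if_neg h1, if_neg, zero_mul]
      rintro ⟨h3, h4⟩
      exact h1 ⟨left_ne_zero_of_mul h3, Nat.Coprime.coprime_mul_right h4⟩

private theorem Rho_nsq {Δ : ℤ} (hΔ : Δ < 0) : ¬ IsSquare Δ := by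
  rintro ⟨r, hr⟩
  nlinarith [mul_self_nonneg r]

private theorem Rho_jc_mult {Δ : ℤ} (hΔ : Δ < 0) : (jc Δ).IsMultiplicative :=
  ⟨(chr_jc (Rho_nsq hΔ)).map_one, fun {m n} _ => (chr_jc (Rho_nsq hΔ)).map_mul m n⟩

private theorem Rho_jc_pow {Δ : ℤ} (hΔ : Δ < 0) (p k : ℕ) : jc Δ (p ^ k) = jc Δ p ^ k := by
  induction k with
  | zero => rw [pow_zero, pow_zero]; exact (chr_jc (Rho_nsq hΔ)).map_one
  | succ k ih => rw [pow_succ, (chr_jc (Rho_nsq hΔ)).map_mul, ih, pow_succ]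

private theorem Rho_f_pow {Δ : ℤ} (hΔ : Δ < 0) {p : ℕ} (hp : p.Prime) (hc : p.Coprime (2 * Δ.natAbs))
    (k : ℕ) : (cop (2 * Δ.natAbs) * jc Δ) (p ^ k) = ∑ i ∈ Finset.range (k + 1), jc Δ p ^ i := by
  rw [ArithmeticFunction.mul_apply, Nat.sum_divisorsAntidiagonal' (f := fun a b => cop (2 * Δ.natAbs) a * jc Δ b),
    Nat.sum_divisors_prime_pow hp]
  refine Finset.sum_congr rfl fun i hi => ?_
  rw [Finset.mem_range] at hi
  have h1 : p ^ k / p ^ i = p ^ (k - i) := Nat.pow_div (by omega) hp.pos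
  rw [h1, Rho_cop_apply, if_pos ⟨(pow_pos hp.pos _).ne', Nat.Coprime.pow_left _ hc⟩, one_mul,
    Rho_jc_pow hΔ]

private theorem Rho_sol {Δ : ℤ} {p : ℕ} (hp : p.Prime) (hp2 : p ≠ 2) (h : jc Δ p = 1) :
    ∃ b : ℤ, (p : ℤ) ∣ b ^ 2 - Δ := by
  have hodd : Odd p := hp.odd_of_ne_two hp2
  have hfact : Fact p.Prime := ⟨hp⟩
  have h1 : jc Δ p = if Odd p then (jacobiSym Δ p : ℝ) else 0 := rfl
  rw [h1, if_pos hodd] at h
  have h2 : jacobiSym Δ p = 1 := by exact_mod_cast h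
  rw [← jacobiSym.legendreSym.to_jacobiSym] at h2
  have h0 : ((Δ : ℤ) : ZMod p) ≠ 0 := by
    intro h3
    rw [(legendreSym.eq_zero_iff p Δ).2 h3] at h2
    exact zero_ne_one h2
  rw [legendreSym.eq_one_iff p h0] at h2
  obtain ⟨r, hr⟩ := h2
  refine ⟨(r.val : ℤ), ?_⟩
  rw [← ZMod.intCast_zmod_eq_zero_iff_dvd]
  push_cast
  rw [ZMod.natCast_zmod_val, hr]
  ring

/-- the right hand side -/
private noncomputable def Rho_g (Δ : ℤ) (n : ℕ) : ℝ :=
  ∑ k ∈ (Finset.Icc 1 n).filter (fun k => k ^ 2 ∣ n), (rho Δ (n / k ^ 2) : ℝ)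

private theorem Rho_g_nonneg (Δ : ℤ) (n : ℕ) : 0 ≤ Rho_g Δ n :=
  Finset.sum_nonneg fun _ _ => Nat.cast_nonneg _

private theorem Rho_g_pow (Δ : ℤ) {p : ℕ} (hp : p.Prime) (k : ℕ) :
    ∑ j ∈ Finset.range (k / 2 + 1), (rho Δ (p ^ (k - 2 * j)) : ℝ) ≤ Rho_g Δ (p ^ k) := by
  classical
  have hinj : Set.InjOn (fun j : ℕ => p ^ j) (Finset.range (k / 2 + 1) : Set ℕ) :=
    fun a _ b _ hab => Nat.pow_right_injective hp.two_le hab
  have h1 : ∑ j ∈ Finset.range (k / 2 + 1), (rho Δ (p ^ (k - 2 * j)) : ℝ) =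
      ∑ c ∈ (Finset.range (k / 2 + 1)).image (fun j => p ^ j), (rho Δ (p ^ k / c ^ 2) : ℝ) := by
    rw [Finset.sum_image hinj]
    refine Finset.sum_congr rfl fun j hj => ?_
    rw [Finset.mem_range] at hj
    have h2 : p ^ k / (p ^ j) ^ 2 = p ^ (k - 2 * j) := by
      rw [← pow_mul, mul_comm j 2]
      exact Nat.pow_div (by omega) hp.pos
    rw [h2]
  rw [h1]
  refine Finset.sum_le_sum_of_subset_of_nonneg ?_ fun _ _ _ => Nat.cast_nonneg _
  intro c hc
  rw [Finset.mem_image] at hc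
  obtain ⟨j, hj, rfl⟩ := hc
  rw [Finset.mem_range] at hj
  rw [Finset.mem_filter, Finset.mem_Icc]
  refine ⟨⟨pow_pos hp.pos _, Nat.pow_le_pow_right hp.pos (by omega)⟩, ?_⟩
  rw [← pow_mul]
  exact pow_dvd_pow _ (by omega)

private theorem Rho_g_mul {Δ : ℤ} {m n : ℕ} (hm : Odd m) (hn : Odd n) (h : m.Coprime n) :
    Rho_g Δ m * Rho_g Δ n ≤ Rho_g Δ (m * n) := by
  classical
  have hm0 : 0 < m := hm.pos
  have hn0 : 0 < n := hn.pos
  have hinj : Set.InjOn (fun x : ℕ × ℕ => x.1 * x.2)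
      (((Finset.Icc 1 m).filter (fun k => k ^ 2 ∣ m) ×ˢ (Finset.Icc 1 n).filter (fun k => k ^ 2 ∣ n) :
        Finset (ℕ × ℕ)) : Set (ℕ × ℕ)) := by
    rintro ⟨a, b⟩ hab ⟨a', b'⟩ hab' heq
    rw [Finset.mem_coe, Finset.mem_product, Finset.mem_filter, Finset.mem_filter] at hab hab'
    obtain ⟨⟨ha1, ha2⟩, hb1, hb2⟩ := hab
    obtain ⟨⟨ha1', ha2'⟩, hb1', hb2'⟩ := hab'
    simp only at ha1 ha2 hb1 hb2 ha1' ha2' hb1' hb2' heq
    have d1 : a ∣ m := (Dvd.intro_left _ (by ring : a * a = a ^ 2)).trans ha2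
    have d2 : b ∣ n := (Dvd.intro_left _ (by ring : b * b = b ^ 2)).trans hb2
    have d1' : a' ∣ m := (Dvd.intro_left _ (by ring : a' * a' = a' ^ 2)).trans ha2'
    have d2' : b' ∣ n := (Dvd.intro_left _ (by ring : b' * b' = b' ^ 2)).trans hb2'
    have c1 : a ∣ a' := by
      have : Nat.Coprime a b' := Nat.Coprime.of_dvd d1 d2' h
      exact this.dvd_of_dvd_mul_right (heq ▸ dvd_mul_right a b)
    have c2 : a' ∣ a := by
      have : Nat.Coprime a' b := Nat.Coprime.of_dvd d1' d2 h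
      exact this.dvd_of_dvd_mul_right (heq ▸ dvd_mul_right a' b')
    have c3 : a = a' := Nat.dvd_antisymm c1 c2
    subst c3
    have ha0 : 0 < a := by rw [Finset.mem_Icc] at ha1; omega
    have c4 : b = b' := Nat.eq_of_mul_eq_mul_left ha0 heq
    rw [c4]
  rw [Rho_g, Rho_g, Finset.sum_mul_sum, ← Finset.sum_product']
  calc ∑ x ∈ (Finset.Icc 1 m).filter (fun k => k ^ 2 ∣ m) ×ˢ (Finset.Icc 1 n).filter (fun k => k ^ 2 ∣ n),
        (rho Δ (m / x.1 ^ 2) : ℝ) * (rho Δ (n / x.2 ^ 2) : ℝ)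
      ≤ ∑ x ∈ (Finset.Icc 1 m).filter (fun k => k ^ 2 ∣ m) ×ˢ (Finset.Icc 1 n).filter (fun k => k ^ 2 ∣ n),
        (rho Δ (m * n / (x.1 * x.2) ^ 2) : ℝ) := by
        refine Finset.sum_le_sum fun x hx => ?_
        rw [Finset.mem_product, Finset.mem_filter, Finset.mem_filter] at hx
        obtain ⟨⟨ha1, ha2⟩, hb1, hb2⟩ := hx
        obtain ⟨u, hu⟩ := ha2
        obtain ⟨v, hv⟩ := hb2
        have ha0 : 0 < x.1 ^ 2 := by
          rw [Finset.mem_Icc] at ha1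
          exact pow_pos (by omega) _
        have hb0 : 0 < x.2 ^ 2 := by
          rw [Finset.mem_Icc] at hb1
          exact pow_pos (by omega) _
        have e1 : m / x.1 ^ 2 = u := by rw [hu]; exact Nat.mul_div_cancel_left _ ha0
        have e2 : n / x.2 ^ 2 = v := by rw [hv]; exact Nat.mul_div_cancel_left _ hb0
        have e3 : m * n / (x.1 * x.2) ^ 2 = u * v := by
          have : m * n = (x.1 * x.2) ^ 2 * (u * v) := by rw [hu, hv]; ring
          rw [this]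
          refine Nat.mul_div_cancel_left _ ?_
          rw [mul_pow]
          exact Nat.mul_pos ha0 hb0
        rw [e1, e2, e3]
        have hu' : Odd u := by
          rw [hu] at hm
          exact (Nat.odd_mul.1 hm).2
        have hv' : Odd v := by
          rw [hv] at hn
          exact (Nat.odd_mul.1 hn).2
        have hcop : u.Coprime v := by
          refine Nat.Coprime.of_dvd ?_ ?_ h
          · rw [hu]; exact dvd_mul_left _ _
          · rw [hv]; exact dvd_mul_left _ _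
        exact_mod_cast Rho_mul_le hu' hv' hcop
    _ = ∑ c ∈ ((Finset.Icc 1 m).filter (fun k => k ^ 2 ∣ m) ×ˢ (Finset.Icc 1 n).filter
          (fun k => k ^ 2 ∣ n)).image (fun x : ℕ × ℕ => x.1 * x.2), (rho Δ (m * n / c ^ 2) : ℝ) := by
        rw [Finset.sum_image hinj]
    _ ≤ _ := by
        refine Finset.sum_le_sum_of_subset_of_nonneg ?_ fun _ _ _ => Nat.cast_nonneg _
        intro c hc
        rw [Finset.mem_image] at hc
        obtain ⟨x, hx, rfl⟩ := hc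
        rw [Finset.mem_product, Finset.mem_filter, Finset.mem_filter, Finset.mem_Icc, Finset.mem_Icc] at hx
        obtain ⟨⟨⟨ha1, ha2⟩, ha3⟩, ⟨hb1, hb2⟩, hb3⟩ := hx
        rw [Finset.mem_filter, Finset.mem_Icc]
        refine ⟨⟨Nat.mul_pos ha1 hb1, Nat.mul_le_mul ha2 hb2⟩, ?_⟩
        rw [mul_pow]
        exact mul_dvd_mul ha3 hb3

private theorem Rho_odd {Δ : ℤ} {n : ℕ} (hc : n.Coprime (2 * Δ.natAbs)) : Odd n :=
  Nat.coprime_two_right.1 (Nat.Coprime.coprime_mul_right_right hc)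

private theorem Rho_primepow {Δ : ℤ} (hΔ : Δ < 0) (h4 : Δ % 4 = 0 ∨ Δ % 4 = 1) {p : ℕ} (hp : p.Prime)
    (k : ℕ) (hc : p.Coprime (2 * Δ.natAbs)) :
    0 ≤ (cop (2 * Δ.natAbs) * jc Δ) (p ^ k) ∧ (cop (2 * Δ.natAbs) * jc Δ) (p ^ k) ≤ Rho_g Δ (p ^ k) := by
  have hp2 : p ≠ 2 := by
    rintro rfl
    exact absurd (Rho_odd hc) (by decide)
  have hpΔ : ¬ (p : ℤ) ∣ Δ := by
    intro h
    have h1 : p ∣ Δ.natAbs := Int.natCast_dvd.1 h
    have h2 : p ∣ 2 * Δ.natAbs := h1.mul_left 2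
    have h3 := Nat.Coprime.eq_one_of_dvd hc h2
    exact hp.one_lt.ne' h3
  rw [Rho_f_pow hΔ hp hc]
  have hg := Rho_g_pow Δ hp k
  have hr1 : (1 : ℝ) ≤ rho Δ 1 := by exact_mod_cast Rho_one h4
  rcases (chr_jc (Rho_nsq hΔ)).val p with h | h | h
  · exfalso
    have hodd : Odd p := hp.odd_of_ne_two hp2
    have h1 : jc Δ p = if Odd p then (jacobiSym Δ p : ℝ) else 0 := rfl
    rw [h1, if_pos hodd] at h
    have h2 : jacobiSym Δ p = 0 := by exact_mod_cast h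
    have : NeZero p := ⟨hp.pos.ne'⟩
    rw [jacobiSym.eq_zero_iff_not_coprime] at h2
    apply h2
    rw [Int.gcd_comm]
    have h3 : Nat.Coprime p Δ.natAbs := Nat.Coprime.coprime_mul_left_right hc
    simpa [Int.gcd] using h3
  · rw [h]
    simp only [one_pow, Finset.sum_const, Finset.card_range, nsmul_eq_mul, mul_one]
    refine ⟨Nat.cast_nonneg _, le_trans ?_ hg⟩
    have hsol := Rho_sol hp hp2 h
    have h2 : ∀ j, 0 < j → (2 : ℝ) ≤ rho Δ (p ^ j) := by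
      intro j hj
      obtain ⟨i, rfl⟩ := Nat.exists_eq_succ_of_ne_zero hj.ne'
      exact_mod_cast Rho_pow h4 hp hp2 hpΔ hsol i
    rcases Nat.even_or_odd' k with ⟨m, rfl | rfl⟩
    · rw [show 2 * m / 2 + 1 = m + 1 by omega, Finset.sum_range_succ]
      have h3 : (m : ℝ) * 2 ≤ ∑ j ∈ Finset.range m, (rho Δ (p ^ (2 * m - 2 * j)) : ℝ) := by
        have := Finset.card_nsmul_le_sum (Finset.range m)
          (fun j => (rho Δ (p ^ (2 * m - 2 * j)) : ℝ)) 2 (fun j hj => by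
            rw [Finset.mem_range] at hj
            exact h2 _ (by omega))
        simpa using this
      have h5 : (rho Δ (p ^ (2 * m - 2 * m)) : ℝ) = rho Δ 1 := by rw [Nat.sub_self, pow_zero]
      rw [h5]
      push_cast
      linarith
    · rw [show (2 * m + 1) / 2 + 1 = m + 1 by omega]
      have h3 : ((m + 1 : ℕ) : ℝ) * 2 ≤
          ∑ j ∈ Finset.range (m + 1), (rho Δ (p ^ (2 * m + 1 - 2 * j)) : ℝ) := by
        have := Finset.card_nsmul_le_sum (Finset.range (m + 1))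
          (fun j => (rho Δ (p ^ (2 * m + 1 - 2 * j)) : ℝ)) 2 (fun j hj => by
            rw [Finset.mem_range] at hj
            exact h2 _ (by omega))
        simpa using this
      push_cast at h3 ⊢
      linarith
  · rw [h]
    have h3 : ∀ k : ℕ, ∑ i ∈ Finset.range (k + 1), (-1 : ℝ) ^ i = if Even k then 1 else 0 := by
      intro k
      induction k with
      | zero => simp
      | succ k ih =>
        rw [Finset.sum_range_succ, ih]
        by_cases hk : Even k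
        · have hk1 : ¬ Even (k + 1) := by rw [Nat.even_add_one]; exact not_not.2 hk
          have hk2 : Odd (k + 1) := Nat.not_even_iff_odd.1 hk1
          rw [if_pos hk, if_neg hk1, hk2.neg_one_pow]
          norm_num
        · have hk1 : Even (k + 1) := Nat.even_add_one.2 hk
          rw [if_neg hk, if_pos hk1, hk1.neg_one_pow]
          norm_num
    rw [h3]
    by_cases hk : Even k
    · rw [if_pos hk]
      refine ⟨zero_le_one, le_trans ?_ hg⟩
      obtain ⟨m, rfl⟩ := hk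
      rw [Finset.sum_range_succ]
      have h5 : (rho Δ (p ^ (m + m - 2 * ((m + m) / 2))) : ℝ) = rho Δ 1 := by
        rw [show m + m - 2 * ((m + m) / 2) = 0 by omega, pow_zero]
      rw [h5]
      have h6 : (0 : ℝ) ≤ ∑ j ∈ Finset.range ((m + m) / 2), (rho Δ (p ^ (m + m - 2 * j)) : ℝ) :=
        Finset.sum_nonneg fun _ _ => Nat.cast_nonneg _
      linarith
    · rw [if_neg hk]
      exact ⟨le_rfl, Rho_g_nonneg _ _⟩

theorem rho_sum {Δ : ℤ} (hΔ : Δ < 0) (h4 : Δ % 4 = 0 ∨ Δ % 4 = 1) {n : ℕ} (hn : 0 < n)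
    (hc : n.Coprime (2 * Δ.natAbs)) :
    (cop (2 * Δ.natAbs) * jc Δ) n ≤
      ∑ k ∈ (Finset.Icc 1 n).filter (fun k => k ^ 2 ∣ n), (rho Δ (n / k ^ 2) : ℝ) := by
  have key : ∀ n : ℕ, 0 < n → n.Coprime (2 * Δ.natAbs) →
      0 ≤ (cop (2 * Δ.natAbs) * jc Δ) n ∧ (cop (2 * Δ.natAbs) * jc Δ) n ≤ Rho_g Δ n := by
    intro n
    induction n using Nat.recOnPosPrimePosCoprime with
    | prime_pow p k hp hk =>
      intro _ hc
      exact Rho_primepow hΔ h4 hp k (Nat.Coprime.coprime_dvd_left (dvd_pow_self p hk.ne') hc)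
    | zero => intro h; exact absurd h (lt_irrefl 0)
    | one =>
      intro _ _
      have h1 := Rho_primepow hΔ h4 Nat.prime_two 0
      have h2 : (cop (2 * Δ.natAbs) * jc Δ) 1 = 1 :=
        ((Rho_cop_mult _).mul (Rho_jc_mult hΔ)).map_one
      rw [h2]
      refine ⟨zero_le_one, ?_⟩
      have h3 := Rho_g_pow Δ Nat.prime_two 0
      simp only [pow_zero, Nat.zero_div, zero_add, Finset.sum_range_one, Nat.zero_sub] at h3
      exact le_trans (by exact_mod_cast Rho_one h4) h3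
    | coprime a b ha hb hab iha ihb =>
      intro _ hc
      have hca : a.Coprime (2 * Δ.natAbs) := Nat.Coprime.coprime_mul_right hc
      have hcb : b.Coprime (2 * Δ.natAbs) := Nat.Coprime.coprime_mul_left hc
      obtain ⟨a1, a2⟩ := iha (by omega) hca
      obtain ⟨b1, b2⟩ := ihb (by omega) hcb
      have hmul : (cop (2 * Δ.natAbs) * jc Δ) (a * b) =
          (cop (2 * Δ.natAbs) * jc Δ) a * (cop (2 * Δ.natAbs) * jc Δ) b :=
        ((Rho_cop_mult _).mul (Rho_jc_mult hΔ)).map_mul_of_coprime hab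
      rw [hmul]
      refine ⟨mul_nonneg a1 b1, ?_⟩
      exact (mul_le_mul a2 b2 b1 (Rho_g_nonneg _ _)).trans (Rho_g_mul (Rho_odd hca) (Rho_odd hcb) hab)
  exact (key n hn hc).2

theorem copv_eq_zero {Δ : ℤ} {n : ℕ} (hc : ¬ n.Coprime (2 * Δ.natAbs)) :
    (cop (2 * Δ.natAbs) * jc Δ) n = 0 := by
  rw [ArithmeticFunction.mul_apply]
  refine Finset.sum_eq_zero fun x hx => ?_
  obtain ⟨h1, h2⟩ := Nat.mem_divisorsAntidiagonal.1 hx
  by_cases ha : x.1.Coprime (2 * Δ.natAbs)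
  · have hb : ¬ x.2.Coprime (2 * Δ.natAbs) := by
      intro hb
      apply hc
      rw [← h1]
      exact Nat.Coprime.mul_left ha hb
    rw [jc_eq_zero hb, mul_zero]
  · rw [Rho_cop_apply, if_neg (fun h => ha h.2), zero_mul]

end Pool.Agent.LGO.SG
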