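import Mathlib
import Pool.Agent.LGO.SG.Defs

/-!
# LGO/SG: the constant function and the indicator functions

`asy_one`: `∑_{n ≤ N} n ^ (-b) - N ^ (1 - b) / (1 - b)` decreases to a limit `c` with error `≤ N ^ (-b)` (comparison of the sum
with the integral); `|x ^ (1 - b) / (1 - b) - N ^ (1 - b) / (1 - b)| ≤ N ^ (-b)` for `N = ⌊x⌋`, `N ≥ x / 2`, so the error is at most
`2 x ^ (-b) ≤ (1 - b)⁻¹ x ^ (-1/2)`.  `N = 1`: `c ≤ 1 - 1 / (1 - b) < 0`, `c ≥ - 1 / (1 - b)`.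
`asy_cop`: induction on the set of primes: if `p` is a prime not in the set, `f` the indicator function of the integers
prime to the primes of the set, `f'` the one with `p`: `Sm f' b x = Sm f b x - p ^ (-b) Sm f b (x / p)` (`Sm f b (x / p) = 0`
and the asymptotics have to be used for `x / p < 1` in the form: the main term, the constant term are at most
`(1 - b)⁻¹` there), so `lam' = lam (1 - 1/p)`, `c' = c (1 - p ^ (-b))`, `Q' ≤ 4 Q`; the number `ω` of the primes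
satisfies `4 ^ ω ≤ M ^ 2`.
`kap_ge`: for a finite set `S` of integers `≥ 2`: `∏_{p ∈ S} (1 - 1/p) ≥ 1 / (|S| + 1)` (induction, remove the largest
element, which is `≥ |S| + 1`), and `2 ^ |S| ≤ M`.
-/

namespace Pool.Agent.LGO.SG

open Filter Topology

/-! ### the constant function -/

/-- tangent lines of the concave function `x ^ r` -/
private lemma One_tan {r x y : ℝ} (hr : 0 ≤ r) (hr1 : r ≤ 1) (hx : 0 < x) (hy : 0 ≤ y) :
    y ^ r ≤ x ^ r + r * x ^ (r - 1) * (y - x) := by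
  have h1 : -1 ≤ (y - x) / x := by
    rw [le_div_iff₀ hx]
    linarith
  have h2 := rpow_one_add_le_one_add_mul_self h1 hr hr1
  have h3 : 1 + (y - x) / x = y / x := by
    field_simp
    ring
  rw [h3, Real.div_rpow hy hx.le, div_le_iff₀ (Real.rpow_pos_of_pos hx r)] at h2
  have h4 : x ^ (r - 1) = x ^ r / x := by
    rw [Real.rpow_sub hx, Real.rpow_one]
  rw [h4]
  refine h2.trans (le_of_eq ?_)
  field_simp

/-- comparison with the integral of `t ^ (-b)` -/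
private lemma One_cmp {b s t : ℝ} (hb : 0 < b) (hb1 : b < 1) (hs : 0 < s) (hst : s ≤ t) :
    (t - s) * t ^ (-b) ≤ t ^ (1 - b) / (1 - b) - s ^ (1 - b) / (1 - b) ∧
      t ^ (1 - b) / (1 - b) - s ^ (1 - b) / (1 - b) ≤ (t - s) * s ^ (-b) := by
  have ht : 0 < t := hs.trans_le hst
  have hr : 0 < 1 - b := by linarith
  have h1 := One_tan (r := 1 - b) hr.le (by linarith) hs ht.le
  have h2 := One_tan (r := 1 - b) hr.le (by linarith) ht hs.le
  have e : 1 - b - 1 = -b := by ring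
  rw [e] at h1 h2
  rw [← sub_div]
  constructor
  · rw [le_div_iff₀ hr]
    linarith
  · rw [div_le_iff₀ hr]
    linarith

/-- the partial sums of `n ^ (-b)` minus the main term -/
private noncomputable def One_D (b : ℝ) (N : ℕ) : ℝ :=
  ∑ n ∈ Finset.Icc 1 N, (n : ℝ) ^ (-b) - (N : ℝ) ^ (1 - b) / (1 - b)

private lemma One_D_one {b : ℝ} : One_D b 1 = 1 - 1 / (1 - b) := by
  simp [One_D]

private lemma One_D_step {b : ℝ} (hb : 0 < b) (hb1 : b < 1) {N : ℕ} (hN : 1 ≤ N) :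
    One_D b (N + 1) ≤ One_D b N ∧
      One_D b N - (N : ℝ) ^ (-b) ≤ One_D b (N + 1) - ((N + 1 : ℕ) : ℝ) ^ (-b) := by
  have hN' : (0 : ℝ) < N := by exact_mod_cast hN
  have h := One_cmp hb hb1 hN' (by linarith : (N : ℝ) ≤ (N : ℝ) + 1)
  have e : (N : ℝ) + 1 - N = 1 := by ring
  rw [e, one_mul, one_mul] at h
  unfold One_D
  rw [Finset.sum_Icc_succ_top (by omega)]
  push_cast
  constructor
  · linarith [h.1]
  · linarith [h.2]

private lemma One_D_anti {b : ℝ} (hb : 0 < b) (hb1 : b < 1) {N M : ℕ} (hN : 1 ≤ N) (hNM : N ≤ M) :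
    One_D b M ≤ One_D b N ∧
      One_D b N - (N : ℝ) ^ (-b) ≤ One_D b M - (M : ℝ) ^ (-b) := by
  induction M, hNM using Nat.le_induction with
  | base => exact ⟨le_refl _, le_refl _⟩
  | succ M hM ih =>
    have h := One_D_step hb hb1 (hN.trans hM)
    exact ⟨h.1.trans ih.1, ih.2.trans h.2⟩

private lemma One_D_cross {b : ℝ} (hb : 0 < b) (hb1 : b < 1) {N M : ℕ} (hN : 1 ≤ N) (hM : 1 ≤ M) :
    One_D b N - (N : ℝ) ^ (-b) ≤ One_D b M := by
  have h1 : (0 : ℝ) ≤ (N : ℝ) ^ (-b) := Real.rpow_nonneg (Nat.cast_nonneg _) _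
  have h2 : (0 : ℝ) ≤ (M : ℝ) ^ (-b) := Real.rpow_nonneg (Nat.cast_nonneg _) _
  rcases le_total N M with h | h
  · linarith [(One_D_anti hb hb1 hN h).2]
  · linarith [(One_D_anti hb hb1 hM h).1]

/-- the constant term -/
private noncomputable def One_c (b : ℝ) : ℝ := ⨅ N : ℕ, One_D b (N + 1)

private lemma One_c_le {b : ℝ} (hb : 0 < b) (hb1 : b < 1) {N : ℕ} (hN : 1 ≤ N) :
    One_c b ≤ One_D b N := by
  obtain ⟨M, rfl⟩ := Nat.exists_eq_add_of_le' hN
  refine ciInf_le ?_ M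
  refine ⟨One_D b 1 - ((1 : ℕ) : ℝ) ^ (-b), ?_⟩
  rintro _ ⟨K, rfl⟩
  exact One_D_cross hb hb1 le_rfl (by omega)

private lemma One_le_c {b : ℝ} (hb : 0 < b) (hb1 : b < 1) {N : ℕ} (hN : 1 ≤ N) :
    One_D b N - (N : ℝ) ^ (-b) ≤ One_c b :=
  le_ciInf fun M => One_D_cross hb hb1 hN (by omega)

private lemma One_sum_zeta {b : ℝ} (x : ℝ) :
    Sm (ArithmeticFunction.zeta : ArithmeticFunction ℝ) b x =
      ∑ n ∈ Finset.Icc 1 ⌊x⌋₊, (n : ℝ) ^ (-b) := by
  unfold Sm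
  refine Finset.sum_congr rfl fun n hn => ?_
  have h0 : n ≠ 0 := by
    have := (Finset.mem_Icc.1 hn).1
    omega
  rw [ArithmeticFunction.natCoe_apply, ArithmeticFunction.zeta_apply_ne h0, Nat.cast_one, one_mul]

private lemma One_sumA_zeta {b : ℝ} (x : ℝ) :
    SmA (ArithmeticFunction.zeta : ArithmeticFunction ℝ) b x =
      ∑ n ∈ Finset.Icc 1 ⌊x⌋₊, (n : ℝ) ^ (-b) := by
  unfold SmA
  refine Finset.sum_congr rfl fun n hn => ?_
  have h0 : n ≠ 0 := by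
    have := (Finset.mem_Icc.1 hn).1
    omega
  rw [ArithmeticFunction.natCoe_apply, ArithmeticFunction.zeta_apply_ne h0, Nat.cast_one, abs_one,
    one_mul]

theorem asy_one {b : ℝ} (hb : 99 / 100 ≤ b) (hb1 : b < 1) : ∃ c : ℝ, c < 0 ∧ |c| ≤ (1 - b)⁻¹ ∧
    Asy (ArithmeticFunction.zeta : ArithmeticFunction ℝ) b 1 c (1 - b)⁻¹ (1 / 2) := by
  have hb0 : 0 < b := by linarith
  have hr : 0 < 1 - b := by linarith
  have hr1 : 100 ≤ (1 - b)⁻¹ := by
    rw [le_inv_comm₀ (by norm_num) hr]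
    norm_num
    linarith
  have hD1 := One_D_one (b := b)
  rw [one_div] at hD1
  have hc1 := One_c_le hb0 hb1 (le_refl 1)
  have hc2 := One_le_c hb0 hb1 (le_refl 1)
  rw [hD1] at hc1 hc2
  rw [Nat.cast_one, Real.one_rpow] at hc2
  refine ⟨One_c b, by linarith, ?_, ?_, ?_⟩
  · rw [abs_le]
    constructor <;> linarith
  · intro x hx
    have hx0 : 0 < x := by linarith
    have hN : 1 ≤ ⌊x⌋₊ := (Nat.one_le_floor_iff x).2 hx
    have hN0 : (0 : ℝ) < ⌊x⌋₊ := by exact_mod_cast hN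
    have hN1 : (⌊x⌋₊ : ℝ) ≤ x := Nat.floor_le hx0.le
    have hN2 : x < ⌊x⌋₊ + 1 := Nat.lt_floor_add_one x
    have hN3 : (1 : ℝ) ≤ ⌊x⌋₊ := by exact_mod_cast hN
    have h1 := One_cmp hb0 hb1 hN0 hN1
    have h2 := One_c_le hb0 hb1 hN
    have h3 := One_le_c hb0 hb1 hN
    rw [One_sum_zeta, one_mul]
    unfold One_D at h2 h3
    have h4 : 0 ≤ (x - ⌊x⌋₊) * x ^ (-b) :=
      mul_nonneg (by linarith) (Real.rpow_nonneg hx0.le _)
    have h5 : (x - ⌊x⌋₊) * (⌊x⌋₊ : ℝ) ^ (-b) ≤ (⌊x⌋₊ : ℝ) ^ (-b) :=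
      mul_le_of_le_one_left (Real.rpow_nonneg hN0.le _) (by linarith)
    have h6 : |∑ n ∈ Finset.Icc 1 ⌊x⌋₊, (n : ℝ) ^ (-b) - x ^ (1 - b) / (1 - b) - One_c b| ≤
        (⌊x⌋₊ : ℝ) ^ (-b) := by
      rw [abs_le]
      constructor <;> linarith [h1.1, h1.2]
    refine h6.trans ?_
    have h7 : (⌊x⌋₊ : ℝ) ^ (-b) ≤ (x / 2) ^ (-b) :=
      Real.rpow_le_rpow_of_nonpos (by linarith) (by linarith) (by linarith)
    have h8 : (x / 2) ^ (-b) = 2 ^ b * x ^ (-b) := by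
      rw [Real.div_rpow hx0.le (by norm_num), Real.rpow_neg (by norm_num : (0 : ℝ) ≤ 2), div_inv_eq_mul,
        mul_comm]
    have h9 : (2 : ℝ) ^ b ≤ 2 := by
      calc (2 : ℝ) ^ b ≤ 2 ^ (1 : ℝ) := Real.rpow_le_rpow_of_exponent_le (by norm_num) hb1.le
        _ = 2 := Real.rpow_one 2
    have h10 : x ^ (-b) ≤ x ^ (-(1 / 2) : ℝ) := Real.rpow_le_rpow_of_exponent_le hx (by linarith)
    calc (⌊x⌋₊ : ℝ) ^ (-b) ≤ 2 ^ b * x ^ (-b) := by rw [← h8]; exact h7
      _ ≤ (1 - b)⁻¹ * x ^ (-(1 / 2) : ℝ) :=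
        mul_le_mul (by linarith) h10 (Real.rpow_nonneg hx0.le _) (by linarith)
  · intro x hx
    have hx0 : 0 < x := by linarith
    have hN : 1 ≤ ⌊x⌋₊ := (Nat.one_le_floor_iff x).2 hx
    have hN1 : (⌊x⌋₊ : ℝ) ≤ x := Nat.floor_le hx0.le
    have h1 := (One_D_anti hb0 hb1 (le_refl 1) hN).1
    rw [hD1] at h1
    unfold One_D at h1
    rw [One_sumA_zeta]
    have h2 : ∑ n ∈ Finset.Icc 1 ⌊x⌋₊, (n : ℝ) ^ (-b) ≤ (⌊x⌋₊ : ℝ) ^ (1 - b) / (1 - b) := by
      linarith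
    refine h2.trans ?_
    rw [div_eq_inv_mul]
    refine mul_le_mul_of_nonneg_left ?_ (by linarith)
    calc (⌊x⌋₊ : ℝ) ^ (1 - b) ≤ x ^ (1 - b) :=
          Real.rpow_le_rpow (Nat.cast_nonneg _) hN1 hr.le
      _ ≤ x ^ (1 - b + 1 / 100) := Real.rpow_le_rpow_of_exponent_le hx (by linarith)

/-! ### the indicator functions -/

/-- the indicator function of the integers prime to the elements of `P` -/
private noncomputable def One_ind (P : Finset ℕ) : ArithmeticFunction ℝ :=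
  ⟨fun n => if n ≠ 0 ∧ ∀ p ∈ P, ¬ p ∣ n then 1 else 0, by simp⟩

private lemma One_ind_apply (P : Finset ℕ) (n : ℕ) :
    One_ind P n = if n ≠ 0 ∧ ∀ p ∈ P, ¬ p ∣ n then 1 else 0 := rfl

private lemma One_mult (F : ℕ → ℝ) {p : ℕ} (hp : 0 < p) (N : ℕ) :
    ∑ n ∈ Finset.Icc 1 N, (if p ∣ n then F n else 0) = ∑ m ∈ Finset.Icc 1 (N / p), F (p * m) := by
  rw [← Finset.sum_filter]
  symm
  refine Finset.sum_bij (fun m _ => p * m) ?_ ?_ ?_ ?_
  · intro m hm
    rw [Finset.mem_Icc] at hm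
    rw [Finset.mem_filter, Finset.mem_Icc]
    refine ⟨⟨Nat.mul_pos hp hm.1, ?_⟩, dvd_mul_right _ _⟩
    calc p * m ≤ p * (N / p) := Nat.mul_le_mul_left _ hm.2
      _ ≤ N := Nat.mul_div_le N p
  · intro m _ m' _ h
    exact Nat.eq_of_mul_eq_mul_left hp h
  · intro n hn
    rw [Finset.mem_filter, Finset.mem_Icc] at hn
    obtain ⟨⟨h1, h2⟩, ⟨m, rfl⟩⟩ := hn
    refine ⟨m, ?_, rfl⟩
    rw [Finset.mem_Icc]
    refine ⟨Nat.pos_of_mul_pos_left h1, ?_⟩
    rw [Nat.le_div_iff_mul_le hp]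
    rwa [mul_comm]
  · intro m _
    rfl

private lemma One_ind_insert {P : Finset ℕ} (hP : ∀ p ∈ P, p.Prime) {p : ℕ} (hp : p.Prime)
    (hpP : p ∉ P) (b x : ℝ) :
    Sm (One_ind (insert p P)) b x = Sm (One_ind P) b x - (p : ℝ) ^ (-b) * Sm (One_ind P) b (x / p) := by
  have h1 : ∀ n, One_ind (insert p P) n = One_ind P n - (if p ∣ n then One_ind P n else 0) := by
    intro n
    simp only [One_ind_apply, Finset.mem_insert, forall_eq_or_imp]
    by_cases h2 : p ∣ n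
    · simp [h2]
    · simp [h2]
  have h2 : Sm (One_ind (insert p P)) b x = Sm (One_ind P) b x -
      ∑ n ∈ Finset.Icc 1 ⌊x⌋₊, (if p ∣ n then One_ind P n * (n : ℝ) ^ (-b) else 0) := by
    unfold Sm
    rw [← Finset.sum_sub_distrib]
    refine Finset.sum_congr rfl fun n _ => ?_
    rw [h1, sub_mul, ite_mul, zero_mul]
  rw [h2, One_mult _ hp.pos]
  congr 1
  unfold Sm
  rw [Nat.floor_div_natCast, Finset.mul_sum]
  refine Finset.sum_congr rfl fun m hm => ?_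
  have hm0 : m ≠ 0 := by
    have := (Finset.mem_Icc.1 hm).1
    omega
  have h3 : One_ind P (p * m) = One_ind P m := by
    simp only [One_ind_apply]
    have h4 : (p * m ≠ 0 ∧ ∀ q ∈ P, ¬ q ∣ p * m) ↔ (m ≠ 0 ∧ ∀ q ∈ P, ¬ q ∣ m) := by
      constructor
      · rintro ⟨_, h5⟩
        exact ⟨hm0, fun q hq h6 => h5 q hq (h6.mul_left p)⟩
      · rintro ⟨_, h5⟩
        refine ⟨Nat.mul_ne_zero hp.ne_zero hm0, fun q hq h6 => ?_⟩
        rcases ((hP q hq).dvd_mul).1 h6 with h7 | h7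
        · have h8 := (Nat.prime_dvd_prime_iff_eq (hP q hq) hp).1 h7
          exact hpP (h8 ▸ hq)
        · exact h5 q hq h7
    simp only [h4]
  rw [h3, Nat.cast_mul, Real.mul_rpow (Nat.cast_nonneg _) (Nat.cast_nonneg _)]
  ring

private lemma One_ind_empty : One_ind ∅ = (ArithmeticFunction.zeta : ArithmeticFunction ℝ) := by
  ext n
  rw [One_ind_apply, ArithmeticFunction.natCoe_apply, ArithmeticFunction.zeta_apply]
  by_cases h : n = 0
  · simp [h]
  · simp [h]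

/-- the step from `P` to `P` and one more prime -/
private lemma One_step {b lam c Q x p E : ℝ} (hb : 99 / 100 ≤ b) (hb1 : b < 1) (hx : 1 ≤ x)
    (hp : 1 < p) {S S' : ℝ} (hlam : 0 ≤ lam) (hlam1 : lam ≤ 1) (hc : |c| ≤ (1 - b)⁻¹)
    (hQ : (1 - b)⁻¹ ≤ Q) (hE : E = x ^ (-(1 / 2) : ℝ))
    (h1 : |S - lam * x ^ (1 - b) / (1 - b) - c| ≤ Q * E)
    (h2 : x < p → S' = 0)
    (h3 : p ≤ x → |S' - lam * (x / p) ^ (1 - b) / (1 - b) - c| ≤ Q * (x / p) ^ (-(1 / 2) : ℝ)) :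
    |S - p ^ (-b) * S' - lam * (1 - p⁻¹) * x ^ (1 - b) / (1 - b) - c * (1 - p ^ (-b))| ≤
      4 * Q * E := by
  have hx0 : 0 < x := by linarith
  have hp0 : 0 < p := by linarith
  have hr : 0 < 1 - b := by linarith
  have hrp : 0 < (1 - b)⁻¹ := inv_pos.2 hr
  have hE0 : 0 ≤ E := hE ▸ Real.rpow_nonneg hx0.le _
  have hpb : 0 ≤ p ^ (-b) := Real.rpow_nonneg hp0.le _
  have e1 : p ^ (-b) * (x / p) ^ (1 - b) = p⁻¹ * x ^ (1 - b) := by
    rw [Real.div_rpow hx0.le hp0.le, mul_div_assoc', mul_comm (p ^ (-b)), mul_div_assoc,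
      ← Real.rpow_sub hp0]
    have : -b - (1 - b) = -1 := by ring
    rw [this, Real.rpow_neg_one]
    ring
  have e2 : S - p ^ (-b) * S' - lam * (1 - p⁻¹) * x ^ (1 - b) / (1 - b) - c * (1 - p ^ (-b)) =
      (S - lam * x ^ (1 - b) / (1 - b) - c) -
        p ^ (-b) * (S' - lam * (x / p) ^ (1 - b) / (1 - b) - c) := by
    have : p ^ (-b) * (S' - lam * (x / p) ^ (1 - b) / (1 - b) - c) =
        p ^ (-b) * S' - lam * (p ^ (-b) * (x / p) ^ (1 - b)) / (1 - b) - p ^ (-b) * c := by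
      ring
    rw [this, e1]
    ring
  rw [e2]
  refine (abs_sub _ _).trans ?_
  rw [abs_mul, abs_of_nonneg hpb]
  have key : p ^ (-b) * |S' - lam * (x / p) ^ (1 - b) / (1 - b) - c| ≤ 2 * Q * E := by
    rcases lt_or_ge x p with hxp | hxp
    · rw [h2 hxp]
      have h4 : (x / p) ^ (1 - b) ≤ 1 :=
        Real.rpow_le_one (by positivity) ((div_le_one hp0).2 hxp.le) hr.le
      have h40 : 0 ≤ (x / p) ^ (1 - b) := Real.rpow_nonneg (by positivity) _
      have h5 : |0 - lam * (x / p) ^ (1 - b) / (1 - b) - c| ≤ 2 * (1 - b)⁻¹ := by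
        have h6 : 0 ≤ lam * (x / p) ^ (1 - b) / (1 - b) := by positivity
        have h7 : lam * (x / p) ^ (1 - b) / (1 - b) ≤ (1 - b)⁻¹ := by
          rw [div_eq_mul_inv]
          exact mul_le_of_le_one_left hrp.le (mul_le_one₀ hlam1 h40 h4)
        rw [abs_le] at hc ⊢
        constructor <;> linarith [hc.1, hc.2]
      have h8 : p ^ (-b) ≤ E := by
        rw [hE]
        calc p ^ (-b) ≤ x ^ (-b) := Real.rpow_le_rpow_of_nonpos hx0 hxp.le (by linarith)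
          _ ≤ x ^ (-(1 / 2) : ℝ) := Real.rpow_le_rpow_of_exponent_le hx (by linarith)
      calc p ^ (-b) * |0 - lam * (x / p) ^ (1 - b) / (1 - b) - c| ≤ E * (2 * (1 - b)⁻¹) :=
            mul_le_mul h8 h5 (abs_nonneg _) hE0
        _ ≤ E * (2 * Q) := by gcongr
        _ = 2 * Q * E := by ring
    · have h4 := h3 hxp
      have h5 : p ^ (-b) * (x / p) ^ (-(1 / 2) : ℝ) ≤ E := by
        rw [Real.div_rpow hx0.le hp0.le, mul_div_assoc', mul_comm (p ^ (-b)), mul_div_assoc,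
          ← Real.rpow_sub hp0, hE]
        refine mul_le_of_le_one_right (Real.rpow_nonneg hx0.le _) ?_
        exact Real.rpow_le_one_of_one_le_of_nonpos hp.le (by linarith)
      have hQ0 : 0 ≤ Q := hrp.le.trans hQ
      calc p ^ (-b) * |S' - lam * (x / p) ^ (1 - b) / (1 - b) - c| ≤
          p ^ (-b) * (Q * (x / p) ^ (-(1 / 2) : ℝ)) := mul_le_mul_of_nonneg_left h4 hpb
        _ = Q * (p ^ (-b) * (x / p) ^ (-(1 / 2) : ℝ)) := by ring
        _ ≤ Q * E := mul_le_mul_of_nonneg_left h5 hQ0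
        _ ≤ 2 * Q * E := by nlinarith [mul_nonneg hQ0 hE0]
  have hQ0 : 0 ≤ Q := hrp.le.trans hQ
  have := mul_nonneg hQ0 hE0
  linarith

private lemma One_ind_asy {b : ℝ} (hb : 99 / 100 ≤ b) (hb1 : b < 1) (P : Finset ℕ)
    (hP : ∀ p ∈ P, p.Prime) : ∃ c : ℝ, |c| ≤ (1 - b)⁻¹ ∧ ∀ x : ℝ, 1 ≤ x →
      |Sm (One_ind P) b x - (∏ p ∈ P, (1 - (p : ℝ)⁻¹)) * x ^ (1 - b) / (1 - b) - c| ≤
        4 ^ P.card * (1 - b)⁻¹ * x ^ (-(1 / 2) : ℝ) := by
  induction P using Finset.induction_on with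
  | empty =>
    obtain ⟨c, _, hc, h⟩ := asy_one hb hb1
    refine ⟨c, hc, fun x hx => ?_⟩
    rw [One_ind_empty, Finset.prod_empty, Finset.card_empty, pow_zero, one_mul (1 - b)⁻¹]
    exact h.asy x hx
  | insert p P hpP ih =>
    obtain ⟨c, hc, h⟩ := ih fun q hq => hP q (Finset.mem_insert_of_mem hq)
    have hp : p.Prime := hP p (Finset.mem_insert_self _ _)
    have hp1 : (1 : ℝ) < p := by exact_mod_cast hp.one_lt
    have hr : 0 < 1 - b := by linarith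
    have hrp : 0 < (1 - b)⁻¹ := inv_pos.2 hr
    have hpb : 0 ≤ (p : ℝ) ^ (-b) := Real.rpow_nonneg (by linarith) _
    have hpb1 : (p : ℝ) ^ (-b) ≤ 1 :=
      Real.rpow_le_one_of_one_le_of_nonpos hp1.le (by linarith)
    refine ⟨c * (1 - (p : ℝ) ^ (-b)), ?_, fun x hx => ?_⟩
    · rw [abs_mul, abs_of_nonneg (by linarith : 0 ≤ 1 - (p : ℝ) ^ (-b))]
      refine le_trans ?_ hc
      exact mul_le_of_le_one_right (abs_nonneg _) (by linarith)
    · have hprod : ∀ q ∈ P, 0 ≤ 1 - (q : ℝ)⁻¹ ∧ 1 - (q : ℝ)⁻¹ ≤ 1 := by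
        intro q hq
        have hq1 : (1 : ℝ) ≤ q := by
          exact_mod_cast (hP q (Finset.mem_insert_of_mem hq)).one_lt.le
        have : (q : ℝ)⁻¹ ≤ 1 := inv_le_one_of_one_le₀ hq1
        have : 0 ≤ (q : ℝ)⁻¹ := by positivity
        constructor <;> linarith
      have hx0 : 0 < x := by linarith
      rw [One_ind_insert (fun q hq => hP q (Finset.mem_insert_of_mem hq)) hp hpP,
        Finset.prod_insert hpP, Finset.card_insert_of_notMem hpP]
      have hQ : (1 - b)⁻¹ ≤ 4 ^ P.card * (1 - b)⁻¹ :=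
        le_mul_of_one_le_left hrp.le (one_le_pow₀ (by norm_num))
      have key := One_step (S := Sm (One_ind P) b x) (S' := Sm (One_ind P) b (x / p)) hb hb1 hx hp1
        (Finset.prod_nonneg fun q hq => (hprod q hq).1)
        (Finset.prod_le_one (fun q hq => (hprod q hq).1) fun q hq => (hprod q hq).2) hc hQ rfl
        (h x hx) ?_ ?_
      · have e1 : (1 - (p : ℝ)⁻¹) * ∏ q ∈ P, (1 - (q : ℝ)⁻¹) =
            (∏ q ∈ P, (1 - (q : ℝ)⁻¹)) * (1 - (p : ℝ)⁻¹) := mul_comm _ _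
        have e2 : (4 : ℝ) ^ (P.card + 1) * (1 - b)⁻¹ * x ^ (-(1 / 2) : ℝ) =
            4 * (4 ^ P.card * (1 - b)⁻¹) * x ^ (-(1 / 2) : ℝ) := by ring
        rw [e1, e2]
        exact key
      · intro hxp
        have h0 : ⌊x / p⌋₊ = 0 := by
          rw [Nat.floor_eq_zero]
          exact (div_lt_one (by linarith)).2 hxp
        simp [Sm, h0]
      · intro hxp
        exact h (x / p) ((one_le_div (by linarith)).2 hxp)

private lemma One_cop {M : ℕ} (hM : 0 < M) : cop M = One_ind M.primeFactors := by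
  ext n
  show (if n ≠ 0 ∧ n.Coprime M then (1 : ℝ) else 0) = _
  rw [One_ind_apply]
  have h : (n ≠ 0 ∧ n.Coprime M) ↔ (n ≠ 0 ∧ ∀ p ∈ M.primeFactors, ¬ p ∣ n) := by
    constructor
    · rintro ⟨h0, h1⟩
      refine ⟨h0, fun p hp h2 => ?_⟩
      rw [Nat.mem_primeFactors] at hp
      exact Nat.not_coprime_of_dvd_of_dvd hp.1.one_lt h2 hp.2.1 h1
    · rintro ⟨h0, h1⟩
      refine ⟨h0, Nat.coprime_of_dvd fun p hp h2 h3 => ?_⟩
      exact h1 p (Nat.mem_primeFactors.2 ⟨hp, h3, hM.ne'⟩) h2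
  simp only [h]

private lemma One_two_pow {M : ℕ} (hM : 0 < M) : 2 ^ M.primeFactors.card ≤ M := by
  calc 2 ^ M.primeFactors.card ≤ ∏ p ∈ M.primeFactors, p :=
        Finset.pow_card_le_prod _ _ _ fun p hp => (Nat.prime_of_mem_primeFactors hp).two_le
    _ ≤ M := Nat.le_of_dvd hM (Nat.prod_primeFactors_dvd M)

theorem asy_cop {b : ℝ} (hb : 99 / 100 ≤ b) (hb1 : b < 1) {M : ℕ} (hM : 0 < M) : ∃ c : ℝ,
    |c| ≤ (1 - b)⁻¹ ∧ Asy (cop M) b (kap M) c (M ^ 2 * (1 - b)⁻¹) (1 / 2) := by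
  have hr : 0 < 1 - b := by linarith
  have hrp : 0 < (1 - b)⁻¹ := inv_pos.2 hr
  obtain ⟨c, hc, h⟩ := One_ind_asy hb hb1 M.primeFactors fun p hp => Nat.prime_of_mem_primeFactors hp
  have hM1 : (1 : ℝ) ≤ M := by exact_mod_cast hM
  refine ⟨c, hc, fun x hx => ?_, fun x hx => ?_⟩
  · rw [One_cop hM]
    refine (h x hx).trans ?_
    have h1 : (4 : ℝ) ^ M.primeFactors.card ≤ (M : ℝ) ^ 2 := by
      have h2 : (2 : ℝ) ^ M.primeFactors.card ≤ M := by exact_mod_cast One_two_pow hM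
      calc (4 : ℝ) ^ M.primeFactors.card = (2 ^ M.primeFactors.card) ^ 2 := by
            rw [← pow_mul, mul_comm, pow_mul]
            norm_num
        _ ≤ (M : ℝ) ^ 2 := by gcongr
    have h3 : 0 ≤ x ^ (-(1 / 2) : ℝ) := Real.rpow_nonneg (by linarith) _
    gcongr
  · obtain ⟨c', _, _, h'⟩ := asy_one hb hb1
    have h1 : SmA (cop M) b x ≤ SmA (ArithmeticFunction.zeta : ArithmeticFunction ℝ) b x := by
      unfold SmA
      refine Finset.sum_le_sum fun n hn => ?_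
      have h0 : n ≠ 0 := by
        have := (Finset.mem_Icc.1 hn).1
        omega
      refine mul_le_mul_of_nonneg_right ?_ (Real.rpow_nonneg (Nat.cast_nonneg _) _)
      rw [ArithmeticFunction.natCoe_apply, ArithmeticFunction.zeta_apply_ne h0, Nat.cast_one,
        abs_one]
      show |if n ≠ 0 ∧ n.Coprime M then (1 : ℝ) else 0| ≤ 1
      split_ifs <;> simp
    refine (h1.trans (h'.bd x hx)).trans ?_
    refine mul_le_mul_of_nonneg_right ?_ (Real.rpow_nonneg (by linarith) _)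
    exact le_mul_of_one_le_left hrp.le (one_le_pow₀ hM1)

/-! ### the product -/

private lemma One_prod_ge (S : Finset ℕ) (h : ∀ n ∈ S, 2 ≤ n) :
    ((S.card : ℝ) + 1)⁻¹ ≤ ∏ p ∈ S, (1 - (p : ℝ)⁻¹) := by
  induction S using Finset.induction_on_max with
  | empty => simp
  | insert a s hmax ih =>
    have has : a ∉ s := fun h1 => lt_irrefl _ (hmax a h1)
    have ih' := ih fun n hn => h n (Finset.mem_insert_of_mem hn)
    have hcard : s.card + 2 ≤ a := by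
      have h1 : s ⊆ Finset.Ico 2 a := by
        intro n hn
        rw [Finset.mem_Ico]
        exact ⟨h n (Finset.mem_insert_of_mem hn), hmax n hn⟩
      have h2 := Finset.card_le_card h1
      rw [Nat.card_Ico] at h2
      have h3 := h a (Finset.mem_insert_self _ _)
      omega
    rw [Finset.prod_insert has, Finset.card_insert_of_notMem has]
    have hcard' : (s.card : ℝ) + 2 ≤ a := by exact_mod_cast hcard
    have hpos : (0 : ℝ) < (s.card : ℝ) + 2 := by positivity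
    have h4 : (a : ℝ)⁻¹ ≤ ((s.card : ℝ) + 2)⁻¹ := inv_anti₀ hpos hcard'
    have h5 : ((s.card : ℝ) + 1) * ((s.card : ℝ) + 2)⁻¹ ≤ 1 - (a : ℝ)⁻¹ := by
      have h6 : ((s.card : ℝ) + 1) * ((s.card : ℝ) + 2)⁻¹ = 1 - ((s.card : ℝ) + 2)⁻¹ := by
        field_simp
        ring
      linarith
    have h7 : (((s.card + 1 : ℕ) : ℝ) + 1)⁻¹ =
        (((s.card : ℝ) + 1) * ((s.card : ℝ) + 2)⁻¹) * ((s.card : ℝ) + 1)⁻¹ := by
      push_cast
      field_simp
      ring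
    rw [h7]
    refine mul_le_mul h5 ih' (by positivity) (le_trans (by positivity) h5)

theorem kap_ge {M : ℕ} (hM : 0 < M) : (1 + Real.logb 2 M)⁻¹ ≤ kap M := by
  have h1 := One_prod_ge M.primeFactors fun p hp => (Nat.prime_of_mem_primeFactors hp).two_le
  refine le_trans ?_ h1
  have hM0 : (0 : ℝ) < M := by exact_mod_cast hM
  have h2 : (M.primeFactors.card : ℝ) ≤ Real.logb 2 M := by
    rw [Real.le_logb_iff_rpow_le (by norm_num) hM0, Real.rpow_natCast]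
    exact_mod_cast One_two_pow hM
  exact inv_anti₀ (by positivity) (by linarith)

theorem kap_le {M : ℕ} : 0 < kap M ∧ kap M ≤ 1 := by
  have h : ∀ p ∈ M.primeFactors, 0 < 1 - (p : ℝ)⁻¹ ∧ 1 - (p : ℝ)⁻¹ ≤ 1 := by
    intro p hp
    have h1 : (1 : ℝ) < p := by exact_mod_cast (Nat.prime_of_mem_primeFactors hp).one_lt
    have h2 : (p : ℝ)⁻¹ < 1 := inv_lt_one_of_one_lt₀ h1
    have h3 : 0 ≤ (p : ℝ)⁻¹ := by positivity
    constructor <;> linarith
  exact ⟨Finset.prod_pos fun p hp => (h p hp).1,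
    Finset.prod_le_one (fun p hp => (h p hp).1.le) fun p hp => (h p hp).2⟩

end Pool.Agent.LGO.SG
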