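import Mathlib
import Pool.Agent.LGO.SG.Defs

/-!
# LGO/SG: convolutions of characters are nonnegative

`ζ * χ` and `ζ * χ * ψ * (χ ψ)` are multiplicative (`ArithmeticFunction.IsMultiplicative.mul`), so it is enough to look at prime
powers `p ^ k` (`IsMultiplicative.multiplicative_factorization`).  With `x = χ(p)`, `y = ψ(p)`: `(ζ * χ)(p ^ k) = 1 + x + .. + x ^ k ≥ 0`,
`≥ 1` for `k` even.  `(ζ * χ * ψ * χψ)(p ^ k)` is the coefficient of `T ^ k` in `1 / ((1 - T) (1 - x T) (1 - y T) (1 - x y T))`: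
for `x = 1`: `(1 - T)^-2 (1 - y T)^-2` = the square of `1 / ((1 - T)(1 - y T))`, nonnegative coefficients; the same for
`y = 1`, and for `x = y = -1`: `(1 - T)^-2 (1 + T)^-2 = (1 - T²)^-2`; `x = 0`: `1 / ((1 - T)(1 - y T))`; `y = 0` the same.  (For the
convolution: in these cases the function is `(ζ * χ)`-like convolution square on prime powers; one may write
`f(p ^ k) = ∑_{i + j = k} g(i) g(j)` with `g = (ζ * ψ)(p ^ i)` resp. `(ζ * χ)(p ^ i)`.)
-/

namespace Pool.Agent.LGO.SG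

open ArithmeticFunction

private theorem conv_mult {χ : ArithmeticFunction ℝ} {q : ℝ} (h : Chr χ q) : χ.IsMultiplicative :=
  ⟨h.map_one, fun {m n} _ => h.map_mul m n⟩

private theorem conv_zmult : (zeta : ArithmeticFunction ℝ).IsMultiplicative := isMultiplicative_zeta.natCast

private theorem conv_pow {χ : ArithmeticFunction ℝ} {q : ℝ} (h : Chr χ q) (p k : ℕ) : χ (p ^ k) = χ p ^ k := by
  induction k with
  | zero => rw [pow_zero, pow_zero, h.map_one]
  | succ k ih => rw [pow_succ, pow_succ, h.map_mul, ih]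

/-- The function on prime powers. -/
private theorem conv_pp {χ : ArithmeticFunction ℝ} {q : ℝ} (h : Chr χ q) {p : ℕ} (hp : p.Prime) (k : ℕ) :
    ((zeta : ArithmeticFunction ℝ) * χ) (p ^ k) = ∑ i ∈ Finset.range (k + 1), χ p ^ i := by
  rw [coe_zeta_mul_apply, Nat.sum_divisors_prime_pow hp]
  exact Finset.sum_congr rfl fun i _ => conv_pow h p i

private theorem conv_neg {χ : ArithmeticFunction ℝ} {q : ℝ} (h : Chr χ q) {p : ℕ} (hp : p.Prime) (hx : χ p = -1)
    (k : ℕ) : ((zeta : ArithmeticFunction ℝ) * χ) (p ^ k) = if Even k then 1 else 0 := by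
  rw [conv_pp h hp, hx, neg_one_geom_sum]
  by_cases hk : Even k
  · rw [if_pos hk, if_neg (by rw [Nat.even_add_one]; simpa using hk)]
  · rw [if_neg hk, if_pos (by rw [Nat.even_add_one]; exact hk)]

private theorem conv_pos {χ : ArithmeticFunction ℝ} {q : ℝ} (h : Chr χ q) {p : ℕ} (hp : p.Prime) (hx : 0 ≤ χ p)
    (k : ℕ) : 1 ≤ ((zeta : ArithmeticFunction ℝ) * χ) (p ^ k) := by
  rw [conv_pp h hp, Finset.sum_range_succ', pow_zero]
  have : 0 ≤ ∑ i ∈ Finset.range k, χ p ^ (i + 1) := Finset.sum_nonneg fun i _ => pow_nonneg hx _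
  linarith

private theorem conv_pp_nonneg {χ : ArithmeticFunction ℝ} {q : ℝ} (h : Chr χ q) {p : ℕ} (hp : p.Prime) (k : ℕ) :
    0 ≤ ((zeta : ArithmeticFunction ℝ) * χ) (p ^ k) := by
  by_cases hx : χ p = -1
  · rw [conv_neg h hp hx]
    split_ifs <;> norm_num
  · have hx' : 0 ≤ χ p := by
      rcases h.val p with h1 | h1 | h1
      · rw [h1]
      · rw [h1]; norm_num
      · exact absurd h1 hx
    exact zero_le_one.trans (conv_pos h hp hx' k)

private theorem conv_of_pp {f : ArithmeticFunction ℝ} (hf : f.IsMultiplicative)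
    (h : ∀ p k : ℕ, p.Prime → 0 ≤ f (p ^ k)) (n : ℕ) : 0 ≤ f n := by
  by_cases hn : n = 0
  · rw [hn, f.map_zero]
  · rw [IsMultiplicative.multiplicative_factorization f hf hn]
    exact Finset.prod_nonneg fun p hp => h p _ (Nat.prime_of_mem_primeFactors (by simpa using hp))

theorem conv2_nonneg {χ : ArithmeticFunction ℝ} {q : ℝ} (h : Chr χ q) (n : ℕ) :
    0 ≤ ((zeta : ArithmeticFunction ℝ) * χ) n :=
  conv_of_pp (conv_zmult.mul (conv_mult h)) (fun _ k hp => conv_pp_nonneg h hp k) n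

theorem conv2_one {χ : ArithmeticFunction ℝ} {q : ℝ} (h : Chr χ q) :
    ((zeta : ArithmeticFunction ℝ) * χ) 1 = 1 :=
  (conv_zmult.mul (conv_mult h)).map_one

theorem conv2_sq {χ : ArithmeticFunction ℝ} {q : ℝ} (h : Chr χ q) {n : ℕ} (hn : 0 < n) :
    1 ≤ ((zeta : ArithmeticFunction ℝ) * χ) (n ^ 2) := by
  rw [IsMultiplicative.multiplicative_factorization _ (conv_zmult.mul (conv_mult h)) (pow_ne_zero 2 hn.ne')]
  unfold Finsupp.prod
  rw [← Finset.prod_const_one (s := (n ^ 2).factorization.support)]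
  refine Finset.prod_le_prod (fun _ _ => zero_le_one) fun p hp => ?_
  have hpp : p.Prime := Nat.prime_of_mem_primeFactors (by simpa using hp)
  have he : (n ^ 2).factorization p = 2 * n.factorization p := by
    rw [Nat.factorization_pow]; rfl
  rw [he]
  change 1 ≤ ((zeta : ArithmeticFunction ℝ) * χ) (p ^ (2 * n.factorization p))
  by_cases hx : χ p = -1
  · rw [conv_neg h hpp hx, if_pos (even_two_mul _)]
  · have hx' : 0 ≤ χ p := by
      rcases h.val p with h1 | h1 | h1
      · rw [h1]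
      · rw [h1]; norm_num
      · exact absurd h1 hx
    exact conv_pos h hpp hx' _

/-- The product of the last two factors. -/
private theorem conv_tw {χ ψ : ArithmeticFunction ℝ} {q' : ℝ} (h' : Chr ψ q') :
    ψ * pmul χ ψ = pmul ψ ((zeta : ArithmeticFunction ℝ) * χ) := by
  ext n
  rw [pmul_apply, mul_apply, mul_apply, Finset.mul_sum]
  refine Finset.sum_congr rfl fun x hx => ?_
  obtain ⟨h1, h2⟩ := Nat.mem_divisorsAntidiagonal.1 hx
  have h3 : x.1 ≠ 0 := by
    intro h0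
    rw [h0, zero_mul] at h1
    exact h2 h1.symm
  rw [pmul_apply, natCoe_apply, zeta_apply_ne h3, ← h1, h'.map_mul]
  push_cast
  ring

private theorem conv4_swap (χ ψ : ArithmeticFunction ℝ) :
    (zeta : ArithmeticFunction ℝ) * χ * ψ * (pmul χ ψ) = (zeta : ArithmeticFunction ℝ) * ψ * χ * (pmul ψ χ) := by
  rw [pmul_comm χ ψ]
  ring

private theorem conv4_pp {χ ψ : ArithmeticFunction ℝ} {q q' : ℝ} (h : Chr χ q) (h' : Chr ψ q') {p : ℕ} (hp : p.Prime)
    (k : ℕ) (hx : 0 ≤ ψ p ∨ (χ p = -1 ∧ ψ p = -1)) :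
    0 ≤ ((zeta : ArithmeticFunction ℝ) * χ * ψ * (pmul χ ψ)) (p ^ k) := by
  rw [mul_assoc ((zeta : ArithmeticFunction ℝ) * χ), conv_tw h', mul_apply]
  refine Finset.sum_nonneg fun x hx' => ?_
  obtain ⟨h1, -⟩ := Nat.mem_divisorsAntidiagonal.1 hx'
  obtain ⟨j, -, hj⟩ := (Nat.dvd_prime_pow hp).1 (Dvd.intro_left _ h1)
  refine mul_nonneg (conv2_nonneg h _) ?_
  rw [pmul_apply]
  rcases hx with hx | ⟨hx, hy⟩
  · refine mul_nonneg ?_ (conv2_nonneg h _)
    rw [hj, conv_pow h']
    exact pow_nonneg hx _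
  · rw [hj, conv_neg h hp hx, conv_pow h', hy]
    split_ifs with he
    · rw [he.neg_one_pow]; norm_num
    · rw [mul_zero]

theorem conv4_nonneg {χ ψ : ArithmeticFunction ℝ} {q q' : ℝ} (h : Chr χ q) (h' : Chr ψ q') (n : ℕ) :
    0 ≤ ((zeta : ArithmeticFunction ℝ) * χ * ψ * (pmul χ ψ)) n := by
  refine conv_of_pp (((conv_zmult.mul (conv_mult h)).mul (conv_mult h')).mul
    ((conv_mult h).pmul (conv_mult h'))) (fun p k hp => ?_) n
  by_cases hy : ψ p = -1
  · by_cases hx : χ p = -1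
    · exact conv4_pp h h' hp k (Or.inr ⟨hx, hy⟩)
    · rw [conv4_swap]
      refine conv4_pp h' h hp k (Or.inl ?_)
      rcases h.val p with h1 | h1 | h1
      · rw [h1]
      · rw [h1]; norm_num
      · exact absurd h1 hx
  · refine conv4_pp h h' hp k (Or.inl ?_)
    rcases h'.val p with h1 | h1 | h1
    · rw [h1]
    · rw [h1]; norm_num
    · exact absurd h1 hy

theorem conv4_one {χ ψ : ArithmeticFunction ℝ} {q q' : ℝ} (h : Chr χ q) (h' : Chr ψ q') :
    ((zeta : ArithmeticFunction ℝ) * χ * ψ * (pmul χ ψ)) 1 = 1 :=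
  (((conv_zmult.mul (conv_mult h)).mul (conv_mult h')).mul ((conv_mult h).pmul (conv_mult h'))).map_one

/-- the convolution of the indicator function of the integers prime to `M` with `χ` -/
theorem copv_nonneg {χ : ArithmeticFunction ℝ} {q : ℝ} (h : Chr χ q) (M : ℕ)
    (hM : ∀ n, ¬ n.Coprime M → χ n = 0) (n : ℕ) : 0 ≤ (cop M * χ) n := by
  have hcop : ∀ m, cop M m = if m ≠ 0 ∧ m.Coprime M then 1 else 0 := fun _ => rfl
  have key : (cop M * χ) n = cop M n * ((zeta : ArithmeticFunction ℝ) * χ) n := by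
    rw [mul_apply, mul_apply, Finset.mul_sum]
    refine Finset.sum_congr rfl fun x hx => ?_
    obtain ⟨h1, h2⟩ := Nat.mem_divisorsAntidiagonal.1 hx
    have h3 : x.1 ≠ 0 := by
      intro h0
      rw [h0, zero_mul] at h1
      exact h2 h1.symm
    rw [natCoe_apply, zeta_apply_ne h3, Nat.cast_one, one_mul, hcop, hcop, ← h1]
    by_cases hc : x.2.Coprime M
    · have : (x.1 ≠ 0 ∧ x.1.Coprime M) ↔ (x.1 * x.2 ≠ 0 ∧ (x.1 * x.2).Coprime M) := by
        rw [Nat.coprime_mul_iff_left]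
        constructor
        · rintro ⟨-, h5⟩
          exact ⟨by rw [h1]; exact h2, h5, hc⟩
        · rintro ⟨-, h5, -⟩
          exact ⟨h3, h5⟩
      simp only [this]
    · rw [hM _ hc, mul_zero, mul_zero]
  rw [key, hcop]
  refine mul_nonneg ?_ (conv2_nonneg h n)
  split_ifs <;> norm_num

end Pool.Agent.LGO.SG
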