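import Mathlib
import Pool.Agent.LGO.SG.Defs

/-!
# LGO/SG: partial sums of characters

Abel summation: for `M < n ≤ N`: `|∑_{M < n ≤ N} χ(n) n ^ (-b)| ≤ 2 q (M + 1) ^ (-b)` (the weights are decreasing and the
sums `∑_{M < n ≤ N} χ(n)` are bounded by `2 q`; with the sums from `1` it is `2 q (M + 1) ^ (-b)` in total).  So the partial sums
are a Cauchy sequence, `Lv` is the limit, and `Lv_tail` since `⌊x⌋ + 1 > x`.
`Lv_one_le`: `x = q`: `|Sm χ 1 q| ≤ 1 + log q` (harmonic sum), tail `≤ 2 q q ^ (-1) = 2`.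
`Lv_le`: `x = 1`: `Sm χ b 1 = 1`, tail `≤ 2 q`.
`Lv_cont`: uniform convergence on `[b₀, ∞)` (tail `≤ 2 q x ^ (-b₀)`) of continuous functions of `b`.
-/

namespace Pool.Agent.LGO.SG

open Filter Topology

variable {χ : ArithmeticFunction ℝ} {q : ℝ}

/-- Abel summation with monotone weights -/
private theorem Tail_abel (h : Chr χ q) {w : ℕ → ℝ} (M : ℕ)
    (hw : ∀ n, M + 1 ≤ n → w (n + 1) ≤ w n) (N : ℕ) (hN : M + 1 ≤ N) :
    |∑ n ∈ Finset.Ioc M N, χ n * w n - (∑ n ∈ Finset.Icc 1 N, χ n) * w N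
      + (∑ n ∈ Finset.Icc 1 M, χ n) * w (M + 1)| ≤ q * (w (M + 1) - w N) := by
  induction N, hN using Nat.le_induction with
  | base =>
    have h1 : Finset.Ioc M (M + 1) = {M + 1} := by
      ext a; simp only [Finset.mem_Ioc, Finset.mem_singleton]; omega
    rw [h1, Finset.sum_singleton, Finset.sum_Icc_succ_top (by omega)]
    have : χ (M + 1) * w (M + 1) - ((∑ n ∈ Finset.Icc 1 M, χ n) + χ (M + 1)) * w (M + 1)
        + (∑ n ∈ Finset.Icc 1 M, χ n) * w (M + 1) = 0 := by ring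
    rw [this]; simp
  | succ N hN ih =>
    have h1 : ∑ n ∈ Finset.Ioc M (N + 1), χ n * w n
        = ∑ n ∈ Finset.Ioc M N, χ n * w n + χ (N + 1) * w (N + 1) := by
      have h2 : Finset.Ioc M (N + 1) = insert (N + 1) (Finset.Ioc M N) := by
        ext a; simp only [Finset.mem_Ioc, Finset.mem_insert]; omega
      rw [h2, Finset.sum_insert (by simp)]; ring
    rw [h1, Finset.sum_Icc_succ_top (by omega)]
    set T := ∑ n ∈ Finset.Ioc M N, χ n * w n
    set S := ∑ n ∈ Finset.Icc 1 N, χ n with hS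
    set S0 := ∑ n ∈ Finset.Icc 1 M, χ n
    have e : T + χ (N + 1) * w (N + 1) - (S + χ (N + 1)) * w (N + 1) + S0 * w (M + 1)
        = (T - S * w N + S0 * w (M + 1)) + S * (w N - w (N + 1)) := by ring
    rw [e]
    have h3 : |S * (w N - w (N + 1))| ≤ q * (w N - w (N + 1)) := by
      rw [abs_mul, abs_of_nonneg (sub_nonneg.2 (hw N hN))]
      exact mul_le_mul_of_nonneg_right (h.sum N) (sub_nonneg.2 (hw N hN))
    calc |T - S * w N + S0 * w (M + 1) + S * (w N - w (N + 1))|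
        ≤ |T - S * w N + S0 * w (M + 1)| + |S * (w N - w (N + 1))| := abs_add_le _ _
      _ ≤ q * (w (M + 1) - w N) + q * (w N - w (N + 1)) := add_le_add ih h3
      _ = q * (w (M + 1) - w (N + 1)) := by ring

private theorem Tail_abel' (h : Chr χ q) {b : ℝ} (hb : 0 ≤ b) (M N : ℕ) (hN : M ≤ N) :
    |∑ n ∈ Finset.Ioc M N, χ n * (n : ℝ) ^ (-b)| ≤ 2 * q * ((M + 1 : ℕ) : ℝ) ^ (-b) := by
  have hq : 0 ≤ q := le_trans zero_le_one h.one_le
  rcases Nat.eq_or_lt_of_le hN with rfl | hlt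
  · simp only [Finset.Ioc_self, Finset.sum_empty, abs_zero]
    positivity
  · have hw : ∀ n, M + 1 ≤ n → (fun n : ℕ => (n : ℝ) ^ (-b)) (n + 1) ≤ (fun n : ℕ => (n : ℝ) ^ (-b)) n := by
      intro n hn
      have hn0 : (0 : ℝ) < n := by exact_mod_cast (by omega : 0 < n)
      exact Real.rpow_le_rpow_of_nonpos hn0 (by push_cast; linarith) (by linarith)
    have h1 := Tail_abel h (w := fun n : ℕ => (n : ℝ) ^ (-b)) M hw N hlt
    have hN0 : (0 : ℝ) ≤ (N : ℝ) ^ (-b) := by positivity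
    have hM0 : (0 : ℝ) ≤ ((M + 1 : ℕ) : ℝ) ^ (-b) := by positivity
    have h2 : |(∑ n ∈ Finset.Icc 1 N, χ n) * (N : ℝ) ^ (-b)| ≤ q * (N : ℝ) ^ (-b) := by
      rw [abs_mul, abs_of_nonneg hN0]
      exact mul_le_mul_of_nonneg_right (h.sum N) hN0
    have h3 : |(∑ n ∈ Finset.Icc 1 M, χ n) * ((M + 1 : ℕ) : ℝ) ^ (-b)| ≤ q * ((M + 1 : ℕ) : ℝ) ^ (-b) := by
      rw [abs_mul, abs_of_nonneg hM0]
      exact mul_le_mul_of_nonneg_right (h.sum M) hM0
    set T := ∑ n ∈ Finset.Ioc M N, χ n * (n : ℝ) ^ (-b)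
    set A := (∑ n ∈ Finset.Icc 1 N, χ n) * (N : ℝ) ^ (-b)
    set B := (∑ n ∈ Finset.Icc 1 M, χ n) * ((M + 1 : ℕ) : ℝ) ^ (-b)
    have h1' : |T - A + B| ≤ q * (((M + 1 : ℕ) : ℝ) ^ (-b) - (N : ℝ) ^ (-b)) := h1
    have e : T = (T - A + B) + A - B := by ring
    have h4 : |T| ≤ |T - A + B| + |A| + |B| := by
      calc |T| = |(T - A + B) + A - B| := by rw [← e]
        _ ≤ |(T - A + B) + A| + |B| := abs_sub _ _
        _ ≤ |T - A + B| + |A| + |B| := by linarith [abs_add_le (T - A + B) A]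
    linarith

private theorem Tail_Sm_sub (b : ℝ) {M N : ℕ} (hMN : M ≤ N) :
    Sm χ b N - Sm χ b M = ∑ n ∈ Finset.Ioc M N, χ n * (n : ℝ) ^ (-b) := by
  have h1 : Finset.Icc 1 N = Finset.Icc 1 M ∪ Finset.Ioc M N := by
    ext a; simp only [Finset.mem_Icc, Finset.mem_union, Finset.mem_Ioc]; omega
  have hd : Disjoint (Finset.Icc 1 M) (Finset.Ioc M N) := by
    rw [Finset.disjoint_left]
    intro a ha hb
    simp only [Finset.mem_Icc, Finset.mem_Ioc] at ha hb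
    omega
  simp only [Sm, Nat.floor_natCast]
  rw [h1, Finset.sum_union hd]; ring

private theorem Tail_bound (h : Chr χ q) {b : ℝ} (hb : 0 ≤ b) {M N : ℕ} (hMN : M ≤ N) :
    |Sm χ b N - Sm χ b M| ≤ 2 * q * ((M + 1 : ℕ) : ℝ) ^ (-b) := by
  rw [Tail_Sm_sub b hMN]; exact Tail_abel' h hb M N hMN

private theorem Tail_zero {b : ℝ} (hb : 0 < b) (q : ℝ) :
    Tendsto (fun M : ℕ => 2 * q * ((M + 1 : ℕ) : ℝ) ^ (-b)) atTop (𝓝 0) := by
  have h1 : Tendsto (fun x : ℝ => x ^ (-b)) atTop (𝓝 0) := tendsto_rpow_neg_atTop hb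
  have h2 : Tendsto (fun M : ℕ => ((M + 1 : ℕ) : ℝ)) atTop atTop :=
    tendsto_natCast_atTop_atTop.comp (tendsto_add_atTop_nat 1)
  simpa using (h1.comp h2).const_mul (2 * q)

private theorem Tail_cauchy (h : Chr χ q) {b : ℝ} (hb : 0 < b) :
    CauchySeq (fun N : ℕ => Sm χ b N) := by
  refine cauchySeq_of_le_tendsto_0 (fun M : ℕ => 2 * (2 * q * ((M + 1 : ℕ) : ℝ) ^ (-b))) ?_ ?_
  · intro n m N hn hm
    have h1 := Tail_bound h hb.le hn
    have h2 := Tail_bound h hb.le hm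
    rw [Real.dist_eq]
    have e : Sm χ b n - Sm χ b m = (Sm χ b n - Sm χ b N) - (Sm χ b m - Sm χ b N) := by ring
    rw [e]
    exact (abs_sub _ _).trans (by linarith)
  · simpa using (Tail_zero hb q).const_mul 2

private theorem Tail_tendsto (h : Chr χ q) {b : ℝ} (hb : 0 < b) :
    Tendsto (fun N : ℕ => Sm χ b N) atTop (𝓝 (Lv χ b)) :=
  (Tail_cauchy h hb).tendsto_limUnder

theorem Lv_tail (h : Chr χ q) {b : ℝ} (hb : 0 < b) {x : ℝ} (hx : 1 ≤ x) :
    |Sm χ b x - Lv χ b| ≤ 2 * q * x ^ (-b) := by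
  have hq : 0 ≤ q := le_trans zero_le_one h.one_le
  have h0 : Sm χ b x = Sm χ b (⌊x⌋₊ : ℝ) := by simp only [Sm, Nat.floor_natCast]
  have h1 : |Sm χ b (⌊x⌋₊ : ℝ) - Lv χ b| ≤ 2 * q * ((⌊x⌋₊ + 1 : ℕ) : ℝ) ^ (-b) := by
    have ht : Tendsto (fun N : ℕ => |Sm χ b (⌊x⌋₊ : ℝ) - Sm χ b N|) atTop
        (𝓝 |Sm χ b (⌊x⌋₊ : ℝ) - Lv χ b|) :=
      (tendsto_const_nhds.sub (Tail_tendsto h hb)).abs
    refine le_of_tendsto ht ?_
    filter_upwards [eventually_ge_atTop ⌊x⌋₊] with N hN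
    rw [abs_sub_comm]
    exact Tail_bound h hb.le hN
  rw [h0]
  refine h1.trans ?_
  have h2 : x ≤ ((⌊x⌋₊ + 1 : ℕ) : ℝ) := by
    push_cast; exact (Nat.lt_floor_add_one x).le
  have h3 : ((⌊x⌋₊ + 1 : ℕ) : ℝ) ^ (-b) ≤ x ^ (-b) :=
    Real.rpow_le_rpow_of_nonpos (by linarith) h2 (by linarith)
  exact mul_le_mul_of_nonneg_left h3 (by linarith)

theorem Lv_one_le (h : Chr χ q) : |Lv χ 1| ≤ 3 + Real.log q := by
  have hq := h.one_le
  have h1 := Lv_tail h (b := 1) one_pos hq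
  have h2 : 2 * q * q ^ (-1 : ℝ) = 2 := by
    rw [Real.rpow_neg_one]; field_simp
  have h3 : |Sm χ 1 q| ≤ 1 + Real.log q := by
    have h4 : |Sm χ 1 q| ≤ ∑ n ∈ Finset.Icc 1 ⌊q⌋₊, ((n : ℝ))⁻¹ := by
      unfold Sm
      refine (Finset.abs_sum_le_sum_abs _ _).trans (Finset.sum_le_sum fun n hn => ?_)
      rw [abs_mul, Real.rpow_neg_one, abs_of_nonneg (by positivity : (0 : ℝ) ≤ ((n : ℝ))⁻¹)]
      have h5 : |χ n| ≤ 1 := by
        rcases h.val n with h6 | h6 | h6 <;> rw [h6] <;> simp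
      calc |χ n| * ((n : ℝ))⁻¹ ≤ 1 * ((n : ℝ))⁻¹ := mul_le_mul_of_nonneg_right h5 (by positivity)
        _ = _ := one_mul _
    have h6 := harmonic_floor_le_one_add_log q hq
    have h7 : ((harmonic ⌊q⌋₊ : ℚ) : ℝ) = ∑ n ∈ Finset.Icc 1 ⌊q⌋₊, ((n : ℝ))⁻¹ := by
      rw [harmonic_eq_sum_Icc]; push_cast; rfl
    rw [h7] at h6
    exact h4.trans h6
  rw [h2] at h1
  have e : Lv χ 1 = Sm χ 1 q - (Sm χ 1 q - Lv χ 1) := by ring
  rw [e]
  exact (abs_sub _ _).trans (by linarith)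

theorem Lv_le (h : Chr χ q) {b : ℝ} (hb : 0 < b) : |Lv χ b| ≤ 3 * q := by
  have hq := h.one_le
  have h1 := Lv_tail h hb (le_refl (1 : ℝ))
  have h2 : Sm χ b 1 = 1 := by
    simp [Sm, h.map_one]
  rw [h2, Real.one_rpow] at h1
  have e : Lv χ b = 1 - (1 - Lv χ b) := by ring
  rw [e]
  refine (abs_sub _ _).trans ?_
  rw [abs_one]; linarith

theorem Lv_cont (h : Chr χ q) : ContinuousOn (Lv χ) (Set.Ioi 0) := by
  have hq : 0 ≤ q := le_trans zero_le_one h.one_le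
  have h1 : TendstoLocallyUniformlyOn (fun (N : ℕ) (b : ℝ) => Sm χ b N) (Lv χ) atTop (Set.Ioi 0) := by
    rw [Metric.tendstoLocallyUniformlyOn_iff]
    intro ε hε b hb
    have hb' : (0 : ℝ) < b := hb
    refine ⟨Set.Ioi (b / 2), mem_nhdsWithin_of_mem_nhds (Ioi_mem_nhds (by linarith)), ?_⟩
    have h2 : Tendsto (fun N : ℕ => 2 * q * (N : ℝ) ^ (-(b / 2))) atTop (𝓝 0) := by
      have h3 : Tendsto (fun x : ℝ => x ^ (-(b / 2))) atTop (𝓝 0) := tendsto_rpow_neg_atTop (by linarith)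
      simpa using (h3.comp tendsto_natCast_atTop_atTop).const_mul (2 * q)
    filter_upwards [h2.eventually (gt_mem_nhds hε), eventually_ge_atTop 1] with N hN hN1 y hy
    have hy' : b / 2 < y := hy
    have hN1' : (1 : ℝ) ≤ N := by exact_mod_cast hN1
    have h4 := Lv_tail h (b := y) (by linarith) hN1'
    rw [dist_comm, Real.dist_eq]
    refine lt_of_le_of_lt (h4.trans ?_) hN
    exact mul_le_mul_of_nonneg_left
      (Real.rpow_le_rpow_of_exponent_le hN1' (by linarith)) (by linarith)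
  refine h1.continuousOn (Frequently.of_forall fun N => ?_)
  unfold Sm
  refine continuousOn_finsetSum _ fun n hn => ?_
  have hn1 : 1 ≤ n := (Finset.mem_Icc.1 hn).1
  have hn0 : (0 : ℝ) < n := by exact_mod_cast (by omega : 0 < n)
  refine continuousOn_const.mul ?_
  refine Continuous.continuousOn ?_
  exact (Real.continuous_const_rpow hn0.ne').comp continuous_neg

theorem Chr.mono {q' : ℝ} (h : Chr χ q) (hq : q ≤ q') : Chr χ q' :=
  ⟨h.one_le.trans hq, h.map_one, h.map_mul, h.val, fun N => (h.sum N).trans hq⟩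

end Pool.Agent.LGO.SG
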