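import Mathlib
import Pool.Agent.LGO.SG.Tail
import Pool.Agent.LGO.SG.Conv

/-!
# LGO/SG: `L(1, χ) > 0`

Hyperbola method at `b = 1/2`: with `y = x ^ (1/2)`, `f = ζ * χ`:
`∑_{n ≤ x} f(n) n ^ (-1/2) = ∑_{d ≤ y} χ(d) d ^ (-1/2) ∑_{m ≤ x / d} m ^ (-1/2) + ∑_{m ≤ x / y} m ^ (-1/2) (X(x / m) - X(y))`, where
`∑_{m ≤ z} m ^ (-1/2) = 2 z ^ (1/2) + c + O(z ^ (-1/2))`, `X(u) = ∑_{d ≤ u} χ(d) d ^ (-1/2) = L + O(q u ^ (-1/2))`.  So it is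
`2 x ^ (1/2) ∑_{d ≤ y} χ(d) / d + O(q) = 2 x ^ (1/2) Lv χ 1 + O(q)` (the tail of `∑ χ(d) / d` is at most `2 q / y`).  On the other
hand it is at least `∑_{n ≤ y} (ζ * χ)(n ^ 2) / n ≥ ∑_{n ≤ y} 1 / n`, unbounded (`conv2_nonneg`, `conv2_sq`).  So `Lv χ 1 > 0`.
-/

namespace Pool.Agent.LGO.SG

open Filter Topology

namespace PosAux

lemma rpow_half (n : ℕ) : (n : ℝ) ^ (-(1 / 2 : ℝ)) = (√(n : ℝ))⁻¹ := by
  rw [Real.rpow_neg (Nat.cast_nonneg n), Real.sqrt_eq_rpow]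

/-- `m ↦ m ^ (-1/2)` -/
noncomputable def A : ArithmeticFunction ℝ := ⟨fun n => (√(n : ℝ))⁻¹, by simp⟩

/-- `d ↦ χ(d) d ^ (-1/2)` -/
noncomputable def B (χ : ArithmeticFunction ℝ) : ArithmeticFunction ℝ :=
  ⟨fun n => χ n * (√(n : ℝ))⁻¹, by simp⟩

lemma A_apply (n : ℕ) : A n = (√(n : ℝ))⁻¹ := rfl

lemma B_apply (χ : ArithmeticFunction ℝ) (n : ℕ) : B χ n = χ n * (√(n : ℝ))⁻¹ := rfl

lemma conv_apply (χ : ArithmeticFunction ℝ) (n : ℕ) :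
    (A * B χ) n = ((ArithmeticFunction.zeta : ArithmeticFunction ℝ) * χ) n * (√(n : ℝ))⁻¹ := by
  rw [ArithmeticFunction.mul_apply, ArithmeticFunction.mul_apply, Finset.sum_mul]
  refine Finset.sum_congr rfl fun x hx => ?_
  rw [Nat.mem_divisorsAntidiagonal] at hx
  have h1 : x.1 ≠ 0 := by
    rintro h
    apply hx.2
    rw [← hx.1, h, zero_mul]
  rw [A_apply, B_apply, ArithmeticFunction.natCoe_apply, ArithmeticFunction.zeta_apply_ne h1,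
    ← hx.1]
  push_cast
  rw [Real.sqrt_mul (Nat.cast_nonneg _), mul_inv]
  ring

lemma part_one {M N : ℕ} (hN : N ≤ M) (g : ℕ → ℕ → ℝ) :
    ∑ x ∈ Finset.Ioc 0 M ×ˢ Finset.Ioc 0 M with x.1 * x.2 ≤ M ∧ x.2 ≤ N, g x.1 x.2 =
      ∑ d ∈ Finset.Ioc 0 N, ∑ m ∈ Finset.Ioc 0 (M / d), g m d := by
  rw [Finset.sum_sigma']
  refine Finset.sum_bij' (fun x _ => ⟨x.2, x.1⟩) (fun y _ => (y.2, y.1)) ?_ ?_ ?_ ?_ ?_
  · rintro ⟨m, d⟩ hx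
    simp only [Finset.mem_filter, Finset.mem_product, Finset.mem_Ioc, Finset.mem_sigma] at hx ⊢
    refine ⟨⟨hx.1.2.1, hx.2.2⟩, hx.1.1.1, ?_⟩
    rw [Nat.le_div_iff_mul_le hx.1.2.1]
    exact hx.2.1
  · rintro ⟨d, m⟩ hy
    simp only [Finset.mem_filter, Finset.mem_product, Finset.mem_Ioc, Finset.mem_sigma] at hy ⊢
    have h1 := hy.2.2
    rw [Nat.le_div_iff_mul_le hy.1.1] at h1
    have h2 : m ≤ M := le_trans (Nat.le_mul_of_pos_right m hy.1.1) h1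
    exact ⟨⟨⟨hy.2.1, h2⟩, hy.1.1, hy.1.2.trans hN⟩, h1, hy.1.2⟩
  · rintro ⟨m, d⟩ _
    rfl
  · rintro ⟨d, m⟩ _
    rfl
  · rintro ⟨m, d⟩ _
    rfl

lemma part_two {N : ℕ} (g : ℕ → ℕ → ℝ) :
    ∑ x ∈ Finset.Ioc 0 (N ^ 2) ×ˢ Finset.Ioc 0 (N ^ 2) with x.1 * x.2 ≤ N ^ 2 ∧ ¬ x.2 ≤ N,
      g x.1 x.2 = ∑ m ∈ Finset.Ioc 0 N, ∑ d ∈ Finset.Ioc N (N ^ 2 / m), g m d := by
  rw [Finset.sum_sigma']
  refine Finset.sum_bij' (fun x _ => ⟨x.1, x.2⟩) (fun y _ => (y.1, y.2)) ?_ ?_ ?_ ?_ ?_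
  · rintro ⟨m, d⟩ hx
    simp only [Finset.mem_filter, Finset.mem_product, Finset.mem_Ioc, Finset.mem_sigma,
      not_le] at hx ⊢
    have h1 : m ≤ N := by
      by_contra hc
      push Not at hc
      have := hx.2.1
      have h3 : N * N < m * d := Nat.mul_lt_mul'' hc hx.2.2
      nlinarith
    refine ⟨⟨hx.1.1.1, h1⟩, hx.2.2, ?_⟩
    rw [Nat.le_div_iff_mul_le hx.1.1.1, mul_comm]
    exact hx.2.1
  · rintro ⟨m, d⟩ hy
    simp only [Finset.mem_filter, Finset.mem_product, Finset.mem_Ioc, Finset.mem_sigma,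
      not_le] at hy ⊢
    have h1 := hy.2.2
    rw [Nat.le_div_iff_mul_le hy.1.1, mul_comm] at h1
    have h2 : d ≤ N ^ 2 := le_trans (Nat.le_mul_of_pos_left d hy.1.1) h1
    have h3 : m ≤ N ^ 2 := hy.1.2.trans (by nlinarith)
    exact ⟨⟨⟨hy.1.1, h3⟩, lt_of_le_of_lt (Nat.zero_le _) hy.2.1, h2⟩, h1, hy.2.1⟩
  · rintro ⟨m, d⟩ _
    rfl
  · rintro ⟨d, m⟩ _
    rfl
  · rintro ⟨m, d⟩ _
    rfl

/-- `∑_{m ≤ k} m ^ (-1/2)` -/
noncomputable def Z (k : ℕ) : ℝ := ∑ m ∈ Finset.Ioc 0 k, (√(m : ℝ))⁻¹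

lemma Z_succ (k : ℕ) : Z (k + 1) = Z k + (√((k : ℝ) + 1))⁻¹ := by
  unfold Z
  rw [Finset.sum_Ioc_succ_top (Nat.zero_le k)]
  push_cast
  rfl

/-- `√(k+1) - √k = 1 / (√(k+1) + √k)` -/
lemma sqrt_diff (k : ℕ) : √((k : ℝ) + 1) - √(k : ℝ) = (√((k : ℝ) + 1) + √(k : ℝ))⁻¹ := by
  have h1 : (0 : ℝ) < √((k : ℝ) + 1) := Real.sqrt_pos.2 (by positivity)
  have h2 : (0 : ℝ) ≤ √(k : ℝ) := Real.sqrt_nonneg _
  have h3 : √((k : ℝ) + 1) ^ 2 = (k : ℝ) + 1 := Real.sq_sqrt (by positivity)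
  have h4 : √(k : ℝ) ^ 2 = (k : ℝ) := Real.sq_sqrt (by positivity)
  refine eq_inv_of_mul_eq_one_left ?_
  nlinarith

lemma sqrt_le_succ (k : ℕ) : √(k : ℝ) ≤ √((k : ℝ) + 1) := Real.sqrt_le_sqrt (by linarith)

lemma anti : Antitone (fun k : ℕ => Z k - 2 * √(k : ℝ)) := by
  refine antitone_nat_of_succ_le fun k => ?_
  push_cast
  rw [Z_succ]
  have h := sqrt_diff k
  have h1 : (0 : ℝ) < √((k : ℝ) + 1) := Real.sqrt_pos.2 (by positivity)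
  have h2 : (0 : ℝ) ≤ √(k : ℝ) := Real.sqrt_nonneg _
  have h3 : (√((k : ℝ) + 1))⁻¹ ≤ 2 * (√((k : ℝ) + 1) + √(k : ℝ))⁻¹ := by
    rw [← div_eq_mul_inv, le_div_iff₀ (by positivity), inv_mul_le_iff₀ h1]
    linarith [sqrt_le_succ k]
  linarith

lemma mono : ∀ k : ℕ, 1 ≤ k → ∀ l : ℕ, k ≤ l →
    Z k - 2 * √(k : ℝ) - (√(k : ℝ))⁻¹ ≤ Z l - 2 * √(l : ℝ) - (√(l : ℝ))⁻¹ := by
  intro k hk l hl
  induction l, hl using Nat.le_induction with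
  | base => exact le_refl _
  | succ l hl ih =>
    refine ih.trans ?_
    push_cast
    rw [Z_succ]
    have hl1 : (1 : ℝ) ≤ (l : ℝ) := by exact_mod_cast hk.trans hl
    have h := sqrt_diff l
    have h1 : (0 : ℝ) < √((l : ℝ) + 1) := Real.sqrt_pos.2 (by positivity)
    have h2 : (0 : ℝ) < √(l : ℝ) := Real.sqrt_pos.2 (by linarith)
    have h3 : 2 * (√((l : ℝ) + 1) + √(l : ℝ))⁻¹ ≤ (√(l : ℝ))⁻¹ := by
      rw [← div_eq_mul_inv, div_le_iff₀ (by positivity), ← div_eq_inv_mul, le_div_iff₀ h2]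
      linarith [sqrt_le_succ l]
    linarith

lemma Z_asy : ∃ c : ℝ, |c| ≤ 2 ∧ ∀ k : ℕ, 1 ≤ k → |Z k - 2 * √(k : ℝ) - c| ≤ (√(k : ℝ))⁻¹ := by
  have hb : ∀ k : ℕ, 1 ≤ k → -2 ≤ Z k - 2 * √(k : ℝ) - (√(k : ℝ))⁻¹ := by
    intro k hk
    have := mono 1 le_rfl k hk
    refine le_trans (le_of_eq ?_) this
    simp [Z]
  have hlb : ∀ k : ℕ, -2 ≤ Z k - 2 * √(k : ℝ) := by
    intro k
    rcases Nat.eq_zero_or_pos k with h0 | h0
    · subst h0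
      simp [Z]
    · have := hb k h0
      have h2 : (0 : ℝ) ≤ (√(k : ℝ))⁻¹ := by positivity
      linarith
  have hbd : BddBelow (Set.range (fun k : ℕ => Z k - 2 * √(k : ℝ))) := by
    refine ⟨-2, ?_⟩
    rintro _ ⟨k, rfl⟩
    exact hlb k
  refine ⟨⨅ k : ℕ, (Z k - 2 * √(k : ℝ)), ?_, ?_⟩
  · rw [abs_le]
    constructor
    · exact le_ciInf hlb
    · refine (ciInf_le hbd 0).trans ?_
      simp [Z]
  · intro k hk
    rw [abs_le]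
    have h2 : (0 : ℝ) ≤ (√(k : ℝ))⁻¹ := by positivity
    constructor
    · have := ciInf_le hbd k
      linarith
    · have h3 : Z k - 2 * √(k : ℝ) - (√(k : ℝ))⁻¹ ≤ ⨅ k : ℕ, (Z k - 2 * √(k : ℝ)) := by
        refine le_ciInf fun l => ?_
        rcases le_total k l with h | h
        · have := mono k hk l h
          have h5 : (0 : ℝ) ≤ (√(l : ℝ))⁻¹ := by positivity
          linarith
        · have h6 : Z k - 2 * √(k : ℝ) ≤ Z l - 2 * √(l : ℝ) := anti h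
          linarith
      linarith

lemma Z_le (k : ℕ) : Z k ≤ 2 * √(k : ℝ) := by
  have h : Z k - 2 * √(k : ℝ) ≤ Z 0 - 2 * √((0 : ℕ) : ℝ) := anti (Nat.zero_le k)
  have h0 : Z 0 = 0 := by simp [Z]
  rw [h0] at h
  simp at h
  linarith

/-- the sums of `χ(d) d ^ (-1/2)` -/
lemma Sm_half (χ : ArithmeticFunction ℝ) (k : ℕ) :
    Sm χ (1 / 2) (k : ℝ) = ∑ d ∈ Finset.Ioc 0 k, B χ d := by
  unfold Sm
  rw [Nat.floor_natCast]
  refine Finset.sum_congr rfl fun d _ => ?_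
  rw [B_apply, rpow_half]

lemma Sm_one (χ : ArithmeticFunction ℝ) (k : ℕ) :
    Sm χ 1 (k : ℝ) = ∑ d ∈ Finset.Ioc 0 k, χ d * (d : ℝ)⁻¹ := by
  unfold Sm
  rw [Nat.floor_natCast]
  refine Finset.sum_congr rfl fun d _ => ?_
  rw [Real.rpow_neg_one]

variable {χ : ArithmeticFunction ℝ} {q : ℝ}

lemma tail_half (h : Chr χ q) {k : ℕ} (hk : 1 ≤ k) :
    |Sm χ (1 / 2) (k : ℝ) - Lv χ (1 / 2)| ≤ 2 * q * (√(k : ℝ))⁻¹ := by
  have := Lv_tail h (b := 1 / 2) (by norm_num) (x := (k : ℝ)) (by exact_mod_cast hk)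
  rwa [rpow_half] at this

/-- second part of the hyperbola sum -/
lemma second (h : Chr χ q) {N : ℕ} (hN : 1 ≤ N) :
    |∑ m ∈ Finset.Ioc 0 N, ∑ d ∈ Finset.Ioc N (N ^ 2 / m), A m * B χ d| ≤ 8 * q := by
  have hq : 0 ≤ q := zero_le_one.trans h.one_le
  have hN0 : (0 : ℝ) < √(N : ℝ) := Real.sqrt_pos.2 (by exact_mod_cast hN)
  have hin : ∀ m ∈ Finset.Ioc 0 N, |∑ d ∈ Finset.Ioc N (N ^ 2 / m), A m * B χ d| ≤
      (√(m : ℝ))⁻¹ * (4 * q * (√(N : ℝ))⁻¹) := by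
    intro m hm
    rw [Finset.mem_Ioc] at hm
    have hNm : N ≤ N ^ 2 / m := by
      rw [Nat.le_div_iff_mul_le hm.1, sq]
      exact Nat.mul_le_mul_left N hm.2
    rw [← Finset.mul_sum, abs_mul, A_apply, abs_of_nonneg (by positivity)]
    refine mul_le_mul_of_nonneg_left ?_ (by positivity)
    have h1 : ∑ d ∈ Finset.Ioc N (N ^ 2 / m), B χ d =
        Sm χ (1 / 2) ((N ^ 2 / m : ℕ) : ℝ) - Sm χ (1 / 2) (N : ℝ) := by
      rw [Sm_half, Sm_half, ← Finset.sum_Ioc_consecutive _ (Nat.zero_le N) hNm]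
      ring
    rw [h1]
    have h2 := tail_half h (hN.trans hNm)
    have h3 := tail_half h hN
    have h4 : (√((N ^ 2 / m : ℕ) : ℝ))⁻¹ ≤ (√(N : ℝ))⁻¹ := by
      refine inv_anti₀ hN0 (Real.sqrt_le_sqrt ?_)
      exact_mod_cast hNm
    have h5 : 2 * q * (√((N ^ 2 / m : ℕ) : ℝ))⁻¹ ≤ 2 * q * (√(N : ℝ))⁻¹ :=
      mul_le_mul_of_nonneg_left h4 (by linarith)
    rw [abs_le] at h2 h3 ⊢
    constructor <;> linarith [h2.1, h2.2, h3.1, h3.2]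
  refine (Finset.abs_sum_le_sum_abs _ _).trans ((Finset.sum_le_sum hin).trans ?_)
  rw [← Finset.sum_mul]
  have h6 : ∑ m ∈ Finset.Ioc 0 N, (√(m : ℝ))⁻¹ ≤ 2 * √(N : ℝ) := Z_le N
  have h7 : (0 : ℝ) ≤ 4 * q * (√(N : ℝ))⁻¹ := by positivity
  refine (mul_le_mul_of_nonneg_right h6 h7).trans (le_of_eq ?_)
  field_simp
  ring

/-- the sum `Z` at the quotient `N² / d` -/
lemma Z_quot {c : ℝ} (hc : ∀ k : ℕ, 1 ≤ k → |Z k - 2 * √(k : ℝ) - c| ≤ (√(k : ℝ))⁻¹) {N d : ℕ}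
    (hd : 0 < d) (hdN : d ≤ N) :
    |Z (N ^ 2 / d) - 2 * ((N : ℝ) * (√(d : ℝ))⁻¹) - c| ≤ 4 * (√(d : ℝ) * (N : ℝ)⁻¹) := by
  set k := N ^ 2 / d with hk
  have hN : 0 < N := lt_of_lt_of_le hd hdN
  have hk1 : 1 ≤ k := by
    rw [hk, Nat.le_div_iff_mul_le hd, one_mul]
    nlinarith
  have hdR : (0 : ℝ) < (d : ℝ) := by exact_mod_cast hd
  have hNR : (0 : ℝ) < (N : ℝ) := by exact_mod_cast hN
  have hsd : (0 : ℝ) < √(d : ℝ) := Real.sqrt_pos.2 hdR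
  have hkR : (1 : ℝ) ≤ (k : ℝ) := by exact_mod_cast hk1
  have hsk : (0 : ℝ) < √(k : ℝ) := Real.sqrt_pos.2 (by linarith)
  have hx : (N : ℝ) * (√(d : ℝ))⁻¹ = √((N : ℝ) ^ 2 / d) := by
    rw [Real.sqrt_div (by positivity), Real.sqrt_sq hNR.le]
    rfl
  have hlow : (k : ℝ) ≤ (N : ℝ) ^ 2 / d := by
    rw [le_div_iff₀ hdR]
    have := Nat.div_mul_le_self (N ^ 2) d
    exact_mod_cast this
  have hup : (N : ℝ) ^ 2 / d ≤ (k : ℝ) + 1 := by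
    rw [div_le_iff₀ hdR]
    have h0 := (Nat.lt_mul_div_succ (N ^ 2) hd).le
    rw [← hk] at h0
    have h00 : ((N ^ 2 : ℕ) : ℝ) ≤ ((d * (k + 1) : ℕ) : ℝ) := by exact_mod_cast h0
    push_cast at h00
    linarith
  have h1 : √(k : ℝ) ≤ (N : ℝ) * (√(d : ℝ))⁻¹ := by
    rw [hx]
    exact Real.sqrt_le_sqrt hlow
  have h2 : (N : ℝ) * (√(d : ℝ))⁻¹ ≤ √((k : ℝ) + 1) := by
    rw [hx]
    exact Real.sqrt_le_sqrt hup
  have h3 : √((k : ℝ) + 1) - √(k : ℝ) ≤ (√(k : ℝ))⁻¹ / 2 := by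
    rw [sqrt_diff k, div_eq_mul_inv, ← mul_inv]
    exact inv_anti₀ (by positivity) (by linarith [sqrt_le_succ k])
  have h4 := hc k hk1
  have h5 : (√(k : ℝ))⁻¹ ≤ 2 * (√(d : ℝ) * (N : ℝ)⁻¹) := by
    have h6 : √((k : ℝ) + 1) ≤ 2 * √(k : ℝ) := by
      have : √((k : ℝ) + 1) - √(k : ℝ) ≤ √(k : ℝ) := by
        refine h3.trans ?_
        have h8 : (1 : ℝ) ≤ √(k : ℝ) := by
          rw [show (1 : ℝ) = √1 by simp]
          exact Real.sqrt_le_sqrt hkR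
        have h9 : (√(k : ℝ))⁻¹ ≤ 1 := inv_le_one_of_one_le₀ h8
        linarith
      linarith
    have h7 : (N : ℝ) * (√(d : ℝ))⁻¹ ≤ 2 * √(k : ℝ) := h2.trans h6
    have h10 : (2 * √(k : ℝ))⁻¹ ≤ ((N : ℝ) * (√(d : ℝ))⁻¹)⁻¹ := inv_anti₀ (by positivity) h7
    rw [mul_inv, mul_inv, inv_inv] at h10
    have h11 : (√(k : ℝ))⁻¹ = 2 * (2⁻¹ * (√(k : ℝ))⁻¹) := by ring
    rw [h11]
    have h12 : √(d : ℝ) * (N : ℝ)⁻¹ = (N : ℝ)⁻¹ * √(d : ℝ) := mul_comm _ _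
    rw [h12]
    linarith
  rw [abs_le] at h4 ⊢
  constructor <;> linarith [h4.1, h4.2]

/-- first part of the hyperbola sum -/
lemma first (h : Chr χ q) {c : ℝ} (hc2 : |c| ≤ 2)
    (hc : ∀ k : ℕ, 1 ≤ k → |Z k - 2 * √(k : ℝ) - c| ≤ (√(k : ℝ))⁻¹) {N : ℕ} (hN : 1 ≤ N) :
    ∑ d ∈ Finset.Ioc 0 N, ∑ m ∈ Finset.Ioc 0 (N ^ 2 / d), A m * B χ d ≤
      2 * (N : ℝ) * Lv χ 1 + (4 * q + 2 * (|Lv χ (1 / 2)| + 2 * q) + 4) := by
  have hq : 0 ≤ q := zero_le_one.trans h.one_le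
  have hNR : (0 : ℝ) < (N : ℝ) := by exact_mod_cast hN
  have h1 : ∀ d ∈ Finset.Ioc 0 N, ∑ m ∈ Finset.Ioc 0 (N ^ 2 / d), A m * B χ d ≤
      2 * (N : ℝ) * (χ d * (d : ℝ)⁻¹) + c * B χ d + 4 * (N : ℝ)⁻¹ := by
    intro d hd
    rw [Finset.mem_Ioc] at hd
    have hdR : (0 : ℝ) < (d : ℝ) := by exact_mod_cast hd.1
    have hsd : (0 : ℝ) < √(d : ℝ) := Real.sqrt_pos.2 hdR
    rw [← Finset.sum_mul]
    have h2 := Z_quot hc hd.1 hd.2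
    have h3 : ∑ m ∈ Finset.Ioc 0 (N ^ 2 / d), A m = Z (N ^ 2 / d) := rfl
    rw [h3]
    set E := Z (N ^ 2 / d) - 2 * ((N : ℝ) * (√(d : ℝ))⁻¹) - c with hE
    have h4 : Z (N ^ 2 / d) = 2 * ((N : ℝ) * (√(d : ℝ))⁻¹) + c + E := by rw [hE]; ring
    rw [h4]
    have h5 : (√(d : ℝ))⁻¹ * (√(d : ℝ))⁻¹ = (d : ℝ)⁻¹ := by
      rw [← mul_inv, Real.mul_self_sqrt hdR.le]
    have h6 : |E * B χ d| ≤ 4 * (N : ℝ)⁻¹ := by
      rw [abs_mul, B_apply, abs_mul, abs_of_nonneg (by positivity : (0 : ℝ) ≤ (√(d : ℝ))⁻¹)]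
      have h7 : |χ d| ≤ 1 := by
        rcases h.val d with h8 | h8 | h8 <;> rw [h8] <;> simp
      calc |E| * (|χ d| * (√(d : ℝ))⁻¹) ≤ 4 * (√(d : ℝ) * (N : ℝ)⁻¹) * (1 * (√(d : ℝ))⁻¹) := by
            gcongr
        _ = 4 * (N : ℝ)⁻¹ := by
            field_simp
    have h9 := (abs_le.1 h6).2
    have h10 : (2 * ((N : ℝ) * (√(d : ℝ))⁻¹) + c + E) * B χ d =
        2 * (N : ℝ) * (χ d * ((√(d : ℝ))⁻¹ * (√(d : ℝ))⁻¹)) + c * B χ d + E * B χ d := by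
      rw [B_apply]
      ring
    rw [h10, h5]
    linarith
  refine (Finset.sum_le_sum h1).trans ?_
  rw [Finset.sum_add_distrib, Finset.sum_add_distrib, ← Finset.mul_sum, ← Finset.mul_sum,
    ← Sm_one, ← Sm_half]
  have h2 := Lv_tail h (b := 1) (by norm_num) (x := (N : ℝ)) (by exact_mod_cast hN)
  rw [Real.rpow_neg_one] at h2
  have h3 : 2 * (N : ℝ) * Sm χ 1 (N : ℝ) ≤ 2 * (N : ℝ) * Lv χ 1 + 4 * q := by
    have h4 := (abs_le.1 h2).2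
    have h5 : 2 * (N : ℝ) * (Sm χ 1 (N : ℝ) - Lv χ 1) ≤ 2 * (N : ℝ) * (2 * q * (N : ℝ)⁻¹) :=
      mul_le_mul_of_nonneg_left h4 (by positivity)
    have h6 : 2 * (N : ℝ) * (2 * q * (N : ℝ)⁻¹) = 4 * q := by
      field_simp
      ring
    linarith
  have h4 : c * Sm χ (1 / 2) (N : ℝ) ≤ 2 * (|Lv χ (1 / 2)| + 2 * q) := by
    refine (le_abs_self _).trans ?_
    rw [abs_mul]
    have h5 := tail_half h hN
    have h6 : (√(N : ℝ))⁻¹ ≤ 1 := by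
      refine inv_le_one_of_one_le₀ ?_
      rw [show (1 : ℝ) = √1 by simp]
      exact Real.sqrt_le_sqrt (by exact_mod_cast hN)
    have h7 : 2 * q * (√(N : ℝ))⁻¹ ≤ 2 * q := by
      have := mul_le_mul_of_nonneg_left h6 (by linarith : (0 : ℝ) ≤ 2 * q)
      linarith
    have h8 : |Sm χ (1 / 2) (N : ℝ)| ≤ |Lv χ (1 / 2)| + 2 * q := by
      have h9 : |Sm χ (1 / 2) (N : ℝ)| ≤
          |Sm χ (1 / 2) (N : ℝ) - Lv χ (1 / 2)| + |Lv χ (1 / 2)| := by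
        have := abs_add_le (Sm χ (1 / 2) (N : ℝ) - Lv χ (1 / 2)) (Lv χ (1 / 2))
        rwa [sub_add_cancel] at this
      linarith
    exact mul_le_mul hc2 h8 (abs_nonneg _) (by norm_num)
  have h5 : ∑ _d ∈ Finset.Ioc 0 N, 4 * (N : ℝ)⁻¹ = 4 := by
    rw [Finset.sum_const, Nat.card_Ioc, nsmul_eq_mul, Nat.sub_zero]
    field_simp
  rw [h5]
  linarith

/-- the lower bound from the squares -/
lemma lower (h : Chr χ q) (N : ℕ) : ∑ k ∈ Finset.range N, (1 / ((k : ℝ) + 1)) ≤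
    ∑ n ∈ Finset.Ioc 0 (N ^ 2), (A * B χ) n := by
  have hinj : Set.InjOn (fun k : ℕ => (k + 1) ^ 2) (Finset.range N : Set ℕ) := by
    intro a _ b _ hab
    have h1 : a + 1 = b + 1 := Nat.pow_left_injective two_ne_zero hab
    omega
  have hsub : (Finset.range N).image (fun k : ℕ => (k + 1) ^ 2) ⊆ Finset.Ioc 0 (N ^ 2) := by
    intro n hn
    rw [Finset.mem_image] at hn
    obtain ⟨k, hk, rfl⟩ := hn
    rw [Finset.mem_range] at hk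
    rw [Finset.mem_Ioc]
    exact ⟨by positivity, Nat.pow_le_pow_left hk 2⟩
  have h0 : ∀ n ∈ Finset.Ioc 0 (N ^ 2), n ∉ (Finset.range N).image (fun k : ℕ => (k + 1) ^ 2) →
      0 ≤ (A * B χ) n := by
    intro n _ _
    rw [conv_apply]
    exact mul_nonneg (conv2_nonneg h n) (by positivity)
  refine le_trans ?_ (Finset.sum_le_sum_of_subset_of_nonneg hsub h0)
  rw [Finset.sum_image hinj]
  refine Finset.sum_le_sum fun k _ => ?_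
  rw [conv_apply]
  have h1 := conv2_sq h (Nat.succ_pos k)
  have h2 : √(((k + 1) ^ 2 : ℕ) : ℝ) = (k : ℝ) + 1 := by
    push_cast
    exact Real.sqrt_sq (by positivity)
  rw [h2, one_div]
  have h3 : (0 : ℝ) ≤ ((k : ℝ) + 1)⁻¹ := by positivity
  have h4 := mul_le_mul_of_nonneg_right h1 h3
  rw [one_mul] at h4
  exact h4

end PosAux

theorem Lv_pos {χ : ArithmeticFunction ℝ} {q : ℝ} (h : Chr χ q) : 0 < Lv χ 1 := by
  by_contra hL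
  push Not at hL
  obtain ⟨c, hc2, hc⟩ := PosAux.Z_asy
  set C : ℝ := (4 * q + 2 * (|Lv χ (1 / 2)| + 2 * q) + 4) + 8 * q with hC
  have key : ∀ N : ℕ, 1 ≤ N → ∑ k ∈ Finset.range N, (1 / ((k : ℝ) + 1)) ≤ C := by
    intro N hN
    refine (PosAux.lower h N).trans ?_
    rw [ArithmeticFunction.sum_Ioc_mul_eq_sum_prod_filter,
      ← Finset.sum_filter_add_sum_filter_not _ (fun x : ℕ × ℕ => x.2 ≤ N), Finset.filter_filter,
      Finset.filter_filter,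
      PosAux.part_one (Nat.le_self_pow two_ne_zero N) (fun m d => PosAux.A m * PosAux.B χ d),
      PosAux.part_two (fun m d => PosAux.A m * PosAux.B χ d)]
    have h1 := PosAux.first h hc2 hc hN
    have h2 := (abs_le.1 (PosAux.second h hN)).2
    have h3 : 2 * (N : ℝ) * Lv χ 1 ≤ 0 := mul_nonpos_of_nonneg_of_nonpos (by positivity) hL
    linarith
  obtain ⟨N, hN1, hN2⟩ := ((Real.tendsto_sum_range_one_div_nat_succ_atTop.eventually_gt_atTop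
    C).and (eventually_ge_atTop 1)).exists
  exact absurd (key N hN2) (not_le.2 hN1)

end Pool.Agent.LGO.SG
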