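import Mathlib
import Pool.Agent.LGO.SG.Tail
import Pool.Agent.LGO.SG.Pos
import Pool.Agent.LGO.SG.One
import Pool.Agent.LGO.SG.Jac

/-!
# LGO/SG: characters of the same quadratic field

`rem`: for a prime `p`, `χ'(n) = χ(n)` if `p ∤ n` and `0` otherwise is a character with bound `2 q`, and
`Lv χ' 1 = (1 - χ(p) / p) Lv χ 1`: `∑_{n ≤ N} χ'(n) / n = ∑_{n ≤ N} χ(n) / n - (χ(p) / p) ∑_{n ≤ N / p} χ(n) / n`.
`same`: `m m' = k²`, so `(m / n) = (m' / n)` for odd `n` prime to `m m'`.  Removing from `jc m` the primes of `m'` and from `jc m'` the primes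
of `m` gives the same function, so `Lv (jc m) 1 ∏_{p | m'} (1 - χ_m(p)/p) = Lv (jc m') 1 ∏_{p | m} (1 - χ_m'(p)/p)`; the first product is at
most `∏_{p | m'} (1 + 1/p) ≤ 2 ^ |m'|`, the second one at least `kap |m| ≥ 1 / (1 + logb 2 |m|)` (`kap_ge`).
-/

namespace Pool.Agent.LGO.SG

open Filter Topology ArithmeticFunction

/-- remove the multiples of `p` -/
noncomputable def rmv (p : ℕ) (χ : ArithmeticFunction ℝ) : ArithmeticFunction ℝ :=
  ⟨fun n => if p ∣ n then 0 else χ n, by simp⟩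

private lemma Same_rmv_apply (p : ℕ) (χ : ArithmeticFunction ℝ) (n : ℕ) :
    rmv p χ n = if p ∣ n then 0 else χ n := rfl

private lemma Same_mult (F : ℕ → ℝ) {p : ℕ} (hp : 0 < p) (N : ℕ) :
    ∑ n ∈ Finset.Icc 1 N, (if p ∣ n then F n else 0) = ∑ m ∈ Finset.Icc 1 (N / p), F (p * m) := by
  rw [← Finset.sum_filter]
  symm
  refine Finset.sum_bij (fun m _ => p * m) ?_ ?_ ?_ ?_
  · intro m hm
    rw [Finset.mem_Icc] at hm
    rw [Finset.mem_filter, Finset.mem_Icc]
    refine ⟨⟨Nat.mul_pos hp hm.1, ?_⟩, dvd_mul_right _ _⟩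
    calc p * m ≤ p * (N / p) := Nat.mul_le_mul_left _ hm.2
      _ ≤ N := Nat.mul_div_le N p
  · intro m _ m' _ h
    exact Nat.eq_of_mul_eq_mul_left hp h
  · intro n hn
    rw [Finset.mem_filter, Finset.mem_Icc] at hn
    obtain ⟨⟨h1, h2⟩, ⟨m, rfl⟩⟩ := hn
    refine ⟨m, ?_, rfl⟩
    rw [Finset.mem_Icc]
    refine ⟨Nat.pos_of_mul_pos_left h1, ?_⟩
    rw [Nat.le_div_iff_mul_le hp]
    rwa [mul_comm]
  · intro m _
    rfl

private lemma Same_abs_le {χ : ArithmeticFunction ℝ} {q : ℝ} (h : Chr χ q) (n : ℕ) : |χ n| ≤ 1 := by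
  rcases h.val n with h1 | h1 | h1 <;> rw [h1] <;> norm_num

private lemma Same_tendsto {χ : ArithmeticFunction ℝ} {q : ℝ} (h : Chr χ q) :
    Tendsto (fun N : ℕ => Sm χ 1 N) atTop (𝓝 (Lv χ 1)) := by
  rw [tendsto_iff_dist_tendsto_zero]
  have h1 : Tendsto (fun N : ℕ => 2 * q * ((N : ℝ) ^ (-1 : ℝ))) atTop (𝓝 0) := by
    have h2 : Tendsto (fun N : ℕ => ((N : ℝ) ^ (-1 : ℝ))) atTop (𝓝 0) := by
      have h3 := (tendsto_rpow_neg_atTop (y := (1 : ℝ)) one_pos).comp tendsto_natCast_atTop_atTop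
      exact h3
    simpa using h2.const_mul (2 * q)
  refine tendsto_of_tendsto_of_tendsto_of_le_of_le' tendsto_const_nhds h1 ?_ ?_
  · exact Eventually.of_forall fun N => dist_nonneg
  · filter_upwards [eventually_ge_atTop 1] with N hN
    rw [Real.dist_eq]
    exact Lv_tail h one_pos (by exact_mod_cast hN)

theorem rem {χ : ArithmeticFunction ℝ} {q : ℝ} (h : Chr χ q) {p : ℕ} (hp : p.Prime) :
    Chr (rmv p χ) (2 * q) ∧ Lv (rmv p χ) 1 = (1 - χ p / p) * Lv χ 1 := by
  have hp0 : (p : ℝ) ≠ 0 := by exact_mod_cast hp.ne_zero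
  -- the sum of `χ'`
  have hs : ∀ (w : ℕ → ℝ) (N : ℕ), ∑ n ∈ Finset.Icc 1 N, rmv p χ n * w n =
      ∑ n ∈ Finset.Icc 1 N, χ n * w n - χ p * ∑ m ∈ Finset.Icc 1 (N / p), χ m * w (p * m) := by
    intro w N
    have h1 : ∀ n, rmv p χ n * w n = χ n * w n - (if p ∣ n then χ n * w n else 0) := by
      intro n
      rw [Same_rmv_apply]
      split_ifs <;> ring
    rw [Finset.sum_congr rfl fun n _ => h1 n, Finset.sum_sub_distrib,
      Same_mult (fun n => χ n * w n) hp.pos, Finset.mul_sum]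
    congr 1
    refine Finset.sum_congr rfl fun m _ => ?_
    rw [h.map_mul]
    ring
  have hC : Chr (rmv p χ) (2 * q) := by
    refine ⟨by linarith [h.one_le], ?_, ?_, ?_, ?_⟩
    · rw [Same_rmv_apply, if_neg (by rw [Nat.dvd_one]; exact hp.ne_one)]
      exact h.map_one
    · intro m n
      rw [Same_rmv_apply, Same_rmv_apply, Same_rmv_apply]
      by_cases h1 : p ∣ m
      · rw [if_pos (h1.mul_right n), if_pos h1, zero_mul]
      · by_cases h2 : p ∣ n
        · rw [if_pos (h2.mul_left m), if_pos h2, mul_zero]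
        · rw [if_neg (fun h3 => ((hp.dvd_mul).1 h3).elim h1 h2), if_neg h1, if_neg h2, h.map_mul]
    · intro n
      rw [Same_rmv_apply]
      split_ifs
      · exact Or.inl rfl
      · exact h.val n
    · intro N
      have h1 := hs (fun _ => 1) N
      simp only [mul_one] at h1
      rw [h1]
      refine (abs_sub _ _).trans ?_
      rw [abs_mul]
      have h2 := h.sum N
      have h3 := h.sum (N / p)
      have h4 := Same_abs_le h p
      nlinarith [abs_nonneg (χ p), abs_nonneg (∑ n ∈ Finset.Icc 1 (N / p), χ n)]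
  refine ⟨hC, ?_⟩
  have e : ∀ N : ℕ, Sm (rmv p χ) 1 N = Sm χ 1 N - χ p / p * Sm χ 1 ((N / p : ℕ) : ℝ) := by
    intro N
    have h1 := hs (fun n => (n : ℝ) ^ (-1 : ℝ)) N
    unfold Sm
    rw [Nat.floor_natCast, Nat.floor_natCast, h1, Finset.mul_sum, Finset.mul_sum]
    congr 1
    refine Finset.sum_congr rfl fun m _ => ?_
    rw [Nat.cast_mul, Real.mul_rpow (Nat.cast_nonneg _) (Nat.cast_nonneg _), Real.rpow_neg_one,
      Real.rpow_neg_one]
    ring
  have t1 := Same_tendsto hC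
  have t2 : Tendsto (fun N : ℕ => Sm χ 1 N - χ p / p * Sm χ 1 ((N / p : ℕ) : ℝ)) atTop
      (𝓝 (Lv χ 1 - χ p / p * Lv χ 1)) := by
    have h1 := Same_tendsto h
    have h2 : Tendsto (fun N : ℕ => N / p) atTop atTop := by
      rw [tendsto_atTop]
      intro b
      filter_upwards [eventually_ge_atTop (b * p)] with N hN
      rwa [Nat.le_div_iff_mul_le hp.pos]
    exact h1.sub ((h1.comp h2).const_mul _)
  have h3 := tendsto_nhds_unique t1 (t2.congr fun N => (e N).symm)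
  rw [h3]
  ring

/-- remove the multiples of the elements of `S` -/
private noncomputable def Same_rmS (S : Finset ℕ) (χ : ArithmeticFunction ℝ) : ArithmeticFunction ℝ :=
  ⟨fun n => if ∃ p ∈ S, p ∣ n then 0 else χ n, by simp⟩

private lemma Same_rmS_apply (S : Finset ℕ) (χ : ArithmeticFunction ℝ) (n : ℕ) :
    Same_rmS S χ n = if ∃ p ∈ S, p ∣ n then 0 else χ n := rfl

private lemma Same_rmS_spec {χ : ArithmeticFunction ℝ} {q : ℝ} (h : Chr χ q) (S : Finset ℕ)
    (hS : ∀ p ∈ S, p.Prime) :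
    (∃ q', Chr (Same_rmS S χ) q') ∧ Lv (Same_rmS S χ) 1 = (∏ p ∈ S, (1 - χ p / p)) * Lv χ 1 := by
  induction S using Finset.induction_on with
  | empty =>
    have e : Same_rmS ∅ χ = χ := by
      ext n
      rw [Same_rmS_apply]
      simp
    rw [e]
    exact ⟨⟨q, h⟩, by simp⟩
  | insert p S hpS ih =>
    obtain ⟨⟨q', hq'⟩, h1⟩ := ih fun r hr => hS r (Finset.mem_insert_of_mem hr)
    have hp : p.Prime := hS p (Finset.mem_insert_self _ _)
    obtain ⟨h2, h3⟩ := rem hq' hp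
    have e : Same_rmS (insert p S) χ = rmv p (Same_rmS S χ) := by
      ext n
      rw [Same_rmS_apply, Same_rmv_apply, Same_rmS_apply]
      by_cases h4 : p ∣ n
      · rw [if_pos ⟨p, Finset.mem_insert_self _ _, h4⟩, if_pos h4]
      · rw [if_neg h4]
        by_cases h5 : ∃ r ∈ S, r ∣ n
        · obtain ⟨r, hr, hrn⟩ := h5
          rw [if_pos ⟨r, Finset.mem_insert_of_mem hr, hrn⟩, if_pos ⟨r, hr, hrn⟩]
        · rw [if_neg h5, if_neg]
          rintro ⟨r, hr, hrn⟩
          rcases Finset.mem_insert.1 hr with rfl | hr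
          · exact h4 hrn
          · exact h5 ⟨r, hr, hrn⟩
    have hpv : Same_rmS S χ p = χ p := by
      rw [Same_rmS_apply, if_neg]
      rintro ⟨r, hr, hrp⟩
      have := (Nat.prime_dvd_prime_iff_eq (hS r (Finset.mem_insert_of_mem hr)) hp).1 hrp
      exact hpS (this ▸ hr)
    rw [e]
    refine ⟨⟨_, h2⟩, ?_⟩
    rw [h3, hpv, h1, Finset.prod_insert hpS]
    ring

theorem same {m' : ℤ} (hm' : m' < 0) : ∃ c : ℝ, 0 < c ∧ ∀ m : ℤ, m < 0 → IsSquare (m * m') →
    c / (1 + Real.logb 2 |(m : ℝ)|) ≤ Lv (jc m) 1 := by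
  have hns : ∀ m : ℤ, m < 0 → ¬ IsSquare m := by
    rintro m hm ⟨k, hk⟩
    nlinarith [mul_self_nonneg k]
  have hC' := chr_jc (hns m' hm')
  have hL' := Lv_pos hC'
  set P' := m'.natAbs.primeFactors with hP'
  refine ⟨Lv (jc m') 1 / 2 ^ P'.card, by positivity, ?_⟩
  intro m hm hsq
  have hC := chr_jc (hns m hm)
  have hL := Lv_pos hC
  set P := m.natAbs.primeFactors with hP
  have hPp : ∀ p ∈ P, p.Prime := fun p hp => Nat.prime_of_mem_primeFactors hp
  have hPp' : ∀ p ∈ P', p.Prime := fun p hp => Nat.prime_of_mem_primeFactors hp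
  have hm0 : m.natAbs ≠ 0 := Int.natAbs_ne_zero.2 hm.ne
  have hm0' : m'.natAbs ≠ 0 := Int.natAbs_ne_zero.2 hm'.ne
  -- the values at non-coprime integers
  have hz : ∀ (a : ℤ) (n : ℕ), (∃ p ∈ a.natAbs.primeFactors, p ∣ n) → jc a n = 0 := by
    rintro a n ⟨p, hp, hpn⟩
    apply jc_eq_zero
    intro hco
    have hpr := Nat.prime_of_mem_primeFactors hp
    exact Nat.not_coprime_of_dvd_of_dvd hpr.one_lt hpn
      ((Nat.dvd_of_mem_primeFactors hp).mul_left 2) hco
  have e : Same_rmS P' (jc m) = Same_rmS P (jc m') := by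
    ext n
    rw [Same_rmS_apply, Same_rmS_apply]
    by_cases h1 : ∃ p ∈ P', p ∣ n
    · rw [if_pos h1]
      by_cases h2 : ∃ p ∈ P, p ∣ n
      · rw [if_pos h2]
      · rw [if_neg h2, hz m' n h1]
    · rw [if_neg h1]
      by_cases h2 : ∃ p ∈ P, p ∣ n
      · rw [if_pos h2, hz m n h2]
      · rw [if_neg h2]
        by_cases h0 : n = 0
        · rw [h0]; simp
        by_cases hodd : Odd n
        · have hco : ∀ a : ℤ, a.natAbs ≠ 0 → (¬ ∃ p ∈ a.natAbs.primeFactors, p ∣ n) → a.gcd n = 1 := by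
            intro a ha h3
            rw [Int.gcd, Int.natAbs_natCast]
            refine Nat.coprime_of_dvd fun p hp h4 h5 => h3 ⟨p, ?_, h5⟩
            exact Nat.mem_primeFactors.2 ⟨hp, h4, ha⟩
          have h3 := hco m hm0 h2
          have h4 := hco m' hm0' h1
          show (if Odd n then (jacobiSym m n : ℝ) else 0) = if Odd n then (jacobiSym m' n : ℝ) else 0
          rw [if_pos hodd, if_pos hodd]
          have h5 : jacobiSym m n * jacobiSym m' n ≥ 0 := by
            obtain ⟨k, hk⟩ := hsq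
            rw [← jacobiSym.mul_left, hk, jacobiSym.mul_left]
            exact mul_self_nonneg _
          rcases jacobiSym.eq_one_or_neg_one h3 with h6 | h6 <;>
            rcases jacobiSym.eq_one_or_neg_one h4 with h7 | h7 <;> rw [h6, h7] at h5 ⊢ <;>
            norm_num at h5
        · show (if Odd n then (jacobiSym m n : ℝ) else 0) = if Odd n then (jacobiSym m' n : ℝ) else 0
          rw [if_neg hodd, if_neg hodd]
  have s1 := (Same_rmS_spec hC P' hPp').2
  have s2 := (Same_rmS_spec hC' P hPp).2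
  rw [e, s2] at s1
  -- the two products
  have b1 : ∏ p ∈ P', (1 - jc m p / p) ≤ 2 ^ P'.card := by
    rw [← Finset.prod_const]
    refine Finset.prod_le_prod (fun p hp => ?_) fun p hp => ?_
    · have h1 := Same_abs_le hC p
      have h2 : (1 : ℝ) < p := by exact_mod_cast (hPp' p hp).one_lt
      rw [abs_le] at h1
      have h3 : jc m p / p ≤ 1 := by
        rw [div_le_one (by linarith)]
        linarith [h1.2]
      linarith
    · have h1 := Same_abs_le hC p
      have h2 : (1 : ℝ) < p := by exact_mod_cast (hPp' p hp).one_lt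
      rw [abs_le] at h1
      have h3 : -1 ≤ jc m p / p := by
        rw [le_div_iff₀ (by linarith)]
        linarith [h1.1]
      linarith
  have b2 : kap m.natAbs ≤ ∏ p ∈ P, (1 - jc m' p / p) := by
    unfold kap
    refine Finset.prod_le_prod (fun p hp => ?_) fun p hp => ?_
    · have h2 : (1 : ℝ) < p := by exact_mod_cast (hPp p hp).one_lt
      have : (p : ℝ)⁻¹ < 1 := inv_lt_one_of_one_lt₀ h2
      linarith
    · have h1 := Same_abs_le hC' p
      have h2 : (1 : ℝ) < p := by exact_mod_cast (hPp p hp).one_lt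
      rw [abs_le] at h1
      have h3 : jc m' p / p ≤ (p : ℝ)⁻¹ := by
        rw [div_eq_mul_inv]
        have h4 : 0 ≤ (p : ℝ)⁻¹ := by positivity
        nlinarith [h1.2]
      linarith
  have b3 := kap_ge (Nat.pos_of_ne_zero hm0)
  have e2 : ((m.natAbs : ℕ) : ℝ) = |(m : ℝ)| := by
    rw [Nat.cast_natAbs, Int.cast_abs]
  rw [e2] at b3
  have hm1 : (1 : ℝ) ≤ |(m : ℝ)| := by
    rw [← e2]
    exact_mod_cast Nat.pos_of_ne_zero hm0
  have hlog : 0 ≤ Real.logb 2 |(m : ℝ)| := Real.logb_nonneg (by norm_num) hm1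
  have hden : 0 < 1 + Real.logb 2 |(m : ℝ)| := by linarith
  -- conclusion
  have k1 : Lv (jc m') 1 * (1 + Real.logb 2 |(m : ℝ)|)⁻¹ ≤ 2 ^ P'.card * Lv (jc m) 1 := by
    calc Lv (jc m') 1 * (1 + Real.logb 2 |(m : ℝ)|)⁻¹
        ≤ Lv (jc m') 1 * ∏ p ∈ P, (1 - jc m' p / p) :=
          mul_le_mul_of_nonneg_left (b3.trans b2) hL'.le
      _ = (∏ p ∈ P', (1 - jc m p / p)) * Lv (jc m) 1 := by rw [← s1]; ring
      _ ≤ 2 ^ P'.card * Lv (jc m) 1 := mul_le_mul_of_nonneg_right b1 hL.le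
  have hp2 : (0 : ℝ) < 2 ^ P'.card := by positivity
  rw [div_div, div_le_iff₀ (by positivity)]
  have k2 : Lv (jc m') 1 = Lv (jc m') 1 * (1 + Real.logb 2 |(m : ℝ)|)⁻¹ *
      (1 + Real.logb 2 |(m : ℝ)|) := by
    rw [mul_assoc, inv_mul_cancel₀ hden.ne', mul_one]
  calc Lv (jc m') 1 = Lv (jc m') 1 * (1 + Real.logb 2 |(m : ℝ)|)⁻¹ *
      (1 + Real.logb 2 |(m : ℝ)|) := k2
    _ ≤ 2 ^ P'.card * Lv (jc m) 1 * (1 + Real.logb 2 |(m : ℝ)|) :=
      mul_le_mul_of_nonneg_right k1 hden.le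
    _ = Lv (jc m) 1 * (2 ^ P'.card * (1 + Real.logb 2 |(m : ℝ)|)) := by ring

end Pool.Agent.LGO.SG
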