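import Mathlib
import Pool.Agent.LGO.SG.Tail

/-!
# LGO/SG: the hyperbola method

Let `y = x ^ (1/2)`, `X(u) = Sm χ b u`.  The pairs `(m, d)` with `m d ≤ x`, `d ≤ y` or `d > y` (then `m ≤ x / y`):
`Sm (f * χ) b x = ∑_{d ≤ y} χ(d) d ^ (-b) Sm f b (x / d) + ∑_{m ≤ x / y} f(m) m ^ (-b) (X(x / m) - X(y))`.
First sum: insert the asymptotics of `f` (`x / d ≥ 1`): the main terms are
`lam x ^ (1 - b) / (1 - b) * ∑_{d ≤ y} χ(d) / d` and `c X(y)`, with `∑_{d ≤ y} χ(d) / d = Lv χ 1 + O(2 q / y)`,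
`X(y) = Lv χ b + O(2 q y ^ (-b))` (`Lv_tail`); error `≤ ∑_{d ≤ y} d ^ (-b) Q (x / d) ^ (-δ) ≤ Q x ^ (-δ) y ^ δ y ^ (1 - b) / (1 - b)`
(`∑_{d ≤ y} d ^ (-b) ≤ y ^ (1 - b) / (1 - b)`).  Second sum: `|X(x / m) - X(y)| ≤ 4 q y ^ (-b)`, so it is at most
`4 q y ^ (-b) Q (x / y) ^ (1 - b + 1/100)`.  With `1 - b ≤ 1/100`, `y = x / y = x ^ (1/2)` every term is at most
`x ^ (-(δ/2 - 1/200))` times `2 q |lam| / (1 - b)`, `2 q |c|`, `Q / (1 - b)`, `4 q Q`.
`bd`: `SmA (f * χ) b x ≤ ∑_{d ≤ x} d ^ (-b) SmA f b (x / d) ≤ Q x ^ (1 - b + 1/100) ∑ d ^ (-1 - 1/100) ≤ 101 Q x ^ (..)`.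
-/

namespace Pool.Agent.LGO.SG

open Filter Topology

theorem Asy.Q_nonneg {f : ArithmeticFunction ℝ} {b lam c Q δ : ℝ} (h : Asy f b lam c Q δ) :
    0 ≤ Q := by
  have h1 := h.asy 1 le_rfl
  rw [Real.one_rpow, Real.one_rpow, mul_one, mul_one] at h1
  exact (abs_nonneg _).trans h1

private theorem hyp_bern {a t : ℝ} (ha : 0 ≤ a) (ha1 : a ≤ 1) (ht : 0 ≤ t) :
    t ^ a ≤ (t + 1) ^ a * (1 - a / (t + 1)) := by
  have ht1 : 0 < t + 1 := by linarith
  have hs : -1 ≤ -(1 / (t + 1)) := by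
    rw [neg_le_neg_iff, div_le_one ht1]; linarith
  have h := rpow_one_add_le_one_add_mul_self hs ha ha1
  have h1 : t = (t + 1) * (1 + -(1 / (t + 1))) := by field_simp; ring
  have h2 : (0 : ℝ) ≤ 1 + -(1 / (t + 1)) := by linarith
  have h3 : t ^ a = (t + 1) ^ a * (1 + -(1 / (t + 1))) ^ a := by
    rw [← Real.mul_rpow ht1.le h2, ← h1]
  rw [h3]
  apply mul_le_mul_of_nonneg_left _ (Real.rpow_nonneg ht1.le a)
  refine h.trans (le_of_eq ?_)
  ring

private theorem hyp_sum1 {b : ℝ} (hb : 0 < b) (hb1 : b < 1) (N : ℕ) :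
    ∑ d ∈ Finset.Icc 1 N, (d : ℝ) ^ (-b) ≤ (N : ℝ) ^ (1 - b) / (1 - b) := by
  have ha : 0 < 1 - b := by linarith
  induction N with
  | zero => simp [Real.zero_rpow ha.ne']
  | succ N ih =>
    rw [Finset.sum_Icc_succ_top (by omega)]
    have h1 := hyp_bern (a := 1 - b) ha.le (by linarith) (Nat.cast_nonneg (α := ℝ) N)
    have hN : (0 : ℝ) < (N : ℝ) + 1 := by positivity
    have h2 : ((N : ℝ) + 1) ^ (-b) = ((N : ℝ) + 1) ^ (1 - b) / ((N : ℝ) + 1) := by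
      rw [← Real.rpow_sub_one hN.ne']; congr 1; ring
    push_cast
    rw [h2]
    set v := ((N : ℝ) + 1) ^ (1 - b) with hv
    have h3 : (N : ℝ) ^ (1 - b) / (1 - b) ≤ v * (1 - (1 - b) / ((N : ℝ) + 1)) / (1 - b) :=
      div_le_div_of_nonneg_right h1 ha.le
    have h4 : v * (1 - (1 - b) / ((N : ℝ) + 1)) / (1 - b) = v / (1 - b) - v / ((N : ℝ) + 1) := by
      field_simp
    rw [h4] at h3
    linarith

private theorem hyp_sum2 (N : ℕ) (hN : 1 ≤ N) :
    ∑ d ∈ Finset.Icc 1 N, (d : ℝ) ^ (-(1 : ℝ) - 1 / 100) ≤ 101 - 100 * (N : ℝ) ^ (-(1 / 100) : ℝ) := by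
  induction N, hN using Nat.le_induction with
  | base => simp; norm_num
  | succ N hN ih =>
    rw [Finset.sum_Icc_succ_top (by omega)]
    have hN0 : (0 : ℝ) < N := by exact_mod_cast hN
    have h1 := hyp_bern (a := 1 / 100) (by norm_num) (by norm_num) hN0.le
    have hN1 : (0 : ℝ) < (N : ℝ) + 1 := by positivity
    have hu : 0 < (N : ℝ) ^ ((1 / 100 : ℝ)) := Real.rpow_pos_of_pos hN0 _
    have hv : 0 < ((N : ℝ) + 1) ^ ((1 / 100 : ℝ)) := Real.rpow_pos_of_pos hN1 _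
    have h2 : ((N : ℝ) + 1) ^ (-(1 : ℝ) - 1 / 100) = (((N : ℝ) + 1) ^ ((1 / 100 : ℝ)))⁻¹ / ((N : ℝ) + 1) := by
      rw [← Real.rpow_neg hN1.le, ← Real.rpow_sub_one hN1.ne']; congr 1; ring
    have h3 : (N : ℝ) ^ (-(1 / 100) : ℝ) = ((N : ℝ) ^ ((1 / 100 : ℝ)))⁻¹ := Real.rpow_neg hN0.le _
    have h4 : ((N : ℝ) + 1) ^ (-(1 / 100) : ℝ) = (((N : ℝ) + 1) ^ ((1 / 100 : ℝ)))⁻¹ := Real.rpow_neg hN1.le _
    push_cast
    rw [h2, h4]
    rw [h3] at ih
    set u := (N : ℝ) ^ ((1 / 100 : ℝ))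
    set v := ((N : ℝ) + 1) ^ ((1 / 100 : ℝ))
    set w := (1 / 100 : ℝ) / ((N : ℝ) + 1) with hw
    have hw0 : 0 < w := by positivity
    have h5 : v⁻¹ * (1 + w) ≤ u⁻¹ := by
      rw [inv_mul_le_iff₀ hv, ← div_eq_mul_inv, le_div_iff₀ hu]
      have h7 : (1 + w) * u ≤ (1 + w) * (v * (1 - w)) := mul_le_mul_of_nonneg_left h1 (by linarith)
      have h8 : 0 < v * (w * w) := mul_pos hv (mul_pos hw0 hw0)
      nlinarith
    have h6 : v⁻¹ * w = (1 / 100) * (v⁻¹ / ((N : ℝ) + 1)) := by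
      rw [hw]; ring
    nlinarith

private theorem hyp_split (g h : ℕ → ℝ) (N K : ℕ) (hK : K * K ≤ N) (hK1 : N < (K + 1) * (K + 1)) :
    ∑ m ∈ Finset.Icc 1 N, ∑ d ∈ Finset.Icc 1 (N / m), g m * h d =
      ∑ d ∈ Finset.Icc 1 K, h d * ∑ m ∈ Finset.Icc 1 (N / d), g m +
        ∑ m ∈ Finset.Icc 1 K, g m * ∑ d ∈ Finset.Ioc K (N / m), h d := by
  have h0 : ∀ m, ∑ d ∈ Finset.Icc 1 (N / m), g m * h d =
      ∑ d ∈ (Finset.Icc 1 (N / m)).filter (· ≤ K), g m * h d +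
        ∑ d ∈ (Finset.Icc 1 (N / m)).filter (fun d => ¬ d ≤ K), g m * h d := fun m =>
    (Finset.sum_filter_add_sum_filter_not _ _ _).symm
  rw [Finset.sum_congr rfl fun m _ => h0 m, Finset.sum_add_distrib]
  congr 1
  · rw [Finset.sum_comm' (t' := Finset.Icc 1 K) (s' := fun d => Finset.Icc 1 (N / d))]
    · refine Finset.sum_congr rfl fun d _ => ?_
      rw [Finset.mul_sum]
      exact Finset.sum_congr rfl fun m _ => mul_comm _ _
    · intro m d
      simp only [Finset.mem_Icc, Finset.mem_filter]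
      constructor
      · rintro ⟨⟨h1, h2⟩, ⟨h3, h4⟩, h5⟩
        rw [Nat.le_div_iff_mul_le (by omega)] at h4
        refine ⟨⟨h1, ?_⟩, h3, h5⟩
        rw [Nat.le_div_iff_mul_le (by omega)]
        rw [mul_comm]; exact h4
      · rintro ⟨⟨h1, h2⟩, h3, h4⟩
        rw [Nat.le_div_iff_mul_le (by omega)] at h2
        refine ⟨⟨h1, ?_⟩, ⟨h3, ?_⟩, h4⟩
        · nlinarith
        · rw [Nat.le_div_iff_mul_le (by omega)]
          rw [mul_comm]; exact h2
  · have hsub : Finset.Icc 1 K ⊆ Finset.Icc 1 N := by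
      intro m hm
      rw [Finset.mem_Icc] at hm ⊢
      refine ⟨hm.1, ?_⟩
      nlinarith
    rw [← Finset.sum_subset hsub]
    · refine Finset.sum_congr rfl fun m hm => ?_
      rw [Finset.mul_sum]
      refine Finset.sum_congr ?_ fun _ _ => rfl
      ext d
      simp only [Finset.mem_Icc, Finset.mem_filter, Finset.mem_Ioc]
      omega
    · intro m hm hm2
      rw [Finset.mem_Icc] at hm hm2
      have hmK : K + 1 ≤ m := by omega
      rw [Finset.filter_false_of_mem, Finset.sum_empty]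
      intro d hd
      rw [Finset.mem_Icc, Nat.le_div_iff_mul_le (by omega)] at hd
      intro h1
      have : (K + 1) * (K + 1) ≤ d * m := Nat.mul_le_mul (by omega) hmK
      omega

private theorem hyp_conv (f χ : ArithmeticFunction ℝ) (b : ℝ) (N : ℕ) :
    ∑ n ∈ Finset.Icc 1 N, (f * χ) n * (n : ℝ) ^ (-b) =
      ∑ m ∈ Finset.Icc 1 N, ∑ d ∈ Finset.Icc 1 (N / m), (f m * (m : ℝ) ^ (-b)) * (χ d * (d : ℝ) ^ (-b)) := by
  obtain ⟨A, hA⟩ : ∃ A : ArithmeticFunction ℝ, ∀ n, A n = f n * (n : ℝ) ^ (-b) :=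
    ⟨⟨fun n => f n * (n : ℝ) ^ (-b), by simp⟩, fun n => rfl⟩
  obtain ⟨B, hB⟩ : ∃ B : ArithmeticFunction ℝ, ∀ n, B n = χ n * (n : ℝ) ^ (-b) :=
    ⟨⟨fun n => χ n * (n : ℝ) ^ (-b), by simp⟩, fun n => rfl⟩
  have h1 := ArithmeticFunction.sum_Ioc_mul_eq_sum_sum A B N
  have hI : ∀ M : ℕ, Finset.Ioc 0 M = Finset.Icc 1 M := by
    intro M; ext a; simp only [Finset.mem_Ioc, Finset.mem_Icc]; omega
  simp only [hI] at h1
  have h2 : ∀ n ∈ Finset.Icc 1 N, (f * χ) n * (n : ℝ) ^ (-b) = (A * B) n := by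
    intro n hn
    rw [ArithmeticFunction.mul_apply, ArithmeticFunction.mul_apply, Finset.sum_mul]
    refine Finset.sum_congr rfl fun p hp => ?_
    have hp' := (Nat.mem_divisorsAntidiagonal.1 hp).1
    rw [hA, hB, ← hp', Nat.cast_mul, Real.mul_rpow (Nat.cast_nonneg _) (Nat.cast_nonneg _)]
    ring
  rw [Finset.sum_congr rfl h2, h1]
  refine Finset.sum_congr rfl fun m _ => ?_
  rw [Finset.mul_sum, hA]
  exact Finset.sum_congr rfl fun d _ => by rw [hB]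

private theorem hyp_abs1 {χ : ArithmeticFunction ℝ} {q : ℝ} (hχ : Chr χ q) (n : ℕ) : |χ n| ≤ 1 := by
  rcases hχ.val n with h | h | h <;> rw [h] <;> simp

private theorem hyp_asy {f χ : ArithmeticFunction ℝ} {b lam c Q δ q : ℝ} (hb : 99 / 100 ≤ b) (hb1 : b < 1)
    (hδ : 0 < δ) (hδ1 : δ ≤ 1 / 2) (h : Asy f b lam c Q δ) (hχ : Chr χ q) (x : ℝ) (hx : 1 ≤ x) :
    |Sm (f * χ) b x - lam * Lv χ 1 * x ^ (1 - b) / (1 - b) - c * Lv χ b| ≤
      8 * q / (1 - b) * (|lam| + |c| + Q) * x ^ (-(δ / 2 - 1 / 200)) := by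
  have hQ := h.Q_nonneg
  have hq1 := hχ.one_le
  have ha : 0 < 1 - b := by linarith
  have hx0 : 0 < x := by linarith
  set y : ℝ := √x with hy
  have hy1 : 1 ≤ y := Real.one_le_sqrt.2 hx
  have hy0 : 0 < y := by linarith
  have hyy : y * y = x := Real.mul_self_sqrt hx0.le
  have hyr : ∀ s : ℝ, y ^ s = x ^ (s / 2) := by
    intro s
    rw [hy, Real.sqrt_eq_rpow, ← Real.rpow_mul hx0.le]; congr 1; ring
  set N := ⌊x⌋₊ with hN
  set K := ⌊y⌋₊ with hK
  have hKy : (K : ℝ) ≤ y := Nat.floor_le hy0.le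
  have hyK : y < (K : ℝ) + 1 := Nat.lt_floor_add_one y
  have hKN : K * K ≤ N := by
    rw [hN, Nat.le_floor_iff hx0.le]; push_cast; rw [← hyy]
    exact mul_le_mul hKy hKy (Nat.cast_nonneg _) hy0.le
  have hKN1 : N < (K + 1) * (K + 1) := by
    rw [hN, Nat.floor_lt hx0.le]; push_cast; rw [← hyy]
    exact mul_lt_mul'' hyK hyK hy0.le hy0.le
  have hdiv : ∀ m : ℕ, ⌊x / m⌋₊ = N / m := fun m => Nat.floor_div_natCast x m
  -- the decomposition
  have hdec : Sm (f * χ) b x = ∑ d ∈ Finset.Icc 1 K, (χ d * (d : ℝ) ^ (-b)) * Sm f b (x / d) +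
      ∑ m ∈ Finset.Icc 1 K, (f m * (m : ℝ) ^ (-b)) * (Sm χ b (x / m) - Sm χ b y) := by
    have h1 : Sm (f * χ) b x = ∑ n ∈ Finset.Icc 1 N, (f * χ) n * (n : ℝ) ^ (-b) := rfl
    rw [h1, hyp_conv, hyp_split (fun m => f m * (m : ℝ) ^ (-b)) (fun d => χ d * (d : ℝ) ^ (-b)) N K hKN hKN1]
    congr 1
    · refine Finset.sum_congr rfl fun d _ => ?_
      unfold Sm
      rw [hdiv]
    · refine Finset.sum_congr rfl fun m hm => ?_
      congr 1
      unfold Sm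
      rw [hdiv, ← hK]
      rw [Finset.mem_Icc] at hm
      have hKm : K ≤ N / m := by
        rw [Nat.le_div_iff_mul_le (by omega)]
        exact (Nat.mul_le_mul_left K hm.2).trans hKN
      have h2 : Finset.Icc 1 (N / m) = Finset.Icc 1 K ∪ Finset.Ioc K (N / m) := by
        ext a; simp only [Finset.mem_Icc, Finset.mem_union, Finset.mem_Ioc]; omega
      have hd : Disjoint (Finset.Icc 1 K) (Finset.Ioc K (N / m)) := by
        rw [Finset.disjoint_left]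
        intro a ha hb
        simp only [Finset.mem_Icc, Finset.mem_Ioc] at ha hb
        omega
      rw [h2, Finset.sum_union hd]; ring
  -- the main term of the first sum
  set R : ℕ → ℝ := fun d => Sm f b (x / d) - lam * (x / d) ^ (1 - b) / (1 - b) - c with hR
  have hRb : ∀ d ∈ Finset.Icc 1 K, |R d| ≤ Q * (x / d) ^ (-δ) := by
    intro d hd
    rw [Finset.mem_Icc] at hd
    apply h.asy
    have hd0 : (0 : ℝ) < d := by exact_mod_cast hd.1
    rw [le_div_iff₀ hd0, one_mul]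
    have h1 : (d : ℝ) ≤ K := by exact_mod_cast hd.2
    nlinarith
  have hS1 : ∑ d ∈ Finset.Icc 1 K, (χ d * (d : ℝ) ^ (-b)) * Sm f b (x / d) =
      lam * x ^ (1 - b) / (1 - b) * Sm χ 1 y + c * Sm χ b y + ∑ d ∈ Finset.Icc 1 K, (χ d * (d : ℝ) ^ (-b)) * R d := by
    unfold Sm
    rw [← hK, Finset.mul_sum, Finset.mul_sum, ← Finset.sum_add_distrib, ← Finset.sum_add_distrib]
    refine Finset.sum_congr rfl fun d hd => ?_
    rw [Finset.mem_Icc] at hd
    have hd0 : (0 : ℝ) < d := by exact_mod_cast hd.1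
    have h1 : (x / d) ^ (1 - b) = x ^ (1 - b) * ((d : ℝ) ^ (1 - b))⁻¹ := by
      rw [Real.div_rpow hx0.le hd0.le, div_eq_mul_inv]
    have h2 : (d : ℝ) ^ (-(1 : ℝ)) = (d : ℝ) ^ (-b) * ((d : ℝ) ^ (1 - b))⁻¹ := by
      rw [← Real.rpow_neg hd0.le, ← Real.rpow_add hd0]; congr 1; ring
    simp only [hR]
    rw [h1, h2]
    unfold Sm
    ring
  -- the errors
  have e1 : |lam * x ^ (1 - b) / (1 - b) * (Sm χ 1 y - Lv χ 1)| ≤ 2 * q * |lam| / (1 - b) * x ^ (1 / 2 - b) := by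
    have h1 := Lv_tail hχ one_pos hy1
    rw [abs_mul, abs_div, abs_mul, abs_of_pos ha, abs_of_nonneg (Real.rpow_nonneg hx0.le (1 - b))]
    have h2 : x ^ (1 / 2 - b) = x ^ (1 - b) * y ^ (-(1 : ℝ)) := by
      rw [hyr, ← Real.rpow_add hx0]; congr 1; ring
    rw [h2]
    calc |lam| * x ^ (1 - b) / (1 - b) * |Sm χ 1 y - Lv χ 1|
        ≤ |lam| * x ^ (1 - b) / (1 - b) * (2 * q * y ^ (-(1 : ℝ))) := by
          apply mul_le_mul_of_nonneg_left h1
          positivity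
      _ = _ := by ring
  have e2 : |c * (Sm χ b y - Lv χ b)| ≤ 2 * q * |c| * x ^ (-b / 2) := by
    have h1 := Lv_tail hχ (b := b) (by linarith) hy1
    rw [abs_mul, ← hyr]
    calc |c| * |Sm χ b y - Lv χ b| ≤ |c| * (2 * q * y ^ (-b)) := mul_le_mul_of_nonneg_left h1 (abs_nonneg c)
      _ = _ := by ring
  have e3 : |∑ d ∈ Finset.Icc 1 K, (χ d * (d : ℝ) ^ (-b)) * R d| ≤ Q / (1 - b) * x ^ (-δ / 2 + (1 - b) / 2) := by
    calc |∑ d ∈ Finset.Icc 1 K, (χ d * (d : ℝ) ^ (-b)) * R d|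
        ≤ ∑ d ∈ Finset.Icc 1 K, |(χ d * (d : ℝ) ^ (-b)) * R d| := Finset.abs_sum_le_sum_abs _ _
      _ ≤ ∑ d ∈ Finset.Icc 1 K, (d : ℝ) ^ (-b) * (Q * x ^ (-δ / 2)) := by
          refine Finset.sum_le_sum fun d hd => ?_
          have hRd := hRb d hd
          rw [Finset.mem_Icc] at hd
          have hd0 : (0 : ℝ) < d := by exact_mod_cast hd.1
          rw [abs_mul, abs_mul, abs_of_nonneg (Real.rpow_nonneg hd0.le (-b))]
          have h1 : |χ d| * (d : ℝ) ^ (-b) ≤ (d : ℝ) ^ (-b) := by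
            have := mul_le_mul_of_nonneg_right (hyp_abs1 hχ d) (Real.rpow_nonneg hd0.le (-b))
            rwa [one_mul] at this
          have h2 : (x / d) ^ (-δ) ≤ x ^ (-δ / 2) := by
            rw [← hyr]
            apply Real.rpow_le_rpow_of_nonpos hy0 _ (by linarith)
            rw [le_div_iff₀ hd0, ← hyy]
            have h3 : (d : ℝ) ≤ K := by exact_mod_cast hd.2
            exact mul_le_mul_of_nonneg_left (h3.trans hKy) hy0.le
          exact mul_le_mul h1 (hRd.trans (mul_le_mul_of_nonneg_left h2 hQ)) (abs_nonneg _)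
            (Real.rpow_nonneg hd0.le _)
      _ = (∑ d ∈ Finset.Icc 1 K, (d : ℝ) ^ (-b)) * (Q * x ^ (-δ / 2)) := by rw [Finset.sum_mul]
      _ ≤ (y ^ (1 - b) / (1 - b)) * (Q * x ^ (-δ / 2)) := by
          apply mul_le_mul_of_nonneg_right _ (by positivity)
          refine (hyp_sum1 (by linarith) hb1 K).trans ?_
          apply div_le_div_of_nonneg_right _ ha.le
          exact Real.rpow_le_rpow (Nat.cast_nonneg _) hKy ha.le
      _ = _ := by
          rw [hyr, Real.rpow_add hx0]; ring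
  have e4 : |∑ m ∈ Finset.Icc 1 K, (f m * (m : ℝ) ^ (-b)) * (Sm χ b (x / m) - Sm χ b y)| ≤
      4 * q * Q * x ^ ((1 - 2 * b + 1 / 100) / 2) := by
    calc |∑ m ∈ Finset.Icc 1 K, (f m * (m : ℝ) ^ (-b)) * (Sm χ b (x / m) - Sm χ b y)|
        ≤ ∑ m ∈ Finset.Icc 1 K, |(f m * (m : ℝ) ^ (-b)) * (Sm χ b (x / m) - Sm χ b y)| :=
          Finset.abs_sum_le_sum_abs _ _
      _ ≤ ∑ m ∈ Finset.Icc 1 K, (|f m| * (m : ℝ) ^ (-b)) * (4 * q * y ^ (-b)) := by
          refine Finset.sum_le_sum fun m hm => ?_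
          rw [Finset.mem_Icc] at hm
          have hm0 : (0 : ℝ) < m := by exact_mod_cast hm.1
          rw [abs_mul, abs_mul, abs_of_nonneg (Real.rpow_nonneg hm0.le (-b))]
          apply mul_le_mul_of_nonneg_left _ (by positivity)
          have hyx : y ≤ x / m := by
            rw [le_div_iff₀ hm0, ← hyy]
            have h3 : (m : ℝ) ≤ K := by exact_mod_cast hm.2
            exact mul_le_mul_of_nonneg_left (h3.trans hKy) hy0.le
          have h1 := Lv_tail hχ (b := b) (by linarith) hy1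
          have h2 := Lv_tail hχ (b := b) (by linarith) (hy1.trans hyx)
          have h3 : (x / m) ^ (-b) ≤ y ^ (-b) := Real.rpow_le_rpow_of_nonpos hy0 hyx (by linarith)
          have h4 : Sm χ b (x / m) - Sm χ b y = (Sm χ b (x / m) - Lv χ b) - (Sm χ b y - Lv χ b) := by ring
          rw [h4]
          refine (abs_sub _ _).trans ?_
          nlinarith
      _ = SmA f b y * (4 * q * y ^ (-b)) := by
          unfold SmA; rw [Finset.sum_mul]
      _ ≤ (Q * y ^ (1 - b + 1 / 100)) * (4 * q * y ^ (-b)) := by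
          apply mul_le_mul_of_nonneg_right (h.bd y hy1)
          positivity
      _ = _ := by
          have h1 : x ^ ((1 - 2 * b + 1 / 100) / 2) = y ^ (1 - b + 1 / 100) * y ^ (-b) := by
            rw [← Real.rpow_add hy0, hyr]; congr 1; ring
          rw [h1]; ring
  have hX0 : 0 < x ^ (-(δ / 2 - 1 / 200)) := Real.rpow_pos_of_pos hx0 _
  have hp : ∀ s : ℝ, s ≤ -(δ / 2 - 1 / 200) → x ^ s ≤ x ^ (-(δ / 2 - 1 / 200)) := fun s hs =>
    Real.rpow_le_rpow_of_exponent_le hx hs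
  set P := x ^ (-(δ / 2 - 1 / 200)) with hP
  have f1 : 2 * q * |lam| / (1 - b) * x ^ (1 / 2 - b) ≤ 2 * q * |lam| / (1 - b) * P :=
    mul_le_mul_of_nonneg_left (hp _ (by linarith)) (by positivity)
  have f2 : 2 * q * |c| * x ^ (-b / 2) ≤ 2 * q * |c| * P :=
    mul_le_mul_of_nonneg_left (hp _ (by linarith)) (by positivity)
  have f3 : Q / (1 - b) * x ^ (-δ / 2 + (1 - b) / 2) ≤ Q / (1 - b) * P :=
    mul_le_mul_of_nonneg_left (hp _ (by linarith)) (by positivity)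
  have f4 : 4 * q * Q * x ^ ((1 - 2 * b + 1 / 100) / 2) ≤ 4 * q * Q * P :=
    mul_le_mul_of_nonneg_left (hp _ (by linarith)) (by positivity)
  have hsum : Sm (f * χ) b x - lam * Lv χ 1 * x ^ (1 - b) / (1 - b) - c * Lv χ b =
      lam * x ^ (1 - b) / (1 - b) * (Sm χ 1 y - Lv χ 1) + c * (Sm χ b y - Lv χ b) +
        ∑ d ∈ Finset.Icc 1 K, (χ d * (d : ℝ) ^ (-b)) * R d +
        ∑ m ∈ Finset.Icc 1 K, (f m * (m : ℝ) ^ (-b)) * (Sm χ b (x / m) - Sm χ b y) := by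
    rw [hdec, hS1]; ring
  rw [hsum]
  set T1 := lam * x ^ (1 - b) / (1 - b) * (Sm χ 1 y - Lv χ 1)
  set T2 := c * (Sm χ b y - Lv χ b)
  set T3 := ∑ d ∈ Finset.Icc 1 K, (χ d * (d : ℝ) ^ (-b)) * R d
  set T4 := ∑ m ∈ Finset.Icc 1 K, (f m * (m : ℝ) ^ (-b)) * (Sm χ b (x / m) - Sm χ b y)
  have t : |T1 + T2 + T3 + T4| ≤ |T1| + |T2| + |T3| + |T4| := by
    have a1 := abs_add_le (T1 + T2 + T3) T4
    have a2 := abs_add_le (T1 + T2) T3
    have a3 := abs_add_le T1 T2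
    linarith
  have hi : 1 ≤ 1 / (1 - b) := by
    rw [le_div_iff₀ ha]; linarith
  have k1 : 2 * q * |lam| / (1 - b) + 2 * q * |c| + Q / (1 - b) + 4 * q * Q ≤
      8 * q / (1 - b) * (|lam| + |c| + Q) := by
    have g1 : 2 * q * |lam| / (1 - b) = 2 * (1 / (1 - b)) * (q * |lam|) := by ring
    have g2 : Q / (1 - b) = (1 / (1 - b)) * Q := by ring
    have g3 : 8 * q / (1 - b) * (|lam| + |c| + Q) =
      8 * (1 / (1 - b)) * (q * |lam|) + 8 * (1 / (1 - b)) * (q * |c|) + 8 * (1 / (1 - b)) * (q * Q) := by ring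
    rw [g1, g2, g3]
    set i := 1 / (1 - b)
    have hi0 : 0 < i := by linarith
    have u1 : 0 ≤ i * (q * |lam|) := by positivity
    have u2 : q * |c| ≤ i * (q * |c|) := le_mul_of_one_le_left (by positivity) hi
    have u3 : q * Q ≤ i * (q * Q) := le_mul_of_one_le_left (by positivity) hi
    have u4 : i * Q ≤ i * (q * Q) := mul_le_mul_of_nonneg_left (le_mul_of_one_le_left hQ hq1) hi0.le
    have u5 : 0 ≤ q * |c| := by positivity
    have u6 : 0 ≤ q * Q := by positivity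
    nlinarith
  have k2 := mul_le_mul_of_nonneg_right k1 hX0.le
  refine t.trans ?_
  linarith

private theorem hyp_bd {f χ : ArithmeticFunction ℝ} {b lam c Q δ q : ℝ} (hb : 99 / 100 ≤ b) (hb1 : b < 1)
    (h : Asy f b lam c Q δ) (hχ : Chr χ q) (x : ℝ) (hx : 1 ≤ x) :
    SmA (f * χ) b x ≤ 8 * q / (1 - b) * (|lam| + |c| + Q) * x ^ (1 - b + 1 / 100) := by
  have hQ := h.Q_nonneg
  have hq1 := hχ.one_le
  have ha : 0 < 1 - b := by linarith
  have hx0 : 0 < x := by linarith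
  set N := ⌊x⌋₊ with hN
  have hN1 : 1 ≤ N := by rw [hN]; exact Nat.le_floor (by exact_mod_cast hx)
  have hdiv : ∀ m : ℕ, ⌊x / m⌋₊ = N / m := fun m => Nat.floor_div_natCast x m
  -- the absolute values
  let F : ArithmeticFunction ℝ := ⟨fun n => |f n|, by simp⟩
  let G : ArithmeticFunction ℝ := ⟨fun n => |χ n|, by simp⟩
  have h1 : SmA (f * χ) b x ≤ ∑ n ∈ Finset.Icc 1 N, (F * G) n * (n : ℝ) ^ (-b) := by
    unfold SmA
    refine Finset.sum_le_sum fun n _ => ?_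
    apply mul_le_mul_of_nonneg_right _ (Real.rpow_nonneg (Nat.cast_nonneg _) _)
    rw [ArithmeticFunction.mul_apply, ArithmeticFunction.mul_apply]
    refine (Finset.abs_sum_le_sum_abs _ _).trans (Finset.sum_le_sum fun p _ => ?_)
    rw [abs_mul]
    exact le_rfl
  have h2 : ∑ n ∈ Finset.Icc 1 N, (F * G) n * (n : ℝ) ^ (-b) =
      ∑ d ∈ Finset.Icc 1 N, (|χ d| * (d : ℝ) ^ (-b)) * SmA f b (x / d) := by
    rw [hyp_conv]
    rw [Finset.sum_comm' (t' := Finset.Icc 1 N) (s' := fun d => Finset.Icc 1 (N / d))]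
    · refine Finset.sum_congr rfl fun d _ => ?_
      unfold SmA
      rw [hdiv, Finset.mul_sum]
      exact Finset.sum_congr rfl fun m _ => mul_comm _ _
    · intro m d
      simp only [Finset.mem_Icc]
      constructor
      · rintro ⟨⟨h1, h2⟩, h3, h4⟩
        have h5 := h4.trans (Nat.div_le_self N m)
        rw [Nat.le_div_iff_mul_le (by omega)] at h4
        refine ⟨⟨h1, ?_⟩, h3, h5⟩
        rw [Nat.le_div_iff_mul_le (by omega)]
        rw [mul_comm]; exact h4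
      · rintro ⟨⟨h1, h2⟩, h3, h4⟩
        have h5 := h2.trans (Nat.div_le_self N d)
        rw [Nat.le_div_iff_mul_le (by omega)] at h2
        refine ⟨⟨h1, h5⟩, h3, ?_⟩
        rw [Nat.le_div_iff_mul_le (by omega)]
        rw [mul_comm]; exact h2
  have h3 : ∑ d ∈ Finset.Icc 1 N, (|χ d| * (d : ℝ) ^ (-b)) * SmA f b (x / d) ≤
      ∑ d ∈ Finset.Icc 1 N, (Q * x ^ (1 - b + 1 / 100)) * (d : ℝ) ^ (-(1 : ℝ) - 1 / 100) := by
    refine Finset.sum_le_sum fun d hd => ?_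
    rw [Finset.mem_Icc] at hd
    have hd0 : (0 : ℝ) < d := by exact_mod_cast hd.1
    have hdx : (d : ℝ) ≤ x := (Nat.le_floor_iff hx0.le).1 hd.2
    have h4 := h.bd (x / d) (by rw [le_div_iff₀ hd0, one_mul]; exact hdx)
    have h5 : |χ d| * (d : ℝ) ^ (-b) ≤ (d : ℝ) ^ (-b) := by
      have := mul_le_mul_of_nonneg_right (hyp_abs1 hχ d) (Real.rpow_nonneg hd0.le (-b))
      rwa [one_mul] at this
    have h6 : 0 ≤ SmA f b (x / d) :=
      Finset.sum_nonneg fun n _ => mul_nonneg (abs_nonneg _) (Real.rpow_nonneg (Nat.cast_nonneg _) _)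
    refine (mul_le_mul h5 h4 h6 (Real.rpow_nonneg hd0.le _)).trans (le_of_eq ?_)
    have h7 : (x / d) ^ (1 - b + 1 / 100) = x ^ (1 - b + 1 / 100) * ((d : ℝ) ^ (1 - b + 1 / 100))⁻¹ := by
      rw [Real.div_rpow hx0.le hd0.le, div_eq_mul_inv]
    have h8 : (d : ℝ) ^ (-(1 : ℝ) - 1 / 100) = (d : ℝ) ^ (-b) * ((d : ℝ) ^ (1 - b + 1 / 100))⁻¹ := by
      rw [← Real.rpow_neg hd0.le, ← Real.rpow_add hd0]; congr 1; ring
    rw [h7, h8]; ring
  have h9 : ∑ d ∈ Finset.Icc 1 N, (Q * x ^ (1 - b + 1 / 100)) * (d : ℝ) ^ (-(1 : ℝ) - 1 / 100) ≤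
      (Q * x ^ (1 - b + 1 / 100)) * 101 := by
    rw [← Finset.mul_sum]
    apply mul_le_mul_of_nonneg_left _ (by positivity)
    refine (hyp_sum2 N hN1).trans ?_
    have : (0 : ℝ) ≤ (N : ℝ) ^ (-(1 / 100) : ℝ) := Real.rpow_nonneg (Nat.cast_nonneg _) _
    linarith
  refine h1.trans (h2.le.trans (h3.trans (h9.trans ?_)))
  have hX0 : 0 < x ^ (1 - b + 1 / 100) := Real.rpow_pos_of_pos hx0 _
  have hi : 100 ≤ 1 / (1 - b) := by
    rw [le_div_iff₀ ha]; linarith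
  have k1 : Q * 101 ≤ 8 * q / (1 - b) * (|lam| + |c| + Q) := by
    have g3 : 8 * q / (1 - b) * (|lam| + |c| + Q) =
      8 * (1 / (1 - b)) * (q * (|lam| + |c|)) + 8 * (1 / (1 - b)) * (q * Q) := by ring
    rw [g3]
    set i := 1 / (1 - b)
    have hi0 : 0 < i := by linarith
    have u1 : 0 ≤ i * (q * (|lam| + |c|)) := by positivity
    have u3 : Q ≤ q * Q := le_mul_of_one_le_left hQ hq1
    have u4 : 100 * (q * Q) ≤ i * (q * Q) := mul_le_mul_of_nonneg_right hi (by positivity)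
    nlinarith
  calc Q * x ^ (1 - b + 1 / 100) * 101 = (Q * 101) * x ^ (1 - b + 1 / 100) := by ring
    _ ≤ _ := mul_le_mul_of_nonneg_right k1 hX0.le

theorem hyp {f χ : ArithmeticFunction ℝ} {b lam c Q δ q : ℝ} (hb : 99 / 100 ≤ b) (hb1 : b < 1)
    (hδ : 0 < δ) (hδ1 : δ ≤ 1 / 2) (h : Asy f b lam c Q δ) (hχ : Chr χ q) :
    Asy (f * χ) b (lam * Lv χ 1) (c * Lv χ b) (8 * q / (1 - b) * (|lam| + |c| + Q))
      (δ / 2 - 1 / 200) :=
  ⟨fun x hx => hyp_asy hb hb1 hδ hδ1 h hχ x hx, fun x hx => hyp_bd hb hb1 h hχ x hx⟩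

end Pool.Agent.LGO.SG
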