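import Mathlib
import Pool.Agent.LGO.SG.Hyp
import Pool.Agent.LGO.SG.One
import Pool.Agent.LGO.SG.Conv
import Pool.Agent.LGO.SG.Pos

/-!
# LGO/SG: Siegel's theorem, abstract form

Let `η = min (1/100) (ε/80)`, `b = 1 - η`.
CASE A: `Lv (χ i) b ≥ 0` for all `i`.  `f = ζ * χ i`: `asy_one` and `hyp` give the asymptotics with `lam = Lv (χ i) 1`,
`c = c_ζ Lv (χ i) b ≤ 0`, `Q = C q` (`C` depends on `η`), `δ = 49/200`; since `f ≥ 0`, `f 1 = 1`: `1 ≤ Sm f b x ≤ lam x ^ η / η + C q x ^ (-δ)`.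
Take `x = (2 C q) ^ 5`: `C q x ^ (-δ) ≤ 1/2`, so `lam ≥ (η / 2) (2 C q) ^ (- 5 η)`, `5 η ≤ ε`.
CASE B: `Lv (χ j) b < 0` for some `j`; `Lv (χ j) 1 > 0` (`Lv_pos`) and `Lv_cont` give `β ∈ (b, 1)` with `Lv (χ j) β = 0`.
For `i` with `Chr (pmul (χ i) (χ j)) (q i * q j)` apply `hyp` three times at `β`, to `ζ * χ j * χ i * pmul (χ i) (χ j)` (`conv4_nonneg`,
`conv4_one`; `pmul` is commutative): the constant term is `0`, `lam = Lv (χ j) 1 * Lv (χ i) 1 * Lv (pmul ..) 1`,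
`Q ≤ C (q i) ^ 2`, `δ ≥ 1/20`.  `x = (2 C (q i) ^ 2) ^ 20`: `lam ≥ ((1 - β) / 2) (2 C (q i) ^ 2) ^ (- 20 (1 - β))`,
`40 (1 - β) ≤ 40 η ≤ ε / 2`; `0 < Lv (χ i) 1`, `|Lv (pmul ..) 1| ≤ 3 + log (q i q j)` (`Lv_one_le`), and `log` is at most a constant times
`(q i) ^ (ε / 2)`.
-/

namespace Pool.Agent.LGO.SG

open Filter Topology ArithmeticFunction

private theorem Sieg_mono {f : ArithmeticFunction ℝ} {b lam c Q Q' δ : ℝ}
    (h : Asy f b lam c Q δ) (hQ : Q ≤ Q') : Asy f b lam c Q' δ := by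
  refine ⟨fun x hx => (h.asy x hx).trans ?_, fun x hx => (h.bd x hx).trans ?_⟩
  · exact mul_le_mul_of_nonneg_right hQ (Real.rpow_nonneg (by linarith) _)
  · exact mul_le_mul_of_nonneg_right hQ (Real.rpow_nonneg (by linarith) _)

private theorem Sieg_ge {f : ArithmeticFunction ℝ} (b : ℝ) {x : ℝ} (hf : ∀ n, 0 ≤ f n)
    (hf1 : f 1 = 1) (hx : 1 ≤ x) : 1 ≤ Sm f b x := by
  unfold Sm
  have h1 : 1 ∈ Finset.Icc 1 ⌊x⌋₊ := Finset.mem_Icc.2 ⟨le_rfl, Nat.le_floor (by simpa using hx)⟩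
  have h2 := Finset.single_le_sum (f := fun n : ℕ => f n * (n : ℝ) ^ (-b))
    (fun n _ => mul_nonneg (hf n) (Real.rpow_nonneg (Nat.cast_nonneg n) _)) h1
  simpa [hf1] using h2

/-- lower bound of the main term -/
private theorem Sieg_low {f : ArithmeticFunction ℝ} {b lam c Q δ K : ℝ} (hb1 : b < 1)
    (h : Asy f b lam c Q δ) (hf : ∀ n, 0 ≤ f n) (hf1 : f 1 = 1) (hc : c ≤ 0) (hQ : 1 ≤ 2 * Q)
    (hK : 1 ≤ K * δ) (hK0 : 0 ≤ K) : (1 - b) / 2 * (2 * Q) ^ (-(K * (1 - b))) ≤ lam := by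
  have hQ0 : 0 < Q := by linarith
  have hx : 1 ≤ (2 * Q) ^ K := Real.one_le_rpow hQ hK0
  have h1 := (abs_le.1 (h.asy _ hx)).2
  have h2 := Sieg_ge b hf hf1 hx
  have h3 : Q * ((2 * Q) ^ K) ^ (-δ) ≤ 1 / 2 := by
    rw [← Real.rpow_mul (by linarith)]
    have h4 : (2 * Q) ^ (K * -δ) ≤ (2 * Q) ^ (-1 : ℝ) :=
      Real.rpow_le_rpow_of_exponent_le hQ (by linarith)
    rw [Real.rpow_neg_one] at h4
    calc Q * (2 * Q) ^ (K * -δ) ≤ Q * (2 * Q)⁻¹ := by gcongr
      _ = 1 / 2 := by field_simp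
  have h5 : 1 / 2 ≤ lam * ((2 * Q) ^ K) ^ (1 - b) / (1 - b) := by linarith
  have h6 : ((2 * Q) ^ K) ^ (1 - b) * (2 * Q) ^ (-(K * (1 - b))) = 1 := by
    rw [← Real.rpow_mul (by linarith), ← Real.rpow_add (by linarith), add_neg_cancel,
      Real.rpow_zero]
  rw [le_div_iff₀ (by linarith)] at h5
  have hp : 0 < (2 * Q) ^ (-(K * (1 - b))) := Real.rpow_pos_of_pos (by linarith) _
  have h7 := mul_le_mul_of_nonneg_right h5 hp.le
  rw [mul_assoc lam, h6] at h7
  linarith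

theorem siegel {ι : Type} (χ : ι → ArithmeticFunction ℝ) (q : ι → ℝ) (h : ∀ i, Chr (χ i) (q i))
    {ε : ℝ} (hε : 0 < ε) :
    (∃ c : ℝ, 0 < c ∧ ∀ i, c * q i ^ (-ε) ≤ Lv (χ i) 1) ∨
    ∃ j, ∃ c : ℝ, 0 < c ∧ ∀ i, Chr (pmul (χ i) (χ j)) (q i * q j) → c * q i ^ (-ε) ≤ Lv (χ i) 1 := by
  classical
  set η : ℝ := min (1 / 100) (ε / 80) with hη
  have hη0 : 0 < η := lt_min (by norm_num) (by positivity)
  have hη1 : η ≤ 1 / 100 := min_le_left _ _
  have hη2 : η ≤ ε / 80 := min_le_right _ _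
  by_cases hA : ∀ i, 0 ≤ Lv (χ i) (1 - η)
  · left
    obtain ⟨c0, hc0, -, has⟩ := asy_one (b := 1 - η) (by linarith) (by linarith)
    set C : ℝ := 8 / (1 - (1 - η)) * (|1| + |c0| + (1 - (1 - η))⁻¹) with hC
    have hC0 : 0 ≤ C := by
      rw [hC]
      have h1 : 0 ≤ 1 - (1 - η) := by linarith
      positivity
    refine ⟨η / 2 * (2 * (C + 1)) ^ (-(5 * η)), ?_, fun i => ?_⟩
    · have : 0 < (2 * (C + 1)) ^ (-(5 * η)) := Real.rpow_pos_of_pos (by linarith) _
      positivity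
    · have hq := (h i).one_le
      have h1 := hyp (by linarith) (by linarith) (by norm_num) (by norm_num) has (h i)
      have h2 := Sieg_mono h1 (Q' := (C + 1) * q i) (by
        have : 8 * q i / (1 - (1 - η)) * (|1| + |c0| + (1 - (1 - η))⁻¹) = C * q i := by
          rw [hC]; ring
        rw [this]
        nlinarith)
      have h3 := Sieg_low (K := 5) (by linarith) h2 (conv2_nonneg (h i)) (conv2_one (h i))
        (mul_nonpos_of_nonpos_of_nonneg hc0.le (hA i)) (by nlinarith) (by norm_num) (by norm_num)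
      rw [one_mul, ← mul_assoc, Real.mul_rpow (by linarith) (by linarith), sub_sub_cancel,
        ← mul_assoc] at h3
      refine le_trans ?_ h3
      have h4 : q i ^ (-ε) ≤ q i ^ (-(5 * η)) :=
        Real.rpow_le_rpow_of_exponent_le hq (by linarith)
      have h5 : 0 < (2 * (C + 1)) ^ (-(5 * η)) := Real.rpow_pos_of_pos (by linarith) _
      exact mul_le_mul_of_nonneg_left h4 (by positivity)
  · right
    push Not at hA
    obtain ⟨j, hj⟩ := hA
    have hj1 := Lv_pos (h j)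
    -- the zero
    obtain ⟨β, ⟨hβ0, hβ1⟩, hβ⟩ : ∃ β ∈ Set.Icc (1 - η) 1, Lv (χ j) β = 0 := by
      have hcont : ContinuousOn (Lv (χ j)) (Set.Icc (1 - η) 1) :=
        (Lv_cont (h j)).mono fun x hx => by
          have := hx.1
          simp only [Set.mem_Ioi]
          linarith
      have := intermediate_value_Icc (by linarith) hcont
      obtain ⟨β, hβ, hβ'⟩ := this (show (0 : ℝ) ∈ Set.Icc _ _ from ⟨hj.le, hj1.le⟩)
      exact ⟨β, hβ, hβ'⟩
    have hβ2 : β < 1 := by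
      rcases hβ1.lt_or_eq with h1 | h1
      · exact h1
      · rw [h1] at hβ; linarith
    obtain ⟨c0, hc0, -, has⟩ := asy_one (b := β) (by linarith) hβ2
    have hqj := (h j).one_le
    have h1b : 0 < 1 - β := by linarith
    have a1 := hyp (by linarith) hβ2 (by norm_num) (by norm_num) has (h j)
    rw [hβ, mul_zero, one_mul] at a1
    set lam1 : ℝ := Lv (χ j) 1 with hlam1
    set Q1 : ℝ := 8 * q j / (1 - β) * (|1| + |c0| + (1 - β)⁻¹) with hQ1
    have hQ1' : 0 ≤ Q1 := by rw [hQ1]; positivity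
    set C : ℝ := 8 * q j / (1 - β) * (3 * lam1 + 8 / (1 - β) * (lam1 + Q1)) with hC
    have hC0 : 0 ≤ C := by rw [hC]; positivity
    have hlogj : 0 ≤ Real.log (q j) := Real.log_nonneg hqj
    set A : ℝ := 3 + Real.log (q j) + 2 / ε with hAdef
    have hA0 : 0 < A := by rw [hAdef]; positivity
    have hP : 0 < (2 * (C + 1)) ^ (-(20 * (1 - β))) := Real.rpow_pos_of_pos (by linarith) _
    refine ⟨j, (1 - β) / 2 * (2 * (C + 1)) ^ (-(20 * (1 - β))) / (lam1 * A), by positivity,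
      fun i hi => ?_⟩
    have hq := (h i).one_le
    have hi1 := Lv_pos (h i)
    have a2 := hyp (by linarith) hβ2 (by norm_num) (by norm_num) a1 (h i)
    rw [zero_mul] at a2
    have a3 := hyp (by linarith) hβ2 (by norm_num) (by norm_num) a2 hi
    rw [zero_mul, abs_zero, add_zero, add_zero, abs_mul, abs_of_pos hj1,
      abs_of_pos hi1] at a3
    have hLi : Lv (χ i) 1 ≤ 3 * q i := (le_abs_self _).trans (Lv_le (h i) one_pos)
    have a4 := Sieg_mono a3 (Q' := (C + 1) * q i ^ 2) (by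
      have e1 : 8 * (q i * q j) / (1 - β) * (lam1 * Lv (χ i) 1 +
          8 * q i / (1 - β) * (lam1 + Q1)) ≤ 8 * (q i * q j) / (1 - β) * (lam1 * (3 * q i) +
          8 * q i / (1 - β) * (lam1 + Q1)) := by
        have : 0 ≤ 8 * (q i * q j) / (1 - β) := by positivity
        gcongr
      refine e1.trans ?_
      have e2 : 8 * (q i * q j) / (1 - β) * (lam1 * (3 * q i) +
          8 * q i / (1 - β) * (lam1 + Q1)) = C * q i ^ 2 := by
        rw [hC]; ring
      rw [e2]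
      nlinarith [sq_nonneg (q i)])
    have hfun : (zeta : ArithmeticFunction ℝ) * χ j * χ i * pmul (χ i) (χ j) =
        (zeta : ArithmeticFunction ℝ) * χ j * χ i * pmul (χ j) (χ i) := by
      rw [pmul_comm (χ i)]
    rw [hfun] at a4
    have a5 := Sieg_low (K := 20) hβ2 a4 (conv4_nonneg (h j) (h i)) (conv4_one (h j) (h i))
      le_rfl (by nlinarith) (by norm_num) (by norm_num)
    rw [← mul_assoc, Real.mul_rpow (by linarith) (by positivity), ← mul_assoc] at a5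
    -- the powers of `q i`
    have b1 : q i ^ (-(ε / 2)) ≤ (q i ^ 2) ^ (-(20 * (1 - β))) := by
      rw [← Real.rpow_natCast, ← Real.rpow_mul (by linarith)]
      refine Real.rpow_le_rpow_of_exponent_le hq ?_
      push_cast
      linarith
    have b2 : 3 + Real.log (q i * q j) ≤ A * q i ^ (ε / 2) := by
      rw [Real.log_mul (by linarith) (by linarith)]
      have b3 : Real.log (q i) ≤ q i ^ (ε / 2) / (ε / 2) :=
        Real.log_le_rpow_div (by linarith) (by positivity)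
      have b4 : 1 ≤ q i ^ (ε / 2) := Real.one_le_rpow hq (by positivity)
      have b5 : q i ^ (ε / 2) / (ε / 2) = 2 / ε * q i ^ (ε / 2) := by
        field_simp
      rw [b5] at b3
      rw [hAdef]
      nlinarith
    have b6 : Lv (pmul (χ i) (χ j)) 1 ≤ A * q i ^ (ε / 2) :=
      ((le_abs_self _).trans (Lv_one_le hi)).trans b2
    have b7 : lam1 * Lv (χ i) 1 * Lv (pmul (χ i) (χ j)) 1 ≤
        lam1 * Lv (χ i) 1 * (A * q i ^ (ε / 2)) :=
      mul_le_mul_of_nonneg_left b6 (by positivity)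
    have b8 : (1 - β) / 2 * (2 * (C + 1)) ^ (-(20 * (1 - β))) * q i ^ (-(ε / 2)) ≤
        lam1 * Lv (χ i) 1 * (A * q i ^ (ε / 2)) :=
      le_trans (mul_le_mul_of_nonneg_left b1 (by positivity)) (a5.trans b7)
    have b9 : q i ^ (-(ε / 2)) * q i ^ (-(ε / 2)) = q i ^ (-ε) := by
      rw [← Real.rpow_add (by linarith)]
      congr 1
      ring
    have b10 : q i ^ (ε / 2) * q i ^ (-(ε / 2)) = 1 := by
      rw [← Real.rpow_add (by linarith), add_neg_cancel, Real.rpow_zero]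
    have b11 : 0 < q i ^ (-(ε / 2)) := Real.rpow_pos_of_pos (by linarith) _
    have b12 := mul_le_mul_of_nonneg_right b8 b11.le
    rw [mul_assoc _ (q i ^ (-(ε / 2))), b9, mul_assoc (lam1 * Lv (χ i) 1), mul_assoc A, b10,
      mul_one] at b12
    rw [div_mul_eq_mul_div, div_le_iff₀ (by positivity)]
    linarith

end Pool.Agent.LGO.SG
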