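import Mathlib
import Pool.Agent.LGO.SG.Sieg
import Pool.Agent.LGO.SG.Same

/-!
# LGO/SG: Siegel's theorem for the Jacobi symbols

`siegel` for the type of the negative integers `m` (not squares), `χ m = jc m`, `q m = 4 |m|` (`chr_jc`).  In the second case with the
exceptional `m'`: if `m m'` is not a square, `pmul (jc m) (jc m') = jc (m m')` (`jc_mul`) is a character with bound
`4 |m m'| ≤ q m * q m'` (`Chr.mono`); otherwise `same`.
-/

namespace Pool.Agent.LGO.SG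

open ArithmeticFunction

private theorem SiegJ_nsq {m : ℤ} (hm : m < 0) : ¬ IsSquare m := by
  rintro ⟨k, hk⟩
  nlinarith [mul_self_nonneg k]

private theorem SiegJ_log {ε x : ℝ} (hε : 0 < ε) (hx : 1 ≤ x) :
    1 + Real.logb 2 x ≤ (1 + 1 / (ε * Real.log 2)) * x ^ ε := by
  have h2 : 0 < Real.log 2 := Real.log_pos (by norm_num)
  have h1 : Real.log x ≤ x ^ ε / ε := Real.log_le_rpow_div (by linarith) hε
  have h3 : 1 ≤ x ^ ε := Real.one_le_rpow hx hε.le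
  have h4 : Real.logb 2 x ≤ 1 / (ε * Real.log 2) * x ^ ε := by
    rw [Real.logb, div_le_iff₀ h2]
    refine h1.trans (le_of_eq ?_)
    field_simp
  linarith

/-- the step from `4 |m|` to `|m|` -/
private theorem SiegJ_four {ε x : ℝ} (hx : 0 ≤ x) :
    (4 : ℝ) ^ (-ε) * x ^ (-ε) = (4 * x) ^ (-ε) :=
  (Real.mul_rpow (by norm_num) hx).symm

theorem siegel_jc {ε : ℝ} (hε : 0 < ε) : ∃ c : ℝ, 0 < c ∧ ∀ m : ℤ, m < 0 →
    c * |(m : ℝ)| ^ (-ε) ≤ Lv (jc m) 1 := by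
  have h4 : (0 : ℝ) < (4 : ℝ) ^ (-ε) := Real.rpow_pos_of_pos (by norm_num) _
  have habs : ∀ m : ℤ, m < 0 → (1 : ℝ) ≤ |(m : ℝ)| := by
    intro m hm
    have h1 : (1 : ℤ) ≤ |m| := Int.one_le_abs hm.ne
    exact_mod_cast h1
  rcases siegel (ι := {m : ℤ // m < 0}) (fun m => jc m.1) (fun m => 4 * |((m.1 : ℤ) : ℝ)|)
      (fun m => chr_jc (SiegJ_nsq m.2)) hε with ⟨c, hc, h⟩ | ⟨⟨m', hm'⟩, c, hc, h⟩
  · refine ⟨c * (4 : ℝ) ^ (-ε), mul_pos hc h4, fun m hm => ?_⟩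
    rw [mul_assoc, SiegJ_four (abs_nonneg _)]
    exact h ⟨m, hm⟩
  · obtain ⟨c₂, hc₂, h₂⟩ := same hm'
    have hl2 : 0 < Real.log 2 := Real.log_pos (by norm_num)
    have hA : 0 < 1 + 1 / (ε * Real.log 2) := by positivity
    have hc₃ : 0 < c₂ / (1 + 1 / (ε * Real.log 2)) := div_pos hc₂ hA
    refine ⟨min (c * (4 : ℝ) ^ (-ε)) (c₂ / (1 + 1 / (ε * Real.log 2))),
      lt_min (mul_pos hc h4) hc₃, fun m hm => ?_⟩
    have hm1 := habs m hm
    have hm0 : (0 : ℝ) < |(m : ℝ)| := by linarith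
    have hp : 0 < |(m : ℝ)| ^ (-ε) := Real.rpow_pos_of_pos hm0 _
    by_cases hsq : IsSquare (m * m')
    · refine le_trans (mul_le_mul_of_nonneg_right (min_le_right _ _) hp.le) ?_
      refine le_trans ?_ (h₂ m hm hsq)
      have hlog := SiegJ_log hε hm1
      have hlog1 : 0 < 1 + Real.logb 2 |(m : ℝ)| := by
        have := Real.logb_nonneg (b := 2) (by norm_num) hm1
        linarith
      have hpe : |(m : ℝ)| ^ (-ε) = (|(m : ℝ)| ^ ε)⁻¹ := Real.rpow_neg hm0.le ε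
      have hpp : 0 < |(m : ℝ)| ^ ε := Real.rpow_pos_of_pos hm0 _
      rw [hpe, le_div_iff₀ hlog1]
      calc c₂ / (1 + 1 / (ε * Real.log 2)) * (|(m : ℝ)| ^ ε)⁻¹ * (1 + Real.logb 2 |(m : ℝ)|)
          ≤ c₂ / (1 + 1 / (ε * Real.log 2)) * (|(m : ℝ)| ^ ε)⁻¹ *
            ((1 + 1 / (ε * Real.log 2)) * |(m : ℝ)| ^ ε) :=
            mul_le_mul_of_nonneg_left hlog (by positivity)
        _ = c₂ * ((1 + 1 / (ε * Real.log 2)) / (1 + 1 / (ε * Real.log 2))) *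
            ((|(m : ℝ)| ^ ε)⁻¹ * |(m : ℝ)| ^ ε) := by ring
        _ = c₂ := by rw [div_self hA.ne', inv_mul_cancel₀ hpp.ne', mul_one, mul_one]
    · refine le_trans (mul_le_mul_of_nonneg_right (min_le_left _ _) hp.le) ?_
      rw [mul_assoc, SiegJ_four (abs_nonneg _)]
      refine h ⟨m, hm⟩ ?_
      change Chr (pmul (jc m) (jc m')) (4 * |(m : ℝ)| * (4 * |(m' : ℝ)|))
      rw [jc_mul]
      refine (chr_jc hsq).mono ?_
      push_cast
      rw [abs_mul]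
      nlinarith [mul_nonneg (abs_nonneg (m : ℝ)) (abs_nonneg (m' : ℝ))]

end Pool.Agent.LGO.SG
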