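import Mathlib
import Pool.Agent.LGO.SG.SiegJ
import Pool.Agent.LGO.SG.Rho
import Pool.Agent.LGO.SG.Reps

/-!
# LGO/SG: the lower bound for the class number

`F = cop M * jc Δ`, `M = 2 |Δ|`, `F ≥ 0` (`copv_nonneg`, `jc_eq_zero`), `b = 99/100`.  `A(X) = ∑_{n ≤ X} F(n)`.
UPPER BOUND: `rho_sum`, `copv_eq_zero`: `A(X) ≤ ∑_{k ≤ √X} ∑_{n ≤ X / k², (n, M) = 1} rho Δ n ≤ h ∑_{k ≤ √X} (16 X / (k² √|Δ|) + 6 √X / k + 1) ≤
h (32 X / √|Δ| + 6 √X (1 + log X) + √X)`, `h = (jset Δ).ncard` (`reps` for `X / k² ≥ 1`).  For `X ≥ C |Δ| ^ 2` this is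
`≤ h (32 X / √|Δ| + X / √|Δ| * C')`.
LOWER BOUND: `asy_cop` and `hyp`: `Asy F b lam c Q δ`, `lam = kap M * Lv (jc Δ) 1`, `Q ≤ C |Δ| ^ 4`, `δ = 49/200`; the difference of the
asymptotics at `X` and `X / 2`: `∑_{X/2 < n ≤ X} F(n) n ^ (-b) ≥ c₁ lam X ^ (1 - b) - 4 Q X ^ (-δ)`, and it is at most
`(X / 2) ^ (-b) A(X)`: `A(X) ≥ c₂ lam X - 4 Q X ^ (b - δ)`.
By `siegel_jc` (`ε = 1/20`), `kap_ge`: `lam ≥ c |Δ| ^ (-1/10)`.  With `X = C |Δ| ^ 20` (a large constant): `4 Q X ^ (b - δ) ≤ c₂ lam X / 2`.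
So `h ≥ c lam √|Δ| ≥ c |Δ| ^ (1/4)`.  (If `Δ` is not `0` or `1` modulo `4` there is no form: hypothesis `h4`.)
-/

namespace Pool.Agent.LGO.SG

open ArithmeticFunction

private theorem cls_swap (g : ℕ → ℝ) (hg : ∀ n, 0 ≤ g n) (M : ℕ) {X : ℝ} (hX : 0 ≤ X) :
    ∑ n ∈ (Finset.Icc 1 ⌊X⌋₊).filter (fun n => n.Coprime M),
      ∑ k ∈ (Finset.Icc 1 n).filter (fun k => k ^ 2 ∣ n), g (n / k ^ 2) ≤
    ∑ k ∈ (Finset.Icc 1 ⌊X⌋₊).filter (fun k => k ^ 2 ≤ ⌊X⌋₊),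
      ∑ m ∈ (Finset.Icc 1 ⌊X / (k : ℝ) ^ 2⌋₊).filter (fun m => m.Coprime M), g m := by
  rw [Finset.sum_comm' (s' := fun k => ((Finset.Icc 1 ⌊X⌋₊).filter
    (fun n => n.Coprime M)).filter (fun n => k ^ 2 ∣ n))
    (t' := (Finset.Icc 1 ⌊X⌋₊).filter (fun k => k ^ 2 ≤ ⌊X⌋₊))]
  · refine Finset.sum_le_sum fun k hk => ?_
    have hk1 : 1 ≤ k := (Finset.mem_Icc.1 (Finset.mem_filter.1 hk).1).1
    have hinj : Set.InjOn (fun n => n / k ^ 2) (((Finset.Icc 1 ⌊X⌋₊).filter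
        (fun n => n.Coprime M)).filter (fun n => k ^ 2 ∣ n) : Finset ℕ) := by
      intro a ha b hb hab
      have ha' := (Finset.mem_filter.1 (Finset.mem_coe.1 ha)).2
      have hb' := (Finset.mem_filter.1 (Finset.mem_coe.1 hb)).2
      rw [← Nat.div_mul_cancel ha', ← Nat.div_mul_cancel hb']
      exact congrArg (fun z => z * k ^ 2) hab
    rw [← Finset.sum_image (f := g) hinj]
    refine Finset.sum_le_sum_of_subset_of_nonneg ?_ (fun m _ _ => hg m)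
    intro m hm
    obtain ⟨n, hn, rfl⟩ := Finset.mem_image.1 hm
    obtain ⟨hn1, hn2⟩ := Finset.mem_filter.1 hn
    obtain ⟨hn3, hn4⟩ := Finset.mem_filter.1 hn1
    obtain ⟨hn5, hn6⟩ := Finset.mem_Icc.1 hn3
    obtain ⟨m, rfl⟩ := hn2
    have hk0 : 0 < k ^ 2 := by positivity
    simp only [Nat.mul_div_cancel_left m hk0]
    refine Finset.mem_filter.2 ⟨Finset.mem_Icc.2 ⟨?_, ?_⟩, ?_⟩
    · rcases Nat.eq_zero_or_pos m with h | h
      · subst h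
        simp at hn5
      · exact h
    · apply Nat.le_floor
      have h1 : ((k ^ 2 * m : ℕ) : ℝ) ≤ X := (Nat.le_floor_iff hX).1 hn6
      have hk0' : (0 : ℝ) < (k : ℝ) ^ 2 := by positivity
      rw [le_div_iff₀ hk0']
      push_cast at h1
      linarith
    · exact Nat.Coprime.coprime_dvd_left (Dvd.intro_left _ rfl) hn4
  · intro n k
    constructor
    · rintro ⟨h1, h2⟩
      obtain ⟨h3, h4⟩ := Finset.mem_filter.1 h2
      obtain ⟨h5, h6⟩ := Finset.mem_Icc.1 h3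
      obtain ⟨h7, h8⟩ := Finset.mem_filter.1 h1
      obtain ⟨h9, h10⟩ := Finset.mem_Icc.1 h7
      refine ⟨Finset.mem_filter.2 ⟨h1, h4⟩, Finset.mem_filter.2 ⟨Finset.mem_Icc.2
        ⟨h5, h6.trans h10⟩, (Nat.le_of_dvd (by omega) h4).trans h10⟩⟩
    · rintro ⟨h1, h2⟩
      obtain ⟨h3, h4⟩ := Finset.mem_filter.1 h1
      obtain ⟨h5, h6⟩ := Finset.mem_filter.1 h2
      obtain ⟨h7, h8⟩ := Finset.mem_Icc.1 h5
      obtain ⟨h9, h10⟩ := Finset.mem_Icc.1 (Finset.mem_filter.1 h3).1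
      refine ⟨h3, Finset.mem_filter.2 ⟨Finset.mem_Icc.2 ⟨h7, ?_⟩, h4⟩⟩
      calc k ≤ k ^ 2 := Nat.le_self_pow (by norm_num) k
        _ ≤ n := Nat.le_of_dvd (by omega) h4

private theorem cls_invsq (N : ℕ) (K : Finset ℕ) (hK : K ⊆ Finset.Icc 1 N) :
    ∑ k ∈ K, ((k : ℝ) ^ 2)⁻¹ ≤ 2 := by
  have h1 : ∑ k ∈ K, ((k : ℝ) ^ 2)⁻¹ ≤ ∑ k ∈ Finset.Ioo 0 (N + 1), ((k : ℝ) ^ 2)⁻¹ := by
    refine Finset.sum_le_sum_of_subset_of_nonneg ?_ (fun m _ _ => by positivity)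
    intro k hk
    have := Finset.mem_Icc.1 (hK hk)
    exact Finset.mem_Ioo.2 ⟨by omega, by omega⟩
  have h2 := sum_Ioo_inv_sq_le (α := ℝ) 0 (N + 1)
  have h3 : (2 : ℝ) / ((0 : ℕ) + 1) = 2 := by norm_num
  rw [h3] at h2
  exact h1.trans h2

private theorem cls_inv {X : ℝ} (hX : 1 ≤ X) (K : Finset ℕ) (hK : K ⊆ Finset.Icc 1 ⌊X⌋₊) :
    ∑ k ∈ K, (k : ℝ)⁻¹ ≤ 1 + Real.log X := by
  have h1 : ∑ k ∈ K, (k : ℝ)⁻¹ ≤ ∑ k ∈ Finset.Icc 1 ⌊X⌋₊, (k : ℝ)⁻¹ :=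
    Finset.sum_le_sum_of_subset_of_nonneg hK (fun m _ _ => by positivity)
  have h2 := harmonic_floor_le_one_add_log X hX
  have h3 : ((harmonic ⌊X⌋₊ : ℚ) : ℝ) = ∑ k ∈ Finset.Icc 1 ⌊X⌋₊, (k : ℝ)⁻¹ := by
    rw [harmonic_eq_sum_Icc]
    push_cast
    rfl
  rw [h3] at h2
  exact h1.trans h2

private theorem cls_term {h D X k : ℝ} (hh : 0 ≤ h) (hD : 0 < D) (hX : 1 ≤ X) (hk : 1 ≤ k)
    (hkX : k ^ 2 ≤ X) :
    h * (16 * (X / k ^ 2) / Real.sqrt D + 6 * Real.sqrt (X / k ^ 2) + 1) ≤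
      h * (16 * X / Real.sqrt D * (k ^ 2)⁻¹ + 7 * Real.sqrt X * k⁻¹) := by
  have hk0 : 0 < k := by linarith
  have h1 : Real.sqrt (X / k ^ 2) = Real.sqrt X * k⁻¹ := by
    rw [Real.sqrt_div (by linarith), Real.sqrt_sq hk0.le, div_eq_mul_inv]
  have h2 : 1 ≤ Real.sqrt X * k⁻¹ := by
    rw [← h1]
    rw [Real.one_le_sqrt, le_div_iff₀ (by positivity)]
    linarith
  apply mul_le_mul_of_nonneg_left _ hh
  rw [h1]
  have h3 : 16 * (X / k ^ 2) / Real.sqrt D = 16 * X / Real.sqrt D * (k ^ 2)⁻¹ := by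
    field_simp
  rw [h3]
  linarith

private theorem cls_upper {Δ : ℤ} (hΔ : Δ < 0) (h4 : Δ % 4 = 0 ∨ Δ % 4 = 1) {X : ℝ}
    (hX : |(Δ : ℝ)| ^ 2 ≤ X) :
    ∑ n ∈ Finset.Icc 1 ⌊X⌋₊, (cop (2 * Δ.natAbs) * jc Δ) n ≤
      (jset Δ).ncard * (67 * X / Real.sqrt |(Δ : ℝ)|) := by
  have hD1 : (1 : ℝ) ≤ |(Δ : ℝ)| := by
    have : (1 : ℤ) ≤ |Δ| := Int.one_le_abs (by omega)
    exact_mod_cast this
  set D : ℝ := |(Δ : ℝ)| with hDdef
  have hD0 : 0 < D := by linarith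
  have hX1 : 1 ≤ X := by nlinarith
  have hX0 : 0 ≤ X := by linarith
  set h : ℝ := ((jset Δ).ncard : ℝ) with hhdef
  have hh : 0 ≤ h := by positivity
  set K := (Finset.Icc 1 ⌊X⌋₊).filter (fun k => k ^ 2 ≤ ⌊X⌋₊) with hK
  have hKsub : K ⊆ Finset.Icc 1 ⌊X⌋₊ := Finset.filter_subset _ _
  have e1 : ∑ n ∈ Finset.Icc 1 ⌊X⌋₊, (cop (2 * Δ.natAbs) * jc Δ) n =
      ∑ n ∈ (Finset.Icc 1 ⌊X⌋₊).filter (fun n => n.Coprime (2 * Δ.natAbs)),
        (cop (2 * Δ.natAbs) * jc Δ) n := by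
    rw [Finset.sum_filter]
    refine Finset.sum_congr rfl fun n _ => ?_
    split_ifs with hc
    · rfl
    · exact copv_eq_zero hc
  have e2 : ∑ n ∈ (Finset.Icc 1 ⌊X⌋₊).filter (fun n => n.Coprime (2 * Δ.natAbs)),
        (cop (2 * Δ.natAbs) * jc Δ) n ≤
      ∑ n ∈ (Finset.Icc 1 ⌊X⌋₊).filter (fun n => n.Coprime (2 * Δ.natAbs)),
        ∑ k ∈ (Finset.Icc 1 n).filter (fun k => k ^ 2 ∣ n), (rho Δ (n / k ^ 2) : ℝ) := by
    refine Finset.sum_le_sum fun n hn => ?_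
    obtain ⟨h1, h2⟩ := Finset.mem_filter.1 hn
    exact rho_sum hΔ h4 (Finset.mem_Icc.1 h1).1 h2
  have e3 := cls_swap (fun n => (rho Δ n : ℝ)) (fun n => Nat.cast_nonneg _) (2 * Δ.natAbs) hX0
  have e4 : ∑ k ∈ K,
      ∑ m ∈ (Finset.Icc 1 ⌊X / (k : ℝ) ^ 2⌋₊).filter (fun m => m.Coprime (2 * Δ.natAbs)),
        (rho Δ m : ℝ) ≤
      ∑ k ∈ K, h * (16 * X / Real.sqrt D * ((k : ℝ) ^ 2)⁻¹ + 7 * Real.sqrt X * (k : ℝ)⁻¹) := by
    refine Finset.sum_le_sum fun k hk => ?_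
    obtain ⟨h1, h2⟩ := Finset.mem_filter.1 hk
    have hk1 : (1 : ℝ) ≤ k := by exact_mod_cast (Finset.mem_Icc.1 h1).1
    have hk2 : (k : ℝ) ^ 2 ≤ X := by
      have h3 := (Nat.le_floor_iff hX0).1 h2
      push_cast at h3
      exact h3
    have h5 : 1 ≤ X / (k : ℝ) ^ 2 := by
      rw [le_div_iff₀ (by positivity)]
      linarith
    exact (reps hΔ h5).trans (cls_term hh hD0 hX1 hk1 hk2)
  have e5 : ∑ k ∈ K, h * (16 * X / Real.sqrt D * ((k : ℝ) ^ 2)⁻¹ +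
      7 * Real.sqrt X * (k : ℝ)⁻¹) ≤
      h * (16 * X / Real.sqrt D * 2 + 7 * Real.sqrt X * (1 + Real.log X)) := by
    rw [← Finset.mul_sum, Finset.sum_add_distrib, ← Finset.mul_sum, ← Finset.mul_sum]
    apply mul_le_mul_of_nonneg_left _ hh
    have h1 := cls_invsq _ K hKsub
    have h2 := cls_inv hX1 K hKsub
    have h3 : 0 ≤ 16 * X / Real.sqrt D := by positivity
    have h4 : 0 ≤ 7 * Real.sqrt X := by positivity
    exact add_le_add (mul_le_mul_of_nonneg_left h1 h3) (mul_le_mul_of_nonneg_left h2 h4)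
  have e6 : 7 * Real.sqrt X * (1 + Real.log X) ≤ 35 * X / Real.sqrt D := by
    have hY1 : 1 ≤ X ^ (1 / 4 : ℝ) := Real.one_le_rpow hX1 (by norm_num)
    have h1 : Real.log X ≤ 4 * X ^ (1 / 4 : ℝ) := by
      have := Real.log_le_rpow_div hX0 (ε := 1 / 4) (by norm_num)
      linarith
    have h2 : 1 + Real.log X ≤ 5 * X ^ (1 / 4 : ℝ) := by linarith
    have h3 : Real.sqrt D ≤ X ^ (1 / 4 : ℝ) := by
      rw [Real.sqrt_eq_rpow]
      calc D ^ (1 / 2 : ℝ) = (D ^ 2) ^ (1 / 4 : ℝ) := by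
            rw [← Real.rpow_natCast D 2, ← Real.rpow_mul hD0.le]
            norm_num
        _ ≤ X ^ (1 / 4 : ℝ) := Real.rpow_le_rpow (by positivity) hX (by norm_num)
    have h4 : Real.sqrt X = X ^ (1 / 4 : ℝ) * X ^ (1 / 4 : ℝ) := by
      rw [Real.sqrt_eq_rpow, ← Real.rpow_add (by linarith)]
      norm_num
    have h5 : X = (X ^ (1 / 4 : ℝ) * X ^ (1 / 4 : ℝ)) * (X ^ (1 / 4 : ℝ) * X ^ (1 / 4 : ℝ)) := by
      rw [← h4, Real.mul_self_sqrt hX0]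
    rw [le_div_iff₀ (Real.sqrt_pos.2 hD0)]
    set Y := X ^ (1 / 4 : ℝ) with hY
    have hY0 : 0 ≤ Y := by linarith
    have hsD : 0 ≤ Real.sqrt D := Real.sqrt_nonneg _
    calc 7 * Real.sqrt X * (1 + Real.log X) * Real.sqrt D
        = 7 * (Y * Y) * (1 + Real.log X) * Real.sqrt D := by rw [h4]
      _ ≤ 7 * (Y * Y) * (5 * Y) * Real.sqrt D := by
          apply mul_le_mul_of_nonneg_right _ hsD
          apply mul_le_mul_of_nonneg_left h2 (by positivity)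
      _ ≤ 7 * (Y * Y) * (5 * Y) * Y := by
          apply mul_le_mul_of_nonneg_left h3 (by positivity)
      _ = 35 * ((Y * Y) * (Y * Y)) := by ring
      _ = 35 * X := by rw [← h5]
  rw [e1]
  refine (e2.trans e3).trans (e4.trans (e5.trans ?_))
  apply mul_le_mul_of_nonneg_left _ hh
  have e7 : 67 * X / Real.sqrt D = 16 * X / Real.sqrt D * 2 + 35 * X / Real.sqrt D := by ring
  rw [e7]
  linarith

private theorem cls_diff {f : ArithmeticFunction ℝ} (hf : ∀ n, 0 ≤ f n) {b X : ℝ} (hb : 0 ≤ b)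
    (hX : 2 ≤ X) :
    Sm f b X - Sm f b (X / 2) ≤ (X / 2) ^ (-b) * ∑ n ∈ Finset.Icc 1 ⌊X⌋₊, f n := by
  have hsub : Finset.Icc 1 ⌊X / 2⌋₊ ⊆ Finset.Icc 1 ⌊X⌋₊ :=
    Finset.Icc_subset_Icc le_rfl (Nat.floor_mono (by linarith))
  unfold Sm
  rw [← Finset.sum_sdiff hsub, add_sub_cancel_right, Finset.mul_sum]
  calc ∑ n ∈ Finset.Icc 1 ⌊X⌋₊ \ Finset.Icc 1 ⌊X / 2⌋₊, f n * (n : ℝ) ^ (-b)
      ≤ ∑ n ∈ Finset.Icc 1 ⌊X⌋₊ \ Finset.Icc 1 ⌊X / 2⌋₊, (X / 2) ^ (-b) * f n := by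
        refine Finset.sum_le_sum fun n hn => ?_
        obtain ⟨h1, h2⟩ := Finset.mem_sdiff.1 hn
        have h3 : ⌊X / 2⌋₊ < n := by
          by_contra h
          exact h2 (Finset.mem_Icc.2 ⟨(Finset.mem_Icc.1 h1).1, by omega⟩)
        have h4 : X / 2 < n := (Nat.floor_lt (by linarith)).1 h3
        rw [mul_comm]
        apply mul_le_mul_of_nonneg_right _ (hf n)
        exact Real.rpow_le_rpow_of_nonpos (by linarith) h4.le (by linarith)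
    _ ≤ ∑ n ∈ Finset.Icc 1 ⌊X⌋₊, (X / 2) ^ (-b) * f n := by
        refine Finset.sum_le_sum_of_subset_of_nonneg Finset.sdiff_subset (fun n _ _ => ?_)
        exact mul_nonneg (Real.rpow_nonneg (by linarith) _) (hf n)

private noncomputable def cls_c : ℝ := 100 * (1 - (2 : ℝ) ^ (-(1 / 100) : ℝ))

private theorem cls_c_pos : 0 < cls_c := by
  unfold cls_c
  have : (2 : ℝ) ^ (-(1 / 100) : ℝ) < 1 := Real.rpow_lt_one_of_one_lt_of_neg (by norm_num) (by norm_num)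
  linarith

private theorem cls_lower {f : ArithmeticFunction ℝ} (hf : ∀ n, 0 ≤ f n) {lam c Q X : ℝ}
    (h : Asy f (99 / 100) lam c Q (49 / 200)) (hX : 2 ≤ X) :
    (cls_c * lam * X - 3 * Q * X ^ (149 / 200 : ℝ)) / 2 ≤ ∑ n ∈ Finset.Icc 1 ⌊X⌋₊, f n := by
  have hX0 : 0 < X := by linarith
  have hQ : 0 ≤ Q := h.Q_nonneg
  have h1 := h.asy X (by linarith)
  have h2 := h.asy (X / 2) (by linarith)
  have h3 := cls_diff hf (b := 99 / 100) (by norm_num) hX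
  have e0 : (1 : ℝ) - 99 / 100 = 1 / 100 := by norm_num
  rw [e0] at h1 h2
  have e1 : (X / 2) ^ (1 / 100 : ℝ) = X ^ (1 / 100 : ℝ) * (2 : ℝ) ^ (-(1 / 100) : ℝ) := by
    rw [Real.div_rpow hX0.le (by norm_num), Real.rpow_neg (by norm_num), div_eq_mul_inv]
  have e2 : (X / 2) ^ (-(49 / 200) : ℝ) ≤ 2 * X ^ (-(49 / 200) : ℝ) := by
    rw [Real.div_rpow hX0.le (by norm_num), Real.rpow_neg (x := 2) (by norm_num), div_inv_eq_mul,
      mul_comm]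
    apply mul_le_mul_of_nonneg_right _ (Real.rpow_nonneg hX0.le _)
    calc (2 : ℝ) ^ (49 / 200 : ℝ) ≤ 2 ^ (1 : ℝ) :=
          Real.rpow_le_rpow_of_exponent_le (by norm_num) (by norm_num)
      _ = 2 := Real.rpow_one _
  have e3 : (X / 2) ^ (-(99 / 100) : ℝ) ≤ 2 * X ^ (-(99 / 100) : ℝ) := by
    rw [Real.div_rpow hX0.le (by norm_num), Real.rpow_neg (x := 2) (by norm_num), div_inv_eq_mul,
      mul_comm]
    apply mul_le_mul_of_nonneg_right _ (Real.rpow_nonneg hX0.le _)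
    calc (2 : ℝ) ^ (99 / 100 : ℝ) ≤ 2 ^ (1 : ℝ) :=
          Real.rpow_le_rpow_of_exponent_le (by norm_num) (by norm_num)
      _ = 2 := Real.rpow_one _
  rw [e1] at h2
  have hA0 : 0 ≤ ∑ n ∈ Finset.Icc 1 ⌊X⌋₊, f n := Finset.sum_nonneg fun n _ => hf n
  set A := ∑ n ∈ Finset.Icc 1 ⌊X⌋₊, f n with hA
  have e4 : Sm f (99 / 100) X - Sm f (99 / 100) (X / 2) ≤ 2 * X ^ (-(99 / 100) : ℝ) * A :=
    h3.trans (mul_le_mul_of_nonneg_right e3 hA0)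
  have e5 : cls_c * lam * X ^ (1 / 100 : ℝ) - 3 * Q * X ^ (-(49 / 200) : ℝ) ≤
      Sm f (99 / 100) X - Sm f (99 / 100) (X / 2) := by
    have h1' := (abs_le.1 h1).1
    have h2' := (abs_le.1 h2).2
    have h5 : Q * (X / 2) ^ (-(49 / 200) : ℝ) ≤ Q * (2 * X ^ (-(49 / 200) : ℝ)) :=
      mul_le_mul_of_nonneg_left e2 hQ
    unfold cls_c
    have h6 : lam * X ^ (1 / 100 : ℝ) / (1 / 100) -
        lam * (X ^ (1 / 100 : ℝ) * (2 : ℝ) ^ (-(1 / 100) : ℝ)) / (1 / 100) =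
        100 * (1 - (2 : ℝ) ^ (-(1 / 100) : ℝ)) * lam * X ^ (1 / 100 : ℝ) := by ring
    linarith
  have e6 := e5.trans e4
  have hp : 0 < X ^ (99 / 100 : ℝ) := Real.rpow_pos_of_pos hX0 _
  have e7 := mul_le_mul_of_nonneg_right e6 hp.le
  have e8 : 2 * X ^ (-(99 / 100) : ℝ) * A * X ^ (99 / 100 : ℝ) = 2 * A := by
    have : X ^ (-(99 / 100) : ℝ) * X ^ (99 / 100 : ℝ) = 1 := by
      rw [← Real.rpow_add hX0]
      norm_num
    linear_combination 2 * A * this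
  have e9 : (cls_c * lam * X ^ (1 / 100 : ℝ) - 3 * Q * X ^ (-(49 / 200) : ℝ)) *
      X ^ (99 / 100 : ℝ) = cls_c * lam * X - 3 * Q * X ^ (149 / 200 : ℝ) := by
    have a1 : X ^ (1 / 100 : ℝ) * X ^ (99 / 100 : ℝ) = X := by
      rw [← Real.rpow_add hX0]
      norm_num
    have a2 : X ^ (-(49 / 200) : ℝ) * X ^ (99 / 100 : ℝ) = X ^ (149 / 200 : ℝ) := by
      rw [← Real.rpow_add hX0]
      norm_num
    linear_combination cls_c * lam * a1 - 3 * Q * a2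
  rw [e8, e9] at e7
  linarith

private theorem cls_asy {Δ : ℤ} (hΔ : Δ < 0) : ∃ c Q : ℝ, Q ≤ 2000000 * |(Δ : ℝ)| ^ 3 ∧
    Asy (cop (2 * Δ.natAbs) * jc Δ) (99 / 100) (kap (2 * Δ.natAbs) * Lv (jc Δ) 1) c Q
      (49 / 200) := by
  have hD1 : (1 : ℝ) ≤ |(Δ : ℝ)| := by
    have : (1 : ℤ) ≤ |Δ| := Int.one_le_abs (by omega)
    exact_mod_cast this
  have hsq : ¬ IsSquare Δ := by
    rintro ⟨r, hr⟩
    nlinarith [mul_self_nonneg r]
  have hM : 0 < 2 * Δ.natAbs := by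
    have : Δ.natAbs ≠ 0 := by omega
    omega
  obtain ⟨c, hc, hasy⟩ := asy_cop (b := 99 / 100) (by norm_num) (by norm_num) hM
  have h1 := hyp (b := 99 / 100) (by norm_num) (by norm_num) (by norm_num) (by norm_num) hasy
    (chr_jc hsq)
  have hδ : (1 / 2 : ℝ) / 2 - 1 / 200 = 49 / 200 := by norm_num
  rw [hδ] at h1
  refine ⟨_, _, ?_, h1⟩
  have hMc : (((2 * Δ.natAbs : ℕ) : ℝ)) = 2 * |(Δ : ℝ)| := by
    push_cast
    rw [Nat.cast_natAbs]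
    push_cast
    ring
  have hk := kap_le (M := 2 * Δ.natAbs)
  rw [hMc]
  have hk1 : |kap (2 * Δ.natAbs)| ≤ 1 := by rw [abs_of_pos hk.1]; exact hk.2
  set D : ℝ := |(Δ : ℝ)| with hD
  have hb : (1 - 99 / 100 : ℝ)⁻¹ = 100 := by norm_num
  rw [hb] at hc ⊢
  have h2 : |kap (2 * Δ.natAbs)| + |c| + (2 * D) ^ 2 * 100 ≤ 501 * D ^ 2 := by nlinarith
  calc 8 * (4 * D) / (1 - 99 / 100) * (|kap (2 * Δ.natAbs)| + |c| + (2 * D) ^ 2 * 100)
      = 3200 * D * (|kap (2 * Δ.natAbs)| + |c| + (2 * D) ^ 2 * 100) := by ring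
    _ ≤ 3200 * D * (501 * D ^ 2) := mul_le_mul_of_nonneg_left h2 (by positivity)
    _ ≤ 2000000 * D ^ 3 := by nlinarith [pow_pos (by linarith : (0 : ℝ) < D) 3]

private theorem cls_lam : ∃ c : ℝ, 0 < c ∧ ∀ Δ : ℤ, Δ < 0 →
    c * |(Δ : ℝ)| ^ (-(1 / 10) : ℝ) ≤ kap (2 * Δ.natAbs) * Lv (jc Δ) 1 := by
  obtain ⟨c, hc, h⟩ := siegel_jc (ε := 1 / 20) (by norm_num)
  refine ⟨c / 42, by positivity, fun Δ hΔ => ?_⟩
  have hD1 : (1 : ℝ) ≤ |(Δ : ℝ)| := by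
    have : (1 : ℤ) ≤ |Δ| := Int.one_le_abs (by omega)
    exact_mod_cast this
  have hM : 0 < 2 * Δ.natAbs := by
    have : Δ.natAbs ≠ 0 := by omega
    omega
  have h1 := h Δ hΔ
  have h2 := kap_ge hM
  have hMc : (((2 * Δ.natAbs : ℕ) : ℝ)) = 2 * |(Δ : ℝ)| := by
    push_cast
    rw [Nat.cast_natAbs]
    push_cast
    ring
  rw [hMc] at h2
  set D : ℝ := |(Δ : ℝ)| with hD
  have hD0 : 0 < D := by linarith
  have hlog2 : (1 / 2 : ℝ) < Real.log 2 := by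
    have := Real.log_two_gt_d9
    linarith
  have h3 : 1 + Real.logb 2 (2 * D) ≤ 42 * D ^ (1 / 20 : ℝ) := by
    have a1 : Real.logb 2 (2 * D) = 1 + Real.logb 2 D := by
      rw [Real.logb_mul (by norm_num) hD0.ne', Real.logb_self_eq_one (by norm_num)]
    have a2 : Real.log D ≤ 20 * D ^ (1 / 20 : ℝ) := by
      have := Real.log_le_rpow_div hD0.le (ε := 1 / 20) (by norm_num)
      linarith
    have a3 : Real.logb 2 D ≤ 40 * D ^ (1 / 20 : ℝ) := by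
      unfold Real.logb
      rw [div_le_iff₀ (by linarith)]
      have a4 : 0 ≤ D ^ (1 / 20 : ℝ) := Real.rpow_nonneg hD0.le _
      nlinarith
    have a5 : 1 ≤ D ^ (1 / 20 : ℝ) := Real.one_le_rpow hD1 (by norm_num)
    rw [a1]
    linarith
  have h4 : 0 < 1 + Real.logb 2 (2 * D) := by
    have : 0 ≤ Real.logb 2 (2 * D) := Real.logb_nonneg (by norm_num) (by linarith)
    linarith
  have hp : 0 < D ^ (1 / 20 : ℝ) := Real.rpow_pos_of_pos hD0 _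
  have h5 : (42 * D ^ (1 / 20 : ℝ))⁻¹ ≤ kap (2 * Δ.natAbs) :=
    (inv_anti₀ h4 h3).trans h2
  have h6 : 0 ≤ c * D ^ (-(1 / 20) : ℝ) := mul_nonneg hc.le (Real.rpow_nonneg hD0.le _)
  have h7 : (42 * D ^ (1 / 20 : ℝ))⁻¹ * (c * D ^ (-(1 / 20) : ℝ)) ≤
      kap (2 * Δ.natAbs) * Lv (jc Δ) 1 :=
    mul_le_mul h5 h1 h6 (kap_le (M := 2 * Δ.natAbs)).1.le
  refine le_trans (le_of_eq ?_) h7
  have h8 : D ^ (-(1 / 10) : ℝ) = (D ^ (1 / 20 : ℝ))⁻¹ * D ^ (-(1 / 20) : ℝ) := by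
    rw [← Real.rpow_neg hD0.le, ← Real.rpow_add hD0]
    norm_num
  rw [h8, mul_inv]
  ring

theorem class_ge : ∃ c : ℝ, 0 < c ∧ ∀ Δ : ℤ, Δ < 0 → (Δ % 4 = 0 ∨ Δ % 4 = 1) →
    c * |(Δ : ℝ)| ^ (1 / 4 : ℝ) ≤ (jset Δ).ncard := by
  obtain ⟨c₂, hc₂, hlam⟩ := cls_lam
  have hc₁ := cls_c_pos
  set c₁ := cls_c with hc₁def
  refine ⟨c₁ * c₂ / 268, by positivity, fun Δ hΔ h4 => ?_⟩
  have hD1 : (1 : ℝ) ≤ |(Δ : ℝ)| := by
    have : (1 : ℤ) ≤ |Δ| := Int.one_le_abs (by omega)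
    exact_mod_cast this
  obtain ⟨c, Q, hQ, hasy⟩ := cls_asy hΔ
  have hl := hlam Δ hΔ
  set lam : ℝ := kap (2 * Δ.natAbs) * Lv (jc Δ) 1 with hlamdef
  have hsq : ¬ IsSquare Δ := by
    rintro ⟨r, hr⟩
    nlinarith [mul_self_nonneg r]
  have hF : ∀ n, 0 ≤ (cop (2 * Δ.natAbs) * jc Δ) n := fun n =>
    copv_nonneg (chr_jc hsq) _ (fun n hn => jc_eq_zero hn) n
  set K : ℝ := max 2 (12000000 / (c₁ * c₂)) with hK
  have hK2 : 2 ≤ K := le_max_left _ _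
  have hKc : 12000000 ≤ K * (c₁ * c₂) := by
    have := le_max_right 2 (12000000 / (c₁ * c₂))
    rw [← hK, div_le_iff₀ (by positivity)] at this
    exact this
  set D : ℝ := |(Δ : ℝ)| with hD
  have hD0 : 0 < D := by linarith
  set Y : ℝ := K * D ^ 4 with hY
  have hD4 : 1 ≤ D ^ 4 := one_le_pow₀ hD1
  have hY2 : 2 ≤ Y := by nlinarith
  have hY0 : 0 < Y := by linarith
  set X : ℝ := Y ^ 4 with hX
  have hYX : Y ≤ X := le_self_pow₀ (by linarith) (by norm_num)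
  have hX2 : 2 ≤ X := hY2.trans hYX
  have hX0 : 0 < X := by linarith
  have hDX : D ^ 2 ≤ X := by
    have h1 : D ^ 2 ≤ D ^ 4 := pow_le_pow_right₀ hD1 (by norm_num)
    have h2 : D ^ 4 ≤ Y := by nlinarith
    linarith
  have hup := cls_upper hΔ h4 hDX
  have hlo := cls_lower hF hasy hX2
  rw [← hc₁def] at hlo
  have hDp : 0 < D ^ (-(1 / 10) : ℝ) := Real.rpow_pos_of_pos hD0 _
  have hlam0 : 0 < lam := lt_of_lt_of_le (by positivity) hl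
  have hkey : 6 * Q * X ^ (149 / 200 : ℝ) ≤ c₁ * lam * X := by
    have a1 : Y ≤ X ^ (51 / 200 : ℝ) := by
      calc Y = X ^ (1 / 4 : ℝ) := by
            rw [hX, ← Real.rpow_natCast, ← Real.rpow_mul hY0.le]
            norm_num
        _ ≤ X ^ (51 / 200 : ℝ) :=
            Real.rpow_le_rpow_of_exponent_le (by linarith) (by norm_num)
    have a2 : X = X ^ (51 / 200 : ℝ) * X ^ (149 / 200 : ℝ) := by
      rw [← Real.rpow_add hX0]
      norm_num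
    have a3 : 6 * Q ≤ c₁ * lam * X ^ (51 / 200 : ℝ) := by
      have b1 : D ^ 3 ≤ D ^ (-(1 / 10) : ℝ) * D ^ 4 := by
        rw [← Real.rpow_natCast, ← Real.rpow_natCast, ← Real.rpow_add hD0]
        exact Real.rpow_le_rpow_of_exponent_le hD1 (by norm_num)
      calc 6 * Q ≤ 6 * (2000000 * D ^ 3) := by linarith
        _ = 12000000 * D ^ 3 := by ring
        _ ≤ (K * (c₁ * c₂)) * (D ^ (-(1 / 10) : ℝ) * D ^ 4) :=
            mul_le_mul hKc b1 (by positivity) (by positivity)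
        _ = c₁ * (c₂ * D ^ (-(1 / 10) : ℝ)) * Y := by rw [hY]; ring
        _ ≤ c₁ * lam * X ^ (51 / 200 : ℝ) := by
            apply mul_le_mul _ a1 hY0.le (by positivity)
            exact mul_le_mul_of_nonneg_left hl hc₁.le
    calc 6 * Q * X ^ (149 / 200 : ℝ) ≤ (c₁ * lam * X ^ (51 / 200 : ℝ)) * X ^ (149 / 200 : ℝ) :=
          mul_le_mul_of_nonneg_right a3 (Real.rpow_nonneg hX0.le _)
      _ = c₁ * lam * (X ^ (51 / 200 : ℝ) * X ^ (149 / 200 : ℝ)) := by ring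
      _ = c₁ * lam * X := by rw [← a2]
  have h5 : c₁ * lam * X / 4 ≤ (jset Δ).ncard * (67 * X / Real.sqrt D) := by linarith
  have hs0 : 0 < Real.sqrt D := Real.sqrt_pos.2 hD0
  have h6 : c₁ * lam * Real.sqrt D / 268 ≤ (jset Δ).ncard := by
    have e : (jset Δ).ncard * (67 * X / Real.sqrt D) =
        (((jset Δ).ncard : ℝ) * 67 / Real.sqrt D) * X := by ring
    rw [e] at h5
    have h7 : c₁ * lam / 4 ≤ ((jset Δ).ncard : ℝ) * 67 / Real.sqrt D := by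
      by_contra hcon
      push Not at hcon
      have := mul_lt_mul_of_pos_right hcon hX0
      linarith
    rw [le_div_iff₀ hs0] at h7
    linarith
  have h8 : D ^ (1 / 4 : ℝ) ≤ D ^ (-(1 / 10) : ℝ) * Real.sqrt D := by
    rw [Real.sqrt_eq_rpow, ← Real.rpow_add hD0]
    exact Real.rpow_le_rpow_of_exponent_le hD1 (by norm_num)
  calc c₁ * c₂ / 268 * D ^ (1 / 4 : ℝ)
      ≤ c₁ * c₂ / 268 * (D ^ (-(1 / 10) : ℝ) * Real.sqrt D) :=
        mul_le_mul_of_nonneg_left h8 (by positivity)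
    _ = c₁ * (c₂ * D ^ (-(1 / 10) : ℝ)) * Real.sqrt D / 268 := by ring
    _ ≤ c₁ * lam * Real.sqrt D / 268 := by
        apply div_le_div_of_nonneg_right _ (by norm_num)
        apply mul_le_mul_of_nonneg_right _ hs0.le
        exact mul_le_mul_of_nonneg_left hl hc₁.le
    _ ≤ (jset Δ).ncard := h6

end Pool.Agent.LGO.SG
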