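import Mathlib
import Pool.Agent.LGO.SG.Cls
import Pool.Agent.LGO.CK.Orbit
import Pool.Agent.LGO.CK.Disc

/-!
# LGO/SG: the degree of a singular modulus

`deg_ge`: by `CK.orbit` every element of `jset Δ` is `σ (jInv τ)` for an automorphism `σ`, so a root of the minimal polynomial of
`jInv τ` over `ℚ`, of degree at most `[K : ℚ]`: `(jset Δ).ncard ≤ [K : ℚ]`; `b² - 4 a c ≡ 0, 1 mod 4`; `class_ge`.
`cm_use`: `|Δ| ≤ (C [K : ℚ]) ^ 4`; `x` is integral (`HasForm.integral`); for every automorphism `σ` the number `σ x` is `jInv τ'` with a form of the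
same discriminant (`CK.conj_form`), and `τ'` may be taken reduced (`HasForm.smul`, `exists_red`): `0 < a`, `|b| ≤ a ≤ c`, `3 a² ≤ |Δ|`,
`c ≤ |Δ|`; `‖σ x‖ ≤ C exp (π √|Δ|)` (`CK.cm_size`).
-/

namespace Pool.Agent.LGO.SG

open UpperHalfPlane Pool.Agent.Hhelper14.ZP Pool.Agent.LGO.CK

private theorem Deg_ncard {τ : ℍ} {a b c : ℤ} (h : HasForm τ a b c) (K : IntermediateField ℚ ℂ)
    [FiniteDimensional ℚ K] (hK : jInv τ ∈ K) :
    (jset (b ^ 2 - 4 * a * c)).ncard ≤ Module.finrank ℚ K := by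
  set p : Polynomial ℚ := minpoly ℚ (⟨jInv τ, hK⟩ : K) with hp
  have hint : IsIntegral ℚ (⟨jInv τ, hK⟩ : K) := IsIntegral.of_finite ℚ _
  have hp0 : p ≠ 0 := minpoly.ne_zero hint
  have hx : Polynomial.aeval (jInv τ) p = 0 := by
    have h1 := minpoly.aeval ℚ (⟨jInv τ, hK⟩ : K)
    have h2 := Polynomial.aeval_algebraMap_apply ℂ (⟨jInv τ, hK⟩ : K) p
    rw [h1, map_zero] at h2
    exact h2
  have hsub : jset (b ^ 2 - 4 * a * c) ⊆ p.rootSet ℂ := by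
    rintro x ⟨τ', a', b', c', h', hd, rfl⟩
    obtain ⟨σ, hσ⟩ := orbit h h' hd.symm
    rw [Polynomial.mem_rootSet]
    refine ⟨hp0, ?_⟩
    rw [← hσ]
    have h3 := Polynomial.aeval_algHom_apply ((σ : ℂ →+* ℂ).toRatAlgHom) (jInv τ) p
    rw [hx, map_zero] at h3
    exact h3
  calc (jset (b ^ 2 - 4 * a * c)).ncard ≤ (p.rootSet ℂ).ncard :=
        Set.ncard_le_ncard hsub (Polynomial.rootSet_finite p ℂ)
    _ ≤ p.natDegree := Polynomial.ncard_rootSet_le p ℂ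
    _ ≤ _ := minpoly.natDegree_le _

private theorem Deg_mod (a b c : ℤ) :
    (b ^ 2 - 4 * a * c) % 4 = 0 ∨ (b ^ 2 - 4 * a * c) % 4 = 1 := by
  rcases Int.even_or_odd' b with ⟨k, rfl | rfl⟩
  · left
    have : (2 * k) ^ 2 - 4 * a * c = 4 * (k ^ 2 - a * c) := by ring
    rw [this]
    omega
  · right
    have : (2 * k + 1) ^ 2 - 4 * a * c = 4 * (k ^ 2 + k - a * c) + 1 := by ring
    rw [this]
    omega

theorem deg_ge : ∃ C : ℝ, 0 < C ∧ ∀ (τ : ℍ) (a b c : ℤ), HasForm τ a b c →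
    ∀ (K : IntermediateField ℚ ℂ) [FiniteDimensional ℚ K], jInv τ ∈ K →
      |((b ^ 2 - 4 * a * c : ℤ) : ℝ)| ≤ C * (Module.finrank ℚ K : ℝ) ^ 4 := by
  obtain ⟨c₀, hc₀, hcl⟩ := class_ge
  refine ⟨(1 / c₀) ^ 4, by positivity, ?_⟩
  intro τ a b c h K _ hK
  have h1 := hcl (b ^ 2 - 4 * a * c) h.disc_neg (Deg_mod a b c)
  have h2 : ((jset (b ^ 2 - 4 * a * c)).ncard : ℝ) ≤ Module.finrank ℚ K := by
    exact_mod_cast Deg_ncard h K hK
  have h3 : |((b ^ 2 - 4 * a * c : ℤ) : ℝ)| ^ (1 / 4 : ℝ) ≤ (1 / c₀) * Module.finrank ℚ K := by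
    rw [one_div_mul_eq_div, le_div_iff₀ hc₀, mul_comm]
    exact h1.trans h2
  have h4 : (|((b ^ 2 - 4 * a * c : ℤ) : ℝ)| ^ (1 / 4 : ℝ)) ^ 4 = |((b ^ 2 - 4 * a * c : ℤ) : ℝ)| := by
    rw [← Real.rpow_natCast, ← Real.rpow_mul (abs_nonneg _)]
    norm_num
  rw [← h4, ← mul_pow]
  exact pow_le_pow_left₀ (Real.rpow_nonneg (abs_nonneg _) _) h3 4

private theorem Deg_pow {C n : ℕ} (hC : 4 ≤ C) (hn : 1 ≤ n) : (C : ℝ) * (n : ℝ) ^ 4 ≤ (C * n : ℝ) ^ C := by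
  have h1 : (1 : ℝ) ≤ C := by exact_mod_cast (by omega : 1 ≤ C)
  have h2 : (1 : ℝ) ≤ n := by exact_mod_cast hn
  have h3 : (1 : ℝ) ≤ C * n := by nlinarith
  calc (C : ℝ) * (n : ℝ) ^ 4 ≤ (C : ℝ) ^ 4 * (n : ℝ) ^ 4 := by
        apply mul_le_mul_of_nonneg_right _ (by positivity)
        exact le_self_pow₀ h1 (by norm_num)
    _ = (C * n : ℝ) ^ 4 := by ring
    _ ≤ _ := pow_le_pow_right₀ h3 hC

/-- a reduced form has small coefficients -/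
private theorem Deg_red {τ : ℍ} {a b c : ℤ} (h : HasForm τ a b c) (hr : Red (τ : ℂ)) :
    |b| ≤ 4 * a * c - b ^ 2 ∧ |a| ≤ 4 * a * c - b ^ 2 ∧ |c| ≤ 4 * a * c - b ^ 2 := by
  obtain ⟨h1, h2⟩ := h.core
  have ha := h.apos
  have ha' := h.pos
  have hb : |(b : ℝ)| ≤ a := by
    have h3 : (b : ℝ) = -(2 * a * (τ : ℂ).re) := by linarith
    rw [h3, abs_neg, abs_mul, abs_of_pos (by linarith : (0 : ℝ) < 2 * a)]
    have := hr.re_le
    nlinarith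
  have hb' : |b| ≤ a := by exact_mod_cast hb
  have hac : a ≤ c := by
    have h3 : 1 ≤ (τ : ℂ).re ^ 2 + (τ : ℂ).im ^ 2 := by
      have h4 := hr.one_le
      have h5 : ‖(τ : ℂ)‖ ^ 2 = (τ : ℂ).re ^ 2 + (τ : ℂ).im ^ 2 := by
        rw [← Complex.normSq_eq_norm_sq, Complex.normSq_apply]
        ring
      nlinarith
    have h6 : (b : ℝ) ^ 2 = (2 * a * (τ : ℂ).re) ^ 2 := by
      have : (b : ℝ) = -(2 * a * (τ : ℂ).re) := by linarith
      rw [this]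
      ring
    have h7 : (4 * a * a : ℝ) ≤ 4 * a * c := by
      have h8 : (4 * a * c : ℝ) = 4 * a * a * ((τ : ℂ).re ^ 2 + (τ : ℂ).im ^ 2) := by
        linear_combination h2 + h6
      rw [h8]
      have : (0 : ℝ) < 4 * a * a := by positivity
      nlinarith
    have h9 : (a : ℝ) ≤ c := le_of_mul_le_mul_left h7 (by positivity)
    exact_mod_cast h9
  have hb2 : b ^ 2 ≤ a ^ 2 := sq_le_sq.2 (by rwa [abs_of_pos ha'])
  have ha1 : 1 ≤ a := ha'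
  have h3 : a * 1 ≤ a * a := mul_le_mul_of_nonneg_left ha1 ha'.le
  have h4 : a * a ≤ a * c := mul_le_mul_of_nonneg_left hac ha'.le
  have h5 : 1 * c ≤ a * c := mul_le_mul_of_nonneg_right ha1 (ha'.le.trans hac)
  have h6 : 4 * a * c = 4 * (a * c) := by ring
  have h7 : b ^ 2 ≤ a * a := by rw [← sq]; exact hb2
  refine ⟨?_, ?_, ?_⟩
  · omega
  · rw [abs_of_pos ha']
    omega
  · rw [abs_of_pos (ha'.trans_le hac)]
    omega

/-- a singular modulus in the number field `K` of degree `D`: for every automorphism `σ`, `σ x = j(τ)` with a reduced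
quadratic `τ` with coefficients at most `(C D) ^ C`, and `x` is an algebraic integer with conjugates at most
`exp ((C D) ^ C)` -/
theorem cm_use : ∃ C : ℕ, 0 < C ∧ ∀ (K : IntermediateField ℚ ℂ) [FiniteDimensional ℚ K] (x : ℂ),
    x ∈ K → IsCMVal x → IsIntegral ℤ x ∧ ∀ σ : ℂ ≃+* ℂ,
      ‖σ x‖ ≤ Real.exp ((C * Module.finrank ℚ K : ℝ) ^ C) ∧
      ∃ (τ : ℍ) (a b c : ℤ), Red (τ : ℂ) ∧ σ x = jInv τ ∧ HasForm τ a b c ∧
        |(a : ℝ)| ≤ (C * Module.finrank ℚ K : ℝ) ^ C ∧ |(b : ℝ)| ≤ (C * Module.finrank ℚ K : ℝ) ^ C ∧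
        |(c : ℝ)| ≤ (C * Module.finrank ℚ K : ℝ) ^ C := by
  obtain ⟨C₁, hC₁, hdeg⟩ := deg_ge
  obtain ⟨C₂, hC₂, hsize⟩ := cm_size
  obtain ⟨C, hC⟩ := exists_nat_ge (C₂ + 4 * (C₁ + 16) + 4)
  have hC4 : 4 ≤ C := by
    have : (4 : ℝ) ≤ C := by linarith
    exact_mod_cast this
  refine ⟨C, by omega, ?_⟩
  rintro K _ x hxK ⟨τ₀, hcm, rfl⟩
  obtain ⟨a, b, c, h⟩ := exists_form hcm
  refine ⟨h.integral, fun σ => ?_⟩
  have hΔ := hdeg τ₀ a b c h K hxK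
  set n : ℕ := Module.finrank ℚ K with hn
  have hn1 : 1 ≤ n := Module.finrank_pos
  have hn1' : (1 : ℝ) ≤ n := by exact_mod_cast hn1
  have hn4 : (1 : ℝ) ≤ (n : ℝ) ^ 4 := one_le_pow₀ hn1'
  have hpow := Deg_pow hC4 hn1
  obtain ⟨τ', a', b', c', h', hσ, hD⟩ := conj_form h σ
  obtain ⟨γ, hγ⟩ := ModularGroup.exists_smul_mem_fd τ'
  have hred : Red ((γ • τ' : ℍ) : ℂ) := by
    refine ⟨(γ • τ').im_pos, hγ.2, ?_⟩
    have h1 := hγ.1
    rw [Complex.normSq_eq_norm_sq] at h1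
    have h2 := norm_nonneg ((γ • τ' : ℍ) : ℂ)
    nlinarith
  obtain ⟨a₂, b₂, c₂, h₂, hd₂⟩ := h'.smul γ
  have hjγ : σ (jInv τ₀) = jInv (γ • τ') := by rw [jInv_smul]; exact hσ
  -- the discriminant
  have hDle : ((4 * a₂ * c₂ - b₂ ^ 2 : ℤ) : ℝ) ≤ (C₁ + 16) * (n : ℝ) ^ 4 := by
    have h1 : 4 * a₂ * c₂ - b₂ ^ 2 ≤ 4 * a * c - b ^ 2 + 16 := by omega
    have h2 : ((4 * a₂ * c₂ - b₂ ^ 2 : ℤ) : ℝ) ≤ ((4 * a * c - b ^ 2 + 16 : ℤ) : ℝ) := by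
      exact_mod_cast h1
    have h3 := neg_abs_le ((b ^ 2 - 4 * a * c : ℤ) : ℝ)
    push_cast at h2 h3 hΔ ⊢
    nlinarith
  have hDC : ((4 * a₂ * c₂ - b₂ ^ 2 : ℤ) : ℝ) ≤ (C * n : ℝ) ^ C := by
    refine hDle.trans (le_trans ?_ hpow)
    apply mul_le_mul_of_nonneg_right _ (by positivity)
    linarith
  obtain ⟨hb, ha, hc⟩ := Deg_red h₂ hred
  refine ⟨?_, γ • τ', a₂, b₂, c₂, hred, hjγ, h₂, ?_, ?_, ?_⟩
  · rw [hjγ]
    have h1 := hsize (γ • τ') a₂ b₂ c₂ h₂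
    have hD0 : (0 : ℝ) ≤ (4 * a₂ * c₂ - b₂ ^ 2 : ℝ) := by
      have := h₂.disc_neg
      have h3 : (0 : ℤ) ≤ 4 * a₂ * c₂ - b₂ ^ 2 := by omega
      exact_mod_cast h3
    have h2 : √(4 * a₂ * c₂ - b₂ ^ 2 : ℝ) ≤ (C₁ + 16) * (n : ℝ) ^ 4 := by
      have h3 : (4 * a₂ * c₂ - b₂ ^ 2 : ℝ) ≤ (C₁ + 16) * (n : ℝ) ^ 4 := by
        have := hDle
        push_cast at this
        exact this
      have h4 : (1 : ℝ) ≤ (C₁ + 16) * (n : ℝ) ^ 4 := by nlinarith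
      rw [Real.sqrt_le_left (by linarith)]
      nlinarith
    have h5 : C₂ ≤ Real.exp C₂ := by
      have := Real.add_one_le_exp C₂
      linarith
    calc ‖jInv (γ • τ')‖ ≤ C₂ * Real.exp (Real.pi * √(4 * a₂ * c₂ - b₂ ^ 2 : ℝ)) := h1
      _ ≤ Real.exp C₂ * Real.exp (Real.pi * √(4 * a₂ * c₂ - b₂ ^ 2 : ℝ)) :=
          mul_le_mul_of_nonneg_right h5 (Real.exp_pos _).le
      _ = Real.exp (C₂ + Real.pi * √(4 * a₂ * c₂ - b₂ ^ 2 : ℝ)) := by rw [Real.exp_add]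
      _ ≤ Real.exp ((C * n : ℝ) ^ C) := by
          apply Real.exp_le_exp.2
          refine le_trans ?_ hpow
          have h6 := Real.pi_le_four
          have h7 := Real.sqrt_nonneg (4 * a₂ * c₂ - b₂ ^ 2 : ℝ)
          have h8 : Real.pi * √(4 * a₂ * c₂ - b₂ ^ 2 : ℝ) ≤ 4 * ((C₁ + 16) * (n : ℝ) ^ 4) := by
            have h9 := mul_le_mul_of_nonneg_right h6 h7
            linarith
          have h10 : C₂ * 1 ≤ C₂ * (n : ℝ) ^ 4 := mul_le_mul_of_nonneg_left hn4 hC₂.le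
          have h11 : (C₂ + 4 * (C₁ + 16)) * (n : ℝ) ^ 4 ≤ C * (n : ℝ) ^ 4 :=
            mul_le_mul_of_nonneg_right (by linarith) (by positivity)
          linarith
  · refine le_trans ?_ hDC
    exact_mod_cast ha
  · refine le_trans ?_ hDC
    exact_mod_cast hb
  · refine le_trans ?_ hDC
    exact_mod_cast hc

end Pool.Agent.LGO.SG
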